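import Mathlib

/-!
# The positive eigenfunction of a positive continuous kernel
-/

open MeasureTheory Filter
open scoped Topology

namespace Pool.Agent.R990.TG

set_option linter.unusedSectionVars false
set_option linter.unusedVariables false

noncomputable section

variable {X : Type*} [TopologicalSpace X] [CompactSpace X] [MeasurableSpace X] [BorelSpace X]
  [SecondCountableTopology X] (μ : Measure X) [IsProbabilityMeasure μ] (K : X → X → ℝ)

/-- the operator with the kernel `K` -/
def TK (f : X → ℝ) (x : X) : ℝ := ∫ y, K x y * f y ∂μ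

lemma cint {f : X → ℝ} (hf : Continuous f) : Integrable f μ :=
  hf.integrable_of_hasCompactSupport (HasCompactSupport.of_compactSpace _)

lemma cint2 {f : X × X → ℝ} (hf : Continuous f) : Integrable f (μ.prod μ) :=
  hf.integrable_of_hasCompactSupport (HasCompactSupport.of_compactSpace _)

variable {K} (hK : Continuous (Function.uncurry K))

include hK

lemma K1 (x : X) : Continuous (K x) := hK.comp (Continuous.prodMk_right x)

lemma K_bdd : ∃ b : ℝ, 0 < b ∧ ∀ x y, |K x y| ≤ b := by
  obtain ⟨b, hb⟩ := (isCompact_univ.image hK.norm).bddAbove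
  refine ⟨|b| + 1, by positivity, fun x y => ?_⟩
  have := hb ⟨(x, y), trivial, rfl⟩
  simp only [Function.uncurry, Real.norm_eq_abs] at this
  exact this.trans ((le_abs_self b).trans (by linarith))

lemma TK_cont {f : X → ℝ} (hf : Continuous f) : Continuous (TK μ K f) := by
  obtain ⟨b, hb, h⟩ := K_bdd hK
  obtain ⟨B, hB⟩ := (isCompact_univ.image hf.norm).bddAbove
  refine continuous_of_dominated (F := fun x y => K x y * f y) (bound := fun _ => b * B)
    (fun x => ((K1 hK x).mul hf).aestronglyMeasurable)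
    (fun x => Filter.Eventually.of_forall fun y => ?_) (integrable_const _)
    (Filter.Eventually.of_forall fun y => ?_)
  · have h1 : ‖f y‖ ≤ B := hB ⟨y, trivial, rfl⟩
    rw [norm_mul]
    exact mul_le_mul (h x y) h1 (norm_nonneg _) hb.le
  · exact (hK.comp (Continuous.prodMk_left y)).mul continuous_const

lemma TK_add {f g : X → ℝ} (hf : Continuous f) (hg : Continuous g) (a b : ℝ) (x : X) :
    TK μ K (fun y => a * f y + b * g y) x = a * TK μ K f x + b * TK μ K g x := by
  have i1 : Integrable (fun y => a * (K x y * f y)) μ := (cint μ ((K1 hK x).mul hf)).const_mul a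
  have i2 : Integrable (fun y => b * (K x y * g y)) μ := (cint μ ((K1 hK x).mul hg)).const_mul b
  unfold TK
  rw [← integral_const_mul, ← integral_const_mul, ← integral_add i1 i2]
  refine integral_congr_ae (Filter.Eventually.of_forall fun y => ?_)
  simp only; ring

lemma TK_mono (h0 : ∀ x y, 0 ≤ K x y) {f g : X → ℝ} (hf : Continuous f) (hg : Continuous g)
    (h : ∀ x, f x ≤ g x) (x : X) : TK μ K f x ≤ TK μ K g x := by
  unfold TK
  exact integral_mono (cint μ ((K1 hK x).mul hf)) (cint μ ((K1 hK x).mul hg)) fun y =>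
    mul_le_mul_of_nonneg_left (h y) (h0 x y)

omit hK in
lemma TK_smul (c : ℝ) (f : X → ℝ) (x : X) : TK μ K (fun y => c * f y) x = c * TK μ K f x := by
  unfold TK
  rw [← integral_const_mul]
  refine integral_congr_ae (Filter.Eventually.of_forall fun y => ?_)
  simp only; ring

section bounds

variable {a b : ℝ} (ha : 0 < a) (hab : ∀ x y, a ≤ K x y) (hbb : ∀ x y, K x y ≤ b)

include ha hab

lemma TK_lower {f : X → ℝ} (hf : Continuous f) (h0 : ∀ x, 0 ≤ f x) (x : X) :
    a * ∫ y, f y ∂μ ≤ TK μ K f x := by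
  unfold TK
  rw [← integral_const_mul]
  exact integral_mono ((cint μ hf).const_mul a) (cint μ ((K1 hK x).mul hf)) fun y =>
    mul_le_mul_of_nonneg_right (hab x y) (h0 y)

include hbb

omit ha hab in
lemma TK_upper {f : X → ℝ} (hf : Continuous f) (h0 : ∀ x, 0 ≤ f x) (x : X) :
    TK μ K f x ≤ b * ∫ y, f y ∂μ := by
  unfold TK
  rw [← integral_const_mul]
  exact integral_mono (cint μ ((K1 hK x).mul hf)) ((cint μ hf).const_mul b) fun y =>
    mul_le_mul_of_nonneg_right (hbb x y) (h0 y)

/-- one step of the contraction -/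
lemma pf_step {u v : X → ℝ} (hu : Continuous u) (hv : Continuous v) (hv0 : ∀ x, 0 < v x)
    {m M : ℝ} (hm : ∀ x, m * v x ≤ u x) (hM : ∀ x, u x ≤ M * v x) :
    ∃ m' M' : ℝ, m ≤ m' ∧ M' ≤ M ∧ M' - m' = (1 - a / b) * (M - m) ∧
      (∀ x, m' * TK μ K v x ≤ TK μ K u x) ∧ ∀ x, TK μ K u x ≤ M' * TK μ K v x := by
  have hne : Nonempty X := nonempty_of_isProbabilityMeasure μ
  obtain ⟨x0⟩ := hne
  have hb : 0 < b := ha.trans_le ((hab x0 x0).trans (hbb x0 x0))
  obtain ⟨I, hI⟩ : ∃ I, I = ∫ y, v y ∂μ := ⟨_, rfl⟩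
  obtain ⟨J, hJ⟩ : ∃ J, J = ∫ y, u y ∂μ := ⟨_, rfl⟩
  have hI0 : 0 < I := by
    rw [hI]
    refine (integral_pos_iff_support_of_nonneg (fun x => (hv0 x).le) (cint μ hv)).2 ?_
    have : Function.support v = Set.univ := by
      ext x; simp [(hv0 x).ne']
    rw [this]; simp
  have e1 : ∫ y, (1 * u y + (-m) * v y) ∂μ = J - m * I := by
    rw [integral_add ((cint μ hu).const_mul 1) ((cint μ hv).const_mul (-m)), integral_const_mul,
      integral_const_mul, hI, hJ]; ring
  have e2 : ∫ y, ((-1) * u y + M * v y) ∂μ = M * I - J := by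
    rw [integral_add ((cint μ hu).const_mul (-1)) ((cint μ hv).const_mul M), integral_const_mul,
      integral_const_mul, hI, hJ]; ring
  have c1 : Continuous fun y => 1 * u y + (-m) * v y :=
    (continuous_const.mul hu).add (continuous_const.mul hv)
  have c2 : Continuous fun y => (-1) * u y + M * v y :=
    (continuous_const.mul hu).add (continuous_const.mul hv)
  have p1 : ∀ y, 0 ≤ 1 * u y + (-m) * v y := fun y => by linarith [hm y]
  have p2 : ∀ y, 0 ≤ (-1) * u y + M * v y := fun y => by linarith [hM y]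
  have q1 : 0 ≤ J - m * I := by rw [← e1]; exact integral_nonneg p1
  have q2 : 0 ≤ M * I - J := by rw [← e2]; exact integral_nonneg p2
  refine ⟨m + a / b * ((J - m * I) / I), M - a / b * ((M * I - J) / I), ?_, ?_, ?_, fun x => ?_,
    fun x => ?_⟩
  · have : 0 ≤ a / b * ((J - m * I) / I) := by positivity
    linarith
  · have : 0 ≤ a / b * ((M * I - J) / I) := by positivity
    linarith
  · field_simp
    ring
  · have h1 := TK_lower μ hK ha hab c1 p1 x
    rw [TK_add μ hK hu hv, e1] at h1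
    have h2 := TK_upper μ hK hbb hv (fun x => (hv0 x).le) x
    rw [← hI] at h2
    have h3 : a / b * ((J - m * I) / I) * TK μ K v x ≤ a * (J - m * I) := by
      calc _ ≤ a / b * ((J - m * I) / I) * (b * I) :=
            mul_le_mul_of_nonneg_left h2 (by positivity)
        _ = _ := by field_simp
    rw [add_mul]
    linarith
  · have h1 := TK_lower μ hK ha hab c2 p2 x
    rw [TK_add μ hK hu hv, e2] at h1
    have h2 := TK_upper μ hK hbb hv (fun x => (hv0 x).le) x
    rw [← hI] at h2
    have h3 : a / b * ((M * I - J) / I) * TK μ K v x ≤ a * (M * I - J) := by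
      calc _ ≤ a / b * ((M * I - J) / I) * (b * I) :=
            mul_le_mul_of_nonneg_left h2 (by positivity)
        _ = _ := by field_simp
    rw [sub_mul]
    linarith

end bounds

/-- the iterates -/
def it (μ : Measure X) (K : X → X → ℝ) (n : ℕ) : X → ℝ := (TK μ K)^[n] fun _ => 1

omit hK in
lemma it_zero : it μ K 0 = fun _ => 1 := rfl

omit hK in
lemma it_succ (n : ℕ) : it μ K (n + 1) = TK μ K (it μ K n) := by
  unfold it
  rw [Function.iterate_succ_apply']

lemma it_cont (n : ℕ) : Continuous (it μ K n) := by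
  induction n with
  | zero => exact continuous_const
  | succ n ih => rw [it_succ]; exact TK_cont μ hK ih

lemma it_pos (hp : ∀ x y, 0 < K x y) (n : ℕ) (x : X) : 0 < it μ K n x := by
  induction n generalizing x with
  | zero => exact one_pos
  | succ n ih =>
    rw [it_succ]
    have hc : Continuous fun y => K x y * it μ K n y := (K1 hK x).mul (it_cont μ hK n)
    have hpos : ∀ y, 0 < K x y * it μ K n y := fun y => mul_pos (hp x y) (ih y)
    unfold TK
    refine (integral_pos_iff_support_of_nonneg (fun y => (hpos y).le) (cint μ hc)).2 ?_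
    have : Function.support (fun y => K x y * it μ K n y) = Set.univ :=
      Set.eq_univ_of_forall fun y => (hpos y).ne'
    rw [this]; simp

/-- **Perron-Frobenius**: the iterates converge to a positive eigenfunction. -/
theorem pf (hp : ∀ x y, 0 < K x y) : ∃ lam : ℝ, 0 < lam ∧ ∃ Om : X → ℝ, Continuous Om ∧
    (∀ x, 0 < Om x) ∧ (∀ x, TK μ K Om x = lam * Om x) ∧
    TendstoUniformly (fun n x => it μ K n x / lam ^ n) Om atTop := by
  obtain ⟨x0⟩ : Nonempty X := nonempty_of_isProbabilityMeasure μ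
  obtain ⟨b, hb, hbb'⟩ := K_bdd hK
  have hbb : ∀ x y, K x y ≤ b := fun x y => (le_abs_self _).trans (hbb' x y)
  obtain ⟨a, ha, hab⟩ : ∃ a : ℝ, 0 < a ∧ ∀ x y, a ≤ K x y := by
    obtain ⟨z, -, hz⟩ := isCompact_univ.exists_isMinOn (⟨(x0, x0), trivial⟩ :
      (Set.univ : Set (X × X)).Nonempty) hK.continuousOn
    exact ⟨K z.1 z.2, hp _ _, fun x y => hz (Set.mem_univ (x, y))⟩
  have habb : a ≤ b := (hab x0 x0).trans (hbb x0 x0)
  obtain ⟨ρ, hρ⟩ : ∃ ρ, ρ = 1 - a / b := ⟨_, rfl⟩
  have hρ0 : 0 ≤ ρ := by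
    rw [hρ]
    have := (div_le_one hb).2 habb
    linarith
  have hρ1 : ρ < 1 := by
    rw [hρ]
    have : 0 < a / b := by positivity
    linarith
  -- the sequences
  let P : ℕ → ℝ × ℝ → Prop := fun n p => (∀ x, p.1 * it μ K n x ≤ it μ K (n + 1) x) ∧
    ∀ x, it μ K (n + 1) x ≤ p.2 * it μ K n x
  have key : ∀ n (p : ℝ × ℝ), P n p → ∃ q : ℝ × ℝ, P (n + 1) q ∧ p.1 ≤ q.1 ∧ q.2 ≤ p.2 ∧
      q.2 - q.1 = ρ * (p.2 - p.1) := by
    intro n p hP
    obtain ⟨m', M', h1, h2, h3, h4, h5⟩ := pf_step μ hK ha hab hbb (it_cont μ hK (n + 1))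
      (it_cont μ hK n) (it_pos μ hK hp n) hP.1 hP.2
    refine ⟨(m', M'), ⟨fun x => ?_, fun x => ?_⟩, h1, h2, by rw [h3, hρ]⟩
    · rw [it_succ μ (n + 1), it_succ μ n]
      rw [it_succ μ n] at h4
      exact h4 x
    · rw [it_succ μ (n + 1), it_succ μ n]
      rw [it_succ μ n] at h5
      exact h5 x
  choose f hf using key
  have hP0 : P 0 (a, b) := by
    have h1 : ∀ x, it μ K (0 + 1) x = ∫ y, K x y ∂μ := by
      intro x
      rw [it_succ, it_zero]
      unfold TK
      simp
    refine ⟨fun x => ?_, fun x => ?_⟩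
    · rw [h1, it_zero]
      have := TK_lower μ hK ha hab (continuous_const (y := (1 : ℝ))) (fun _ => zero_le_one) x
      unfold TK at this
      simpa using this
    · rw [h1, it_zero]
      have := TK_upper μ hK hbb (continuous_const (y := (1 : ℝ))) (fun _ => zero_le_one) x
      unfold TK at this
      simpa using this
  let s : ∀ n, {p : ℝ × ℝ // P n p} := fun n => Nat.rec ⟨(a, b), hP0⟩
    (fun n p => ⟨f n p.1 p.2, (hf n p.1 p.2).1⟩) n
  obtain ⟨m, hm⟩ : ∃ m : ℕ → ℝ, m = fun n => (s n).1.1 := ⟨_, rfl⟩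
  obtain ⟨M, hM⟩ : ∃ M : ℕ → ℝ, M = fun n => (s n).1.2 := ⟨_, rfl⟩
  have hs : ∀ n, m n ≤ m (n + 1) ∧ M (n + 1) ≤ M n ∧ M (n + 1) - m (n + 1) = ρ * (M n - m n) := by
    intro n
    rw [hm, hM]
    exact (hf n (s n).1 (s n).2).2
  have hm0 : m 0 = a := by rw [hm]; rfl
  have hM0 : M 0 = b := by rw [hM]; rfl
  have hlow : ∀ n x, m n * it μ K n x ≤ it μ K (n + 1) x := by
    intro n x; rw [hm]; exact (s n).2.1 x
  have hupp : ∀ n x, it μ K (n + 1) x ≤ M n * it μ K n x := by
    intro n x; rw [hM]; exact (s n).2.2 x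
  clear_value s
  have hmm : Monotone m := monotone_nat_of_le_succ fun n => (hs n).1
  have hMM : Antitone M := antitone_nat_of_succ_le fun n => (hs n).2.1
  have hdiff : ∀ n, M n - m n = ρ ^ n * (b - a) := by
    intro n
    induction n with
    | zero => rw [hm0, hM0]; ring
    | succ n ih => rw [(hs n).2.2, ih, pow_succ]; ring
  have hmM : ∀ n, m n ≤ M n := by
    intro n
    have h1 := hdiff n
    have h2 : 0 ≤ ρ ^ n * (b - a) := mul_nonneg (pow_nonneg hρ0 n) (by linarith)
    linarith
  have hmk : ∀ k n, m k ≤ M n := by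
    intro k n
    rcases le_total k n with h | h
    · exact (hmm h).trans (hmM n)
    · exact (hmM k).trans (hMM h)
  obtain ⟨lam, hlam⟩ : ∃ lam, lam = ⨆ n, m n := ⟨_, rfl⟩
  have hbd : BddAbove (Set.range m) := ⟨M 0, by rintro _ ⟨k, rfl⟩; exact hmk k 0⟩
  have l1 : ∀ n, m n ≤ lam := fun n => by rw [hlam]; exact le_ciSup hbd n
  have l2 : ∀ n, lam ≤ M n := fun n => by rw [hlam]; exact ciSup_le fun k => hmk k n
  have hl0 : 0 < lam := ha.trans_le (hm0 ▸ l1 0)
  obtain ⟨g, hg⟩ : ∃ g : ℕ → X → ℝ, g = fun n x => it μ K n x / lam ^ n := ⟨_, rfl⟩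
  have hgpos : ∀ n x, 0 < g n x := fun n x => by
    rw [hg]; exact div_pos (it_pos μ hK hp n x) (pow_pos hl0 n)
  have hgc : ∀ n, Continuous (g n) := fun n => by rw [hg]; exact (it_cont μ hK n).div_const _
  obtain ⟨D, hD⟩ : ∃ D, D = (b - a) / lam := ⟨_, rfl⟩
  have hD0 : 0 ≤ D := by rw [hD]; exact div_nonneg (by linarith) hl0.le
  have hstep : ∀ n x, |g (n + 1) x - g n x| ≤ D * ρ ^ n * g n x := by
    intro n x
    have h1 := hlow n x
    have h2 := hupp n x
    have h3 := it_pos μ hK hp n x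
    have h4 : |it μ K (n + 1) x - lam * it μ K n x| ≤ ρ ^ n * (b - a) * it μ K n x := by
      rw [← hdiff n, abs_le]
      have h5 := mul_le_mul_of_nonneg_right (l1 n) h3.le
      have h6 := mul_le_mul_of_nonneg_right (l2 n) h3.le
      constructor <;> nlinarith
    have h5 : g (n + 1) x - g n x = (it μ K (n + 1) x - lam * it μ K n x) / lam ^ (n + 1) := by
      rw [hg]
      simp only
      rw [pow_succ]
      field_simp
    have h6 : D * ρ ^ n * g n x = ρ ^ n * (b - a) * it μ K n x / lam ^ (n + 1) := by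
      rw [hg, hD]
      simp only
      rw [pow_succ]
      field_simp
    rw [h5, h6, abs_div, abs_of_pos (pow_pos hl0 (n + 1))]
    exact div_le_div_of_nonneg_right h4 (pow_pos hl0 _).le
  -- upper bound
  have hgeo : ∀ n, ∑ k ∈ Finset.range n, D * ρ ^ k ≤ D / (1 - ρ) := by
    intro n
    rw [← Finset.mul_sum, div_eq_mul_inv]
    refine mul_le_mul_of_nonneg_left ?_ hD0
    rw [← tsum_geometric_of_lt_one hρ0 hρ1]
    exact (summable_geometric_of_lt_one hρ0 hρ1).sum_le_tsum _ fun k _ => pow_nonneg hρ0 k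
  obtain ⟨B, hB⟩ : ∃ B, B = Real.exp (D / (1 - ρ)) := ⟨_, rfl⟩
  have hgB : ∀ n x, g n x ≤ B := by
    intro n x
    have h1 : g n x ≤ Real.exp (∑ k ∈ Finset.range n, D * ρ ^ k) := by
      induction n with
      | zero =>
        rw [hg]
        simp [it_zero]
      | succ n ih =>
        rw [Finset.sum_range_succ, Real.exp_add]
        have h2 := (abs_le.1 (hstep n x)).2
        have h3 : g (n + 1) x ≤ g n x * (1 + D * ρ ^ n) := by linarith
        refine h3.trans (mul_le_mul ih ?_ ?_ (Real.exp_pos _).le)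
        · linarith [Real.add_one_le_exp (D * ρ ^ n)]
        · have := pow_nonneg hρ0 n
          positivity
    rw [hB]
    exact h1.trans (Real.exp_le_exp.2 (hgeo n))
  have hB0 : 0 < B := by rw [hB]; exact Real.exp_pos _
  have hdist : ∀ x n, dist (g n x) (g (n + 1) x) ≤ (D * B) * ρ ^ n := by
    intro x n
    rw [dist_comm, Real.dist_eq]
    refine (hstep n x).trans ?_
    calc D * ρ ^ n * g n x ≤ D * ρ ^ n * B :=
          mul_le_mul_of_nonneg_left (hgB n x) (mul_nonneg hD0 (pow_nonneg hρ0 n))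
      _ = _ := by ring
  have hlim : ∀ x, ∃ y, Tendsto (fun n => g n x) atTop (𝓝 y) := fun x =>
    cauchySeq_tendsto_of_complete (cauchySeq_of_le_geometric ρ (D * B) hρ1 (hdist x))
  choose Om hOm using hlim
  have hunif : TendstoUniformly g Om atTop := by
    rw [Metric.tendstoUniformly_iff]
    intro ε hε
    have h1 : Tendsto (fun n : ℕ => (D * B) * ρ ^ n / (1 - ρ)) atTop (𝓝 0) := by
      have := ((tendsto_pow_atTop_nhds_zero_of_lt_one hρ0 hρ1).const_mul (D * B)).div_const (1 - ρ)
      simpa using this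
    filter_upwards [h1.eventually (gt_mem_nhds hε)] with n hn x
    rw [dist_comm]
    exact (dist_le_of_le_geometric_of_tendsto ρ (D * B) hρ1 (hdist x) (hOm x) n).trans_lt hn
  have hOc : Continuous Om := hunif.continuous (Filter.Frequently.of_forall hgc)
  refine ⟨lam, hl0, Om, hOc, fun x => ?_, fun x => ?_, ?_⟩
  · -- positivity
    have h1 : Tendsto (fun n : ℕ => D * ρ ^ n / (1 - ρ)) atTop (𝓝 0) := by
      have := ((tendsto_pow_atTop_nhds_zero_of_lt_one hρ0 hρ1).const_mul D).div_const (1 - ρ)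
      simpa using this
    obtain ⟨n0, hn0⟩ := (h1.eventually (gt_mem_nhds (by norm_num : (0 : ℝ) < 1 / 2))).exists
    have h2 : ∀ k, (1 - ∑ j ∈ Finset.range k, D * ρ ^ (n0 + j)) * g n0 x ≤ g (n0 + k) x ∧
        ∑ j ∈ Finset.range k, D * ρ ^ (n0 + j) ≤ 1 / 2 := by
      intro k
      have hsum : ∀ k, ∑ j ∈ Finset.range k, D * ρ ^ (n0 + j) ≤ 1 / 2 := by
        intro k
        have e : ∑ j ∈ Finset.range k, D * ρ ^ (n0 + j) =
            ρ ^ n0 * ∑ j ∈ Finset.range k, D * ρ ^ j := by
          rw [Finset.mul_sum]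
          exact Finset.sum_congr rfl fun j _ => by rw [pow_add]; ring
        rw [e]
        refine (mul_le_mul_of_nonneg_left (hgeo k) (pow_nonneg hρ0 n0)).trans ?_
        refine le_trans (le_of_eq ?_) hn0.le
        ring
      refine ⟨?_, hsum k⟩
      induction k with
      | zero => simp
      | succ k ih =>
        have h3 := (abs_le.1 (hstep (n0 + k) x)).1
        obtain ⟨S, hS⟩ : ∃ S, S = ∑ j ∈ Finset.range k, D * ρ ^ (n0 + j) := ⟨_, rfl⟩
        obtain ⟨q, hq⟩ : ∃ q, q = D * ρ ^ (n0 + k) := ⟨_, rfl⟩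
        have hq0 : 0 ≤ q := by rw [hq]; exact mul_nonneg hD0 (pow_nonneg hρ0 _)
        have hS1 := hsum k
        have hS2 := hsum (k + 1)
        have hS0 : 0 ≤ S := by
          rw [hS]
          exact Finset.sum_nonneg fun j _ => mul_nonneg hD0 (pow_nonneg hρ0 _)
        rw [Finset.sum_range_succ, ← hS, ← hq] at hS2 ⊢
        rw [← hS] at ih hS1
        rw [← hq] at h3
        have h4 : (1 - q) * g (n0 + k) x ≤ g (n0 + (k + 1)) x := by
          have : n0 + (k + 1) = n0 + k + 1 := by omega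
          rw [this]
          linarith
        have h5 : (1 - q) * ((1 - S) * g n0 x) ≤ (1 - q) * g (n0 + k) x :=
          mul_le_mul_of_nonneg_left ih (by linarith)
        have h6 : 0 ≤ q * S * g n0 x := by
          have := (hgpos n0 x).le
          positivity
        nlinarith
    have h3 : g n0 x / 2 ≤ Om x := by
      refine ge_of_tendsto (hOm x) ?_
      filter_upwards [eventually_ge_atTop n0] with n hn
      obtain ⟨k, rfl⟩ := Nat.exists_eq_add_of_le hn
      have h4 := (h2 k).1
      have h5 := (h2 k).2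
      have h6 := hgpos n0 x
      nlinarith
    exact lt_of_lt_of_le (half_pos (hgpos n0 x)) h3
  · -- eigenfunction
    have h1 : ∀ n, TK μ K (g n) x = lam * g (n + 1) x := by
      intro n
      have h2 : g n = fun y => (lam ^ n)⁻¹ * it μ K n y := by
        rw [hg]; funext y; simp only; rw [div_eq_inv_mul]
      rw [h2, TK_smul, ← it_succ, hg]
      simp only
      rw [pow_succ]
      field_simp
    have h2 : Tendsto (fun n => TK μ K (g n) x) atTop (𝓝 (lam * Om x)) := by
      simp only [h1]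
      exact (((tendsto_add_atTop_iff_nat 1).2 (hOm x))).const_mul lam
    have h3 : Tendsto (fun n => TK μ K (g n) x) atTop (𝓝 (TK μ K Om x)) := by
      unfold TK
      refine tendsto_integral_of_dominated_convergence (fun _ => b * B)
        (fun n => ((K1 hK x).mul (hgc n)).aestronglyMeasurable) (integrable_const _)
        (fun n => Filter.Eventually.of_forall fun y => ?_)
        (Filter.Eventually.of_forall fun y => (hOm y).const_mul _)
      rw [norm_mul, Real.norm_eq_abs, Real.norm_eq_abs]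
      refine mul_le_mul (hbb' x y) ?_ (abs_nonneg _) hb.le
      rw [abs_of_pos (hgpos n y)]
      exact hgB n y
    exact tendsto_nhds_unique h3 h2
  · rw [hg] at hunif
    exact hunif

omit hK in
/-- the Dirichlet form of the ground state -/
theorem dform (hK : Continuous (Function.uncurry K)) (hsym : ∀ x y, K x y = K y x) {lam : ℝ}
    {Om : X → ℝ} (hO : Continuous Om)
    (hT : ∀ x, TK μ K Om x = lam * Om x) {F : X → ℝ} (hF : Continuous F) :
    lam * ∫ x, (F x * Om x) ^ 2 ∂μ - ∫ x, (F x * Om x) * TK μ K (fun y => F y * Om y) x ∂μ =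
      (1 / 2) * ∫ z, K z.1 z.2 * (Om z.1 * Om z.2) * (F z.1 - F z.2) ^ 2 ∂(μ.prod μ) := by
  have c1 : Continuous fun z : X × X => F z.1 := hF.comp continuous_fst
  have c2 : Continuous fun z : X × X => F z.2 := hF.comp continuous_snd
  have o1 : Continuous fun z : X × X => Om z.1 := hO.comp continuous_fst
  have o2 : Continuous fun z : X × X => Om z.2 := hO.comp continuous_snd
  have hK' : Continuous fun z : X × X => K z.1 z.2 := hK
  have i1 : Integrable (fun z : X × X => K z.1 z.2 * (Om z.1 * Om z.2) * F z.1 ^ 2) (μ.prod μ) :=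
    cint2 μ ((hK'.mul (o1.mul o2)).mul (c1.pow 2))
  have i2 : Integrable (fun z : X × X => K z.1 z.2 * (Om z.1 * Om z.2) * F z.2 ^ 2) (μ.prod μ) :=
    cint2 μ ((hK'.mul (o1.mul o2)).mul (c2.pow 2))
  have i3 : Integrable (fun z : X × X => K z.1 z.2 * (Om z.1 * Om z.2) * (F z.1 * F z.2))
      (μ.prod μ) := cint2 μ ((hK'.mul (o1.mul o2)).mul (c1.mul c2))
  have e1 : ∫ z, K z.1 z.2 * (Om z.1 * Om z.2) * F z.1 ^ 2 ∂(μ.prod μ) =
      lam * ∫ x, (F x * Om x) ^ 2 ∂μ := by
    rw [integral_prod _ i1, ← integral_const_mul]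
    refine integral_congr_ae (Filter.Eventually.of_forall fun x => ?_)
    simp only
    have h1 : ∀ y, K x y * (Om x * Om y) * F x ^ 2 = (Om x * F x ^ 2) * (K x y * Om y) :=
      fun y => by ring
    simp only [h1]
    rw [integral_const_mul]
    have h2 := hT x
    unfold TK at h2
    rw [h2]; ring
  have e2 : ∫ z, K z.1 z.2 * (Om z.1 * Om z.2) * F z.2 ^ 2 ∂(μ.prod μ) =
      lam * ∫ x, (F x * Om x) ^ 2 ∂μ := by
    rw [integral_prod_symm _ i2, ← integral_const_mul]
    refine integral_congr_ae (Filter.Eventually.of_forall fun x => ?_)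
    simp only
    have h1 : ∀ y, K y x * (Om y * Om x) * F x ^ 2 = (Om x * F x ^ 2) * (K x y * Om y) :=
      fun y => by rw [hsym y x]; ring
    simp only [h1]
    rw [integral_const_mul]
    have h2 := hT x
    unfold TK at h2
    rw [h2]; ring
  have e3 : ∫ z, K z.1 z.2 * (Om z.1 * Om z.2) * (F z.1 * F z.2) ∂(μ.prod μ) =
      ∫ x, (F x * Om x) * TK μ K (fun y => F y * Om y) x ∂μ := by
    rw [integral_prod _ i3]
    refine integral_congr_ae (Filter.Eventually.of_forall fun x => ?_)
    simp only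
    unfold TK
    rw [← integral_const_mul]
    refine integral_congr_ae (Filter.Eventually.of_forall fun y => ?_)
    simp only; ring
  have e4 : ∫ z, K z.1 z.2 * (Om z.1 * Om z.2) * (F z.1 - F z.2) ^ 2 ∂(μ.prod μ) =
      (∫ z, K z.1 z.2 * (Om z.1 * Om z.2) * F z.1 ^ 2 ∂(μ.prod μ)) +
      (∫ z, K z.1 z.2 * (Om z.1 * Om z.2) * F z.2 ^ 2 ∂(μ.prod μ)) -
      2 * ∫ z, K z.1 z.2 * (Om z.1 * Om z.2) * (F z.1 * F z.2) ∂(μ.prod μ) := by
    have i4 : Integrable (fun z : X × X => K z.1 z.2 * (Om z.1 * Om z.2) * F z.1 ^ 2 +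
      K z.1 z.2 * (Om z.1 * Om z.2) * F z.2 ^ 2) (μ.prod μ) := i1.add i2
    have i5 : Integrable (fun z : X × X => 2 * (K z.1 z.2 * (Om z.1 * Om z.2) * (F z.1 * F z.2)))
      (μ.prod μ) := i3.const_mul 2
    rw [← integral_const_mul, ← integral_add i1 i2, ← integral_sub i4 i5]
    refine integral_congr_ae (Filter.Eventually.of_forall fun z => ?_)
    simp only; ring
  rw [e4, e1, e2, e3]
  ring

end

end Pool.Agent.R990.TG
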