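import Mathlib
import Pool.Agent.R990.TG.Pf
import Pool.Agent.TH618.YM.SiteRP

/-!
# Reflection positive superpositions
-/

open MeasureTheory Matrix Filter
open scoped Matrix.Norms.Frobenius ContDiff Topology
open Pool.Agent.H906R3.YM hiding Pl
open Pool.Agent.W793.YM Pool.Agent.TH618.YM

namespace Pool.Agent.R990.TG

set_option linter.unusedSectionVars false
set_option linter.unusedVariables false

noncomputable section

/-- continuity of integrals with parameters -/
lemma par_cont {Y Z : Type*} [TopologicalSpace Y] [CompactSpace Y] [SecondCountableTopology Y]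
    [TopologicalSpace Z] [CompactSpace Z] [MeasurableSpace Z] [OpensMeasurableSpace Z]
    [SecondCountableTopology Z] (ν : Measure Z) [IsFiniteMeasure ν] {F : Y × Z → ℝ}
    (hF : Continuous F) : Continuous fun y => ∫ z, F (y, z) ∂ν := by
  obtain ⟨B, hB⟩ := (isCompact_univ.image hF.norm).bddAbove
  refine continuous_of_dominated (F := fun y z => F (y, z)) (bound := fun _ => B)
    (fun y => (hF.comp (Continuous.prodMk_right y)).aestronglyMeasurable)
    (fun y => Filter.Eventually.of_forall fun z => hB ⟨(y, z), trivial, rfl⟩)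
    (integrable_const _)
    (Filter.Eventually.of_forall fun z => hF.comp (Continuous.prodMk_left z))

variable {E : Type} [Fintype E] [DecidableEq E] {G : Type} [Group G] [TopologicalSpace G]
  [IsTopologicalGroup G] [CompactSpace G] [SecondCountableTopology G] [MeasurableSpace G]
  [BorelSpace G] (μ : Measure G) [IsProbabilityMeasure μ] [μ.IsMulLeftInvariant]
  [μ.IsMulRightInvariant] [μ.IsInvInvariant] (T : Refl E) (P : E → Prop)

/-- superpositions of products of a function of one half and its reflection -/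
def RPr (T : Refl E) (P : E → Prop) (g : (E → G) → ℝ) : Prop :=
  ∃ (X : Type) (_ : TopologicalSpace X) (_ : CompactSpace X) (_ : MeasurableSpace X)
    (_ : BorelSpace X) (_ : SecondCountableTopology X) (ρ : Measure X) (_ : IsFiniteMeasure ρ)
    (h : X → (E → G) → ℝ), Continuous (Function.uncurry h) ∧
    (∀ ξ, Dep (fun e => P e ∨ T.R e) (h ξ)) ∧ ∀ U, g U = ∫ ξ, h ξ U * h ξ (T.tU U) ∂ρ

variable {T P}

omit [IsTopologicalGroup G] [SecondCountableTopology G] [BorelSpace G] [μ.IsMulLeftInvariant]
  [μ.IsMulRightInvariant] [μ.IsInvInvariant] in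
lemma RPr_one [SecondCountableTopology G] [BorelSpace G] :
    RPr (G := G) T P fun _ => (1 : ℝ) := by
  refine ⟨Unit, inferInstance, inferInstance, ⊤, ⟨borel_eq_top_of_discrete.symm⟩, inferInstance,
    Measure.dirac (), inferInstance, fun _ _ => 1, continuous_const, fun _ U U' _ => rfl,
    fun U => ?_⟩
  simp

lemma RPr_mul {g g' : (E → G) → ℝ} (hg : RPr T P g) (hg' : RPr T P g') :
    RPr T P fun U => g U * g' U := by
  obtain ⟨X, _, _, _, _, _, ρ, _, h, h1, h2, h3⟩ := hg
  obtain ⟨X', _, _, _, _, _, ρ', _, h', h1', h2', h3'⟩ := hg'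
  refine ⟨X × X', inferInstance, inferInstance, inferInstance, inferInstance, inferInstance,
    ρ.prod ρ', inferInstance, fun ξ U => h ξ.1 U * h' ξ.2 U, ?_, fun ξ U U' hU => ?_, fun U => ?_⟩
  · have c1 : Continuous fun z : (X × X') × (E → G) => h z.1.1 z.2 :=
      h1.comp ((continuous_fst.comp continuous_fst).prodMk continuous_snd)
    have c2 : Continuous fun z : (X × X') × (E → G) => h' z.1.2 z.2 :=
      h1'.comp ((continuous_snd.comp continuous_fst).prodMk continuous_snd)
    exact c1.mul c2
  · simp only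
    rw [h2 ξ.1 U U' hU, h2' ξ.2 U U' hU]
  · show g U * g' U = _
    rw [h3, h3', ← integral_prod_mul]
    refine integral_congr_ae (Filter.Eventually.of_forall fun ξ => ?_)
    simp only; ring

lemma RPr_wt {g A : (E → G) → ℝ} (hg : RPr T P g) (hA : Continuous A)
    (hd : Dep (fun e => P e ∨ T.R e) A) : RPr T P fun U => A U * A (T.tU U) * g U := by
  obtain ⟨X, _, _, _, _, _, ρ, _, h, h1, h2, h3⟩ := hg
  refine ⟨X, inferInstance, inferInstance, inferInstance, inferInstance, inferInstance, ρ,
    inferInstance, fun ξ U => A U * h ξ U, ?_, fun ξ U U' hU => ?_, fun U => ?_⟩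
  · exact (hA.comp continuous_snd).mul h1
  · simp only
    rw [h2 ξ U U' hU, hd U U' hU]
  · show A U * A (T.tU U) * g U = _
    rw [h3, ← integral_const_mul]
    refine integral_congr_ae (Filter.Eventually.of_forall fun ξ => ?_)
    simp only; ring

lemma RPr_symm {g : (E → G) → ℝ} (hg : RPr T P g) (U : E → G) : g (T.tU U) = g U := by
  obtain ⟨X, _, _, _, _, _, ρ, _, h, h1, h2, h3⟩ := hg
  rw [h3, h3, T.tU_tU]
  refine integral_congr_ae (Filter.Eventually.of_forall fun ξ => ?_)
  simp only; ring

lemma RPr_pos (hP : ∀ (U : E → G) e, P e → T.tU U e = U e) (hPth : ∀ e, P (T.th e) ↔ P e)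
    {g : (E → G) → ℝ} (hg : RPr T P g) {f : (E → G) → ℝ} (hf : Continuous f)
    (hd : Dep (fun e => P e ∨ T.R e) f) :
    0 ≤ ∫ U, g U * (f U * f (T.tU U)) ∂(ME μ E) := by
  obtain ⟨X, _, _, _, _, _, ρ, _, h, h1, h2, h3⟩ := hg
  have hc1 : Continuous fun z : (E → G) × X => h z.2 z.1 :=
    h1.comp (continuous_snd.prodMk continuous_fst)
  have hc2 : Continuous fun z : (E → G) × X => h z.2 (T.tU z.1) :=
    h1.comp (continuous_snd.prodMk (T.tU_cont.comp continuous_fst))
  have hf1 : Continuous fun z : (E → G) × X => f z.1 := hf.comp continuous_fst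
  have hf2 : Continuous fun z : (E → G) × X => f (T.tU z.1) :=
    (hf.comp T.tU_cont).comp continuous_fst
  have hc : Continuous (Function.uncurry fun (U : E → G) (ξ : X) =>
      (h ξ U * f U) * (h ξ (T.tU U) * f (T.tU U))) := (hc1.mul hf1).mul (hc2.mul hf2)
  have e1 : ∫ U, g U * (f U * f (T.tU U)) ∂(ME μ E) =
      ∫ U, (∫ ξ, (h ξ U * f U) * (h ξ (T.tU U) * f (T.tU U)) ∂ρ) ∂(ME μ E) := by
    refine integral_congr_ae (Filter.Eventually.of_forall fun U => ?_)
    simp only
    rw [h3, ← integral_mul_const]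
    refine integral_congr_ae (Filter.Eventually.of_forall fun ξ => ?_)
    simp only; ring
  have hi : Integrable (Function.uncurry fun (U : E → G) (ξ : X) =>
      (h ξ U * f U) * (h ξ (T.tU U) * f (T.tU U))) ((ME μ E).prod ρ) :=
    hc.integrable_of_hasCompactSupport (HasCompactSupport.of_compactSpace _)
  rw [e1, integral_integral_swap hi]
  refine integral_nonneg fun ξ => ?_
  have h4 := SB_self μ T P hP hPth (f := fun U => h ξ U * f U)
    ((h1.comp (Continuous.prodMk_right ξ)).mul hf) (fun U U' hU => by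
      show h ξ U * f U = h ξ U' * f U'
      rw [h2 ξ U U' hU, hd U U' hU])
  exact h4

/-- the convolution with a kernel which factorises -/
lemma RPr_T [DecidablePred P] (hP : ∀ (U : E → G) e, P e → T.tU U e = U e)
    (hPth : ∀ e, P (T.th e) ↔ P e)
    {g : (E → G) → ℝ} (hg : RPr T P g) {A : (E → G) → (E → G) → ℝ}
    (hA : Continuous (Function.uncurry A))
    (hd1 : ∀ U', Dep (fun e => P e ∨ T.R e) fun U => A U U')
    (hd2 : ∀ U, Dep (fun e => P e ∨ T.R e) (A U)) :
    RPr T P fun U => ∫ U', (A U U' * A (T.tU U) (T.tU U')) * g U' ∂(ME μ E) := by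
  obtain ⟨X, _, _, _, _, _, ρ, _, h, h1, h2, h3⟩ := hg
  have hmg : Continuous fun z : ({e // P e} → G) × (E → G) => mg P z.1 z.2 := by
    refine continuous_pi fun e => ?_
    unfold mg
    by_cases he : P e
    · simp only [he, dif_pos]; exact (continuous_apply _).comp continuous_fst
    · simp only [he, dif_neg, not_false_eq_true]; exact (continuous_apply e).comp continuous_snd
  have h1m : ∀ U : E → G, ∀ p : {e // P e} → G, T.tU (mg P p U) = mg P p (T.tU U) := by
    intro U p
    funext e
    by_cases h : P e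
    · rw [hP _ _ h]
      unfold mg
      rw [dif_pos h, dif_pos h]
    · have h2 : ¬P (T.th e) := fun h' => h ((hPth e).1 h')
      unfold Refl.tU mg
      rw [dif_neg h, dif_neg h2]
  have hdep : ∀ {f : (E → G) → ℝ}, Dep (fun e => P e ∨ T.R e) f → ∀ p : {e // P e} → G,
      Dep T.R fun U : E → G => f (mg P p U) := by
    intro f hf p U U' h
    refine hf _ _ fun e he => ?_
    unfold mg
    by_cases h' : P e
    · rw [dif_pos h', dif_pos h']
    · rw [dif_neg h', dif_neg h']
      exact h e (he.resolve_left h')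
  refine ⟨X × ({e // P e} → G), inferInstance, inferInstance, inferInstance, inferInstance,
    inferInstance, ρ.prod (Measure.pi fun _ => μ), inferInstance,
    fun ξ U => ∫ U', A U (mg P ξ.2 U') * h ξ.1 (mg P ξ.2 U') ∂(ME μ E), ?_, fun ξ U U' hU => ?_,
    fun U => ?_⟩
  · have c0 : Continuous fun z : ((X × ({e // P e} → G)) × (E → G)) × (E → G) =>
        mg P z.1.1.2 z.2 :=
      hmg.comp ((continuous_snd.comp (continuous_fst.comp continuous_fst)).prodMk continuous_snd)
    have c1 : Continuous fun z : ((X × ({e // P e} → G)) × (E → G)) × (E → G) =>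
        A z.1.2 (mg P z.1.1.2 z.2) := hA.comp ((continuous_snd.comp continuous_fst).prodMk c0)
    have c2 : Continuous fun z : ((X × ({e // P e} → G)) × (E → G)) × (E → G) =>
        h z.1.1.1 (mg P z.1.1.2 z.2) :=
      h1.comp ((continuous_fst.comp (continuous_fst.comp continuous_fst)).prodMk c0)
    exact par_cont (ME μ E) (c1.mul c2)
  · simp only
    refine integral_congr_ae (Filter.Eventually.of_forall fun U'' => ?_)
    simp only
    have h7 : A U (mg P ξ.2 U'') = A U' (mg P ξ.2 U'') := hd1 (mg P ξ.2 U'') U U' hU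
    rw [h7]
  · -- the identity
    have cA : Continuous fun z : (E → G) × X => A U z.1 := hA.comp
      (continuous_const.prodMk continuous_fst)
    have cA' : Continuous fun z : (E → G) × X => A (T.tU U) (T.tU z.1) := hA.comp
      (continuous_const.prodMk (T.tU_cont.comp continuous_fst))
    have ch : Continuous fun z : (E → G) × X => h z.2 z.1 :=
      h1.comp (continuous_snd.prodMk continuous_fst)
    have ch' : Continuous fun z : (E → G) × X => h z.2 (T.tU z.1) :=
      h1.comp (continuous_snd.prodMk (T.tU_cont.comp continuous_fst))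
    have hc : Continuous (Function.uncurry fun (U' : E → G) (ξ : X) =>
        (A U U' * h ξ U') * (A (T.tU U) (T.tU U') * h ξ (T.tU U'))) :=
      (cA.mul ch).mul (cA'.mul ch')
    have hi : Integrable (Function.uncurry fun (U' : E → G) (ξ : X) =>
        (A U U' * h ξ U') * (A (T.tU U) (T.tU U') * h ξ (T.tU U'))) ((ME μ E).prod ρ) :=
      hc.integrable_of_hasCompactSupport (HasCompactSupport.of_compactSpace _)
    have e1 : ∫ U', (A U U' * A (T.tU U) (T.tU U')) * g U' ∂(ME μ E) =
        ∫ U', (∫ ξ, (A U U' * h ξ U') * (A (T.tU U) (T.tU U') * h ξ (T.tU U')) ∂ρ) ∂(ME μ E) := by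
      refine integral_congr_ae (Filter.Eventually.of_forall fun U' => ?_)
      simp only
      rw [h3, ← integral_const_mul]
      refine integral_congr_ae (Filter.Eventually.of_forall fun ξ => ?_)
      simp only; ring
    have e2 : ∀ ξ, ∫ U', (A U U' * h ξ U') * (A (T.tU U) (T.tU U') * h ξ (T.tU U')) ∂(ME μ E) =
        ∫ p, (∫ U', A U (mg P p U') * h ξ (mg P p U') ∂(ME μ E)) *
          (∫ U', A (T.tU U) (mg P p U') * h ξ (mg P p U') ∂(ME μ E))
          ∂(Measure.pi fun _ : {e // P e} => μ) := by
      intro ξ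
      have hc3 : Continuous fun U' : E → G =>
          (A U U' * h ξ U') * (A (T.tU U) (T.tU U') * h ξ (T.tU U')) :=
        hc.comp (Continuous.prodMk_left ξ)
      rw [integral_merge μ P hc3]
      refine integral_congr_ae (Filter.Eventually.of_forall fun p => ?_)
      simp only [h1m]
      have d1 : Dep T.R fun U' : E → G => A U (mg P p U') * h ξ (mg P p U') :=
        hdep (f := fun U' => A U U' * h ξ U') (fun V V' hV => by
          show A U V * h ξ V = A U V' * h ξ V'
          rw [hd2 U V V' hV, h2 ξ V V' hV]) p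
      have d2 : Dep T.R fun U' : E → G => A (T.tU U) (mg P p U') * h ξ (mg P p U') :=
        hdep (f := fun U' => A (T.tU U) U' * h ξ U') (fun V V' hV => by
          show A (T.tU U) V * h ξ V = A (T.tU U) V' * h ξ V'
          rw [hd2 (T.tU U) V V' hV, h2 ξ V V' hV]) p
      have h5 := integral_indep μ T.R d1 (T.dep d2)
      rw [h5, T.integral μ (fun U' : E → G => A (T.tU U) (mg P p U') * h ξ (mg P p U'))]
    show ∫ U', (A U U' * A (T.tU U) (T.tU U')) * g U' ∂(ME μ E) = _
    rw [e1, integral_integral_swap hi]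
    simp only [e2]
    have cm1 : ∀ V : E → G, Continuous fun z : (X × ({e // P e} → G)) × (E → G) =>
        A V (mg P z.1.2 z.2) * h z.1.1 (mg P z.1.2 z.2) := by
      intro V
      have c0 : Continuous fun z : (X × ({e // P e} → G)) × (E → G) => mg P z.1.2 z.2 :=
        hmg.comp ((continuous_snd.comp continuous_fst).prodMk continuous_snd)
      exact (hA.comp (continuous_const.prodMk c0)).mul
        (h1.comp ((continuous_fst.comp continuous_fst).prodMk c0))
    have c9 : Continuous fun z : X × ({e // P e} → G) =>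
        (∫ U', A U (mg P z.2 U') * h z.1 (mg P z.2 U') ∂(ME μ E)) *
          (∫ U', A (T.tU U) (mg P z.2 U') * h z.1 (mg P z.2 U') ∂(ME μ E)) :=
      (par_cont (ME μ E) (cm1 U)).mul (par_cont (ME μ E) (cm1 (T.tU U)))
    have i9 : Integrable (fun z : X × ({e // P e} → G) =>
        (∫ U', A U (mg P z.2 U') * h z.1 (mg P z.2 U') ∂(ME μ E)) *
          (∫ U', A (T.tU U) (mg P z.2 U') * h z.1 (mg P z.2 U') ∂(ME μ E)))
        (ρ.prod (Measure.pi fun _ => μ)) :=
      c9.integrable_of_hasCompactSupport (HasCompactSupport.of_compactSpace _)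
    rw [integral_prod _ i9]

end

end Pool.Agent.R990.TG
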