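import Mathlib
import Pool.Agent.R990.TG.Rp
import Pool.Agent.W793.YM.Rebase

/-!
# The transfer matrix and its vacuum
-/

open MeasureTheory Matrix Filter
open scoped Matrix.Norms.Frobenius ContDiff Topology
open Pool.Agent.H906R3.YM hiding Pl PP
open Pool.Agent.W793.YM Pool.Agent.TH618.YM

namespace Pool.Agent.R990.TG

set_option linter.unusedSectionVars false
set_option linter.unusedVariables false

noncomputable section

variable {G : Type} [Group G] [TopologicalSpace G]
  [IsTopologicalGroup G] [CompactSpace G] [SecondCountableTopology G] [MeasurableSpace G]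
  [BorelSpace G] (μ : Measure G) [IsProbabilityMeasure μ] [μ.IsMulLeftInvariant]
  [μ.IsMulRightInvariant] [μ.IsInvInvariant] {N n : ℕ} (L : LD G N n)

section ker

/-- the electric part of the action -/
def kin {E : Type} [Fintype E] (U U' : E → G) : ℝ := ∑ e, we L (U e * (U' e)⁻¹)

variable {D l : ℕ} [NeZero l]

/-- the kernel of the transfer matrix -/
def KK (β : ℝ) (U U' : Ed D l → G) : ℝ :=
  Real.exp (-(β * (kin L U U' + (act L U + act L U') / 2)))

variable {L}

lemma kin_cont {E : Type} [Fintype E] :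
    Continuous (Function.uncurry (kin L : (E → G) → (E → G) → ℝ)) := by
  unfold kin Function.uncurry
  refine continuous_finsetSum _ fun e _ => we_cont.comp ?_
  exact ((continuous_apply e).comp continuous_fst).mul
    ((continuous_apply e).comp continuous_snd).inv

lemma KK_cont (β : ℝ) : Continuous (Function.uncurry (KK (D := D) (l := l) L β)) := by
  have h1 : Continuous fun z : (Ed D l → G) × (Ed D l → G) => kin L z.1 z.2 := kin_cont
  have h2 : Continuous fun z : (Ed D l → G) × (Ed D l → G) => act L z.1 :=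
    act_cont.comp continuous_fst
  have h3 : Continuous fun z : (Ed D l → G) × (Ed D l → G) => act L z.2 :=
    act_cont.comp continuous_snd
  exact Real.continuous_exp.comp (continuous_const.mul (h1.add ((h2.add h3).div_const 2))).neg

lemma KK_pos (β : ℝ) (U U' : Ed D l → G) : 0 < KK L β U U' := Real.exp_pos _

lemma kin_symm {E : Type} [Fintype E] (U U' : E → G) : kin L U U' = kin L U' U := by
  unfold kin
  refine Finset.sum_congr rfl fun e _ => ?_
  rw [← we_inv, _root_.mul_inv_rev, inv_inv]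

lemma KK_symm (β : ℝ) (U U' : Ed D l → G) : KK L β U U' = KK L β U' U := by
  unfold KK
  rw [kin_symm, add_comm (act L U)]

/-- symmetries of the kernel are symmetries of the iterates -/
lemma it_inv {X : Type} [TopologicalSpace X] [CompactSpace X] [MeasurableSpace X] [BorelSpace X]
    [SecondCountableTopology X] {ν : Measure X} [IsProbabilityMeasure ν] {K : X → X → ℝ}
    (hK : Continuous (Function.uncurry K)) {φ : X → X}
    (hφ : ∀ F : X → ℝ, Continuous F → ∫ x, F (φ x) ∂ν = ∫ x, F x ∂ν)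
    (h : ∀ x y, K (φ x) (φ y) = K x y) (n : ℕ) (x : X) : it ν K n (φ x) = it ν K n x := by
  induction n generalizing x with
  | zero => rfl
  | succ n ih =>
    rw [it_succ]
    unfold TK
    rw [← hφ (fun y => K (φ x) y * it ν K n y) ((K1 hK _).mul (it_cont ν hK n))]
    refine integral_congr_ae (Filter.Eventually.of_forall fun y => ?_)
    simp only
    rw [h, ih]

lemma kin_tr (z : Fin D → ZMod l) (U U' : Ed D l → G) :
    kin L (tr z U) (tr z U') = kin L U U' := by
  unfold kin tr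
  exact Equiv.sum_comp (trE z).symm fun e => we L (U e * (U' e)⁻¹)

lemma KK_tr (β : ℝ) (z : Fin D → ZMod l) (U U' : Ed D l → G) :
    KK L β (tr z U) (tr z U') = KK L β U U' := by
  unfold KK
  rw [kin_tr, act_tr, act_tr]

lemma kin_gt (γ : (Fin D → ZMod l) → G) (U U' : Ed D l → G) :
    kin L (gt γ U) (gt γ U') = kin L U U' := by
  unfold kin
  refine Finset.sum_congr rfl fun e _ => ?_
  have h : gt γ U e * (gt γ U' e)⁻¹ = γ e.1 * (U e * (U' e)⁻¹) * (γ e.1)⁻¹ := by
    unfold gt
    group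
  rw [h, we_conj]

lemma KK_gt (β : ℝ) (γ : (Fin D → ZMod l) → G) (U U' : Ed D l → G) :
    KK L β (gt γ U) (gt γ U') = KK L β U U' := by
  unfold KK
  rw [kin_gt, act_gt γ U, act_gt γ U']

end ker

section refl

variable {D m : ℕ} [NeZero m] {L}

open Classical in
/-- the share of a link -/
def shr (hm : 2 ≤ m) (i0 : Fin D) (e : Ed D (2 * m)) : ℝ :=
  if PP i0 e then 1 / 2 else if (SR hm i0).R e then 1 else 0

lemma shr_add (hm : 2 ≤ m) (i0 : Fin D) (e : Ed D (2 * m)) :
    shr hm i0 e + shr hm i0 ((SR hm i0).th e) = 1 := by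
  classical
  unfold shr
  by_cases hp : PP i0 e
  · rw [if_pos hp, if_pos ((PP_th e).2 hp)]; norm_num
  · rw [if_neg hp, if_neg (fun h => hp ((PP_th e).1 h))]
    obtain ⟨x, k⟩ := e
    by_cases hR : (SR hm i0).R (x, k)
    · rw [if_pos hR, if_neg ((SR hm i0).th_R _ hR)]; norm_num
    · have h2 : (SR hm i0).R ((SR hm i0).th (x, k)) := by
        unfold SR at hR ⊢
        unfold PP at hp
        by_cases hk : k = i0
        · simp only [hk, if_true] at hR ⊢
          rw [rC_same]
          exact (H3_neg _).2 hR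
        · simp only [hk, if_false] at hR ⊢
          rw [rB_same]
          have h0 := val_lt' (x i0)
          have h3 : ¬(x i0).val = 0 := fun h => hp ⟨hk, Or.inl ((eq_zero_iff _).2 h)⟩
          have h4 : ¬(x i0).val = m := fun h => hp ⟨hk, Or.inr ((eq_m_iff hm _).2 h)⟩
          unfold H2 at hR ⊢
          rw [val_neg', if_neg h3]
          omega
      rw [if_neg hR, if_pos h2]; norm_num

/-- the electric part, reflected -/
lemma we_sU (hm : 2 ≤ m) (i0 : Fin D) (U U' : Ed D (2 * m) → G) (e : Ed D (2 * m)) :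
    we L ((SR hm i0).tU U e * ((SR hm i0).tU U' e)⁻¹) =
      we L (U ((SR hm i0).th e) * (U' ((SR hm i0).th e))⁻¹) := by
  unfold Refl.tU
  split_ifs with h
  · have h1 : (U ((SR hm i0).th e))⁻¹ * ((U' ((SR hm i0).th e))⁻¹)⁻¹ =
        (U ((SR hm i0).th e))⁻¹ * ((U' ((SR hm i0).th e)) * (U ((SR hm i0).th e))⁻¹) *
          U ((SR hm i0).th e) := by group
    rw [h1, we_conj', ← we_inv, _root_.mul_inv_rev, inv_inv]
  · rfl

/-- the factor of one half -/
def kH (L : LD G N n) (β : ℝ) (hm : 2 ≤ m) (i0 : Fin D) (U U' : Ed D (2 * m) → G) : ℝ :=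
  Real.exp (-(β * ∑ e, shr hm i0 e * we L (U e * (U' e)⁻¹)))

lemma kH_mul (β : ℝ) (hm : 2 ≤ m) (i0 : Fin D) (U U' : Ed D (2 * m) → G) :
    kH L β hm i0 U U' * kH L β hm i0 ((SR hm i0).tU U) ((SR hm i0).tU U') =
      Real.exp (-(β * kin L U U')) := by
  unfold kH
  rw [← Real.exp_add]
  congr 1
  simp only [we_sU]
  have h1 : ∑ e, shr hm i0 e * we L (U ((SR hm i0).th e) * (U' ((SR hm i0).th e))⁻¹) =
      ∑ e, shr hm i0 ((SR hm i0).th e) * we L (U e * (U' e)⁻¹) := by
    rw [← Equiv.sum_comp (SR hm i0).eq]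
    refine Finset.sum_congr rfl fun e _ => ?_
    have h2 : (SR hm i0).eq e = (SR hm i0).th e := rfl
    rw [h2, (SR hm i0).th_th]
  have h2 : kin L U U' = ∑ e, shr hm i0 e * we L (U e * (U' e)⁻¹) +
      ∑ e, shr hm i0 ((SR hm i0).th e) * we L (U e * (U' e)⁻¹) := by
    unfold kin
    rw [← Finset.sum_add_distrib]
    refine Finset.sum_congr rfl fun e _ => ?_
    rw [← add_mul, shr_add, one_mul]
  rw [h1, h2]; ring

lemma kH_cont (β : ℝ) (hm : 2 ≤ m) (i0 : Fin D) :
    Continuous (Function.uncurry (kH L β hm i0)) := by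
  unfold kH Function.uncurry
  refine Real.continuous_exp.comp (continuous_const.mul
    (continuous_finsetSum _ fun e _ => continuous_const.mul (we_cont.comp ?_))).neg
  exact ((continuous_apply e).comp continuous_fst).mul
    ((continuous_apply e).comp continuous_snd).inv

lemma shr_ne (hm : 2 ≤ m) (i0 : Fin D) {e : Ed D (2 * m)} (h : shr hm i0 e ≠ 0) :
    PP i0 e ∨ (SR hm i0).R e := by
  classical
  unfold shr at h
  by_contra hc
  rw [not_or] at hc
  rw [if_neg hc.1, if_neg hc.2] at h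
  exact h rfl

lemma kH_dep1 (β : ℝ) (hm : 2 ≤ m) (i0 : Fin D) (U' : Ed D (2 * m) → G) :
    Dep (fun e => PP i0 e ∨ (SR hm i0).R e) fun U => kH L β hm i0 U U' := by
  intro U V h
  show kH L β hm i0 U U' = kH L β hm i0 V U'
  unfold kH
  congr 3
  refine Finset.sum_congr rfl fun e _ => ?_
  by_cases h0 : shr hm i0 e = 0
  · rw [h0, zero_mul, zero_mul]
  · rw [h e (shr_ne hm i0 h0)]

lemma kH_dep2 (β : ℝ) (hm : 2 ≤ m) (i0 : Fin D) (U : Ed D (2 * m) → G) :
    Dep (fun e => PP i0 e ∨ (SR hm i0).R e) (kH L β hm i0 U) := by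
  intro U' V h
  unfold kH
  congr 3
  refine Finset.sum_congr rfl fun e _ => ?_
  by_cases h0 : shr hm i0 e = 0
  · rw [h0, zero_mul, zero_mul]
  · rw [h e (shr_ne hm i0 h0)]

/-- the magnetic factor of one half -/
def aH (L : LD G N n) (β : ℝ) (i0 : Fin D) (U : Ed D (2 * m) → G) : ℝ :=
  Real.exp (-(β / 2 * sS L i0 U))

lemma aH_cont (β : ℝ) (i0 : Fin D) : Continuous (aH (m := m) L β i0) :=
  Real.continuous_exp.comp (continuous_const.mul (sS_cont i0)).neg

lemma aH_dep (β : ℝ) (hm : 2 ≤ m) (i0 : Fin D) :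
    Dep (fun e => PP i0 e ∨ (SR hm i0).R e) (aH (m := m) L β i0) :=
  Dep_HQ hm fun U U' h => by
    unfold aH
    rw [sS_dep (L := L) hm U U' h]

lemma aH_mul (β : ℝ) (hm : 2 ≤ m) (i0 : Fin D) (U : Ed D (2 * m) → G) :
    aH L β i0 U * aH L β i0 ((SR hm i0).tU U) = Real.exp (-(β / 2 * act L U)) := by
  unfold aH
  rw [← Real.exp_add, act_sS (i0 := i0) hm U]
  congr 1; ring

theorem it_RPr (β : ℝ) (hm : 2 ≤ m) (i0 : Fin D) (k : ℕ) :
    RPr (SR hm i0) (PP i0) (it (ME μ (Ed D (2 * m))) (KK L β) k) := by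
  classical
  induction k with
  | zero => exact RPr_one
  | succ k ih =>
    have h1 := RPr_wt ih (aH_cont (L := L) β i0) (aH_dep (L := L) β hm i0)
    have h2 := RPr_T μ (PP_fix (hm := hm)) (PP_th (hm := hm)) h1 (kH_cont (L := L) β hm i0)
      (kH_dep1 β hm i0) (kH_dep2 β hm i0)
    have h3 := RPr_wt h2 (aH_cont (L := L) β i0) (aH_dep (L := L) β hm i0)
    have e : it (ME μ (Ed D (2 * m))) (KK L β) (k + 1) = fun U : Ed D (2 * m) → G =>
        aH L β i0 U * aH L β i0 ((SR hm i0).tU U) *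
        ∫ U', (kH L β hm i0 U U' * kH L β hm i0 ((SR hm i0).tU U) ((SR hm i0).tU U')) *
          (aH L β i0 U' * aH L β i0 ((SR hm i0).tU U') *
            it (ME μ (Ed D (2 * m))) (KK L β) k U') ∂(ME μ (Ed D (2 * m))) := by
      rw [it_succ]
      funext U
      unfold TK
      rw [← integral_const_mul]
      refine integral_congr_ae (Filter.Eventually.of_forall fun U' => ?_)
      simp only
      rw [kH_mul, aH_mul, aH_mul]
      have h4 : KK L β U U' = Real.exp (-(β / 2 * act L U)) * (Real.exp (-(β * kin L U U')) *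
          Real.exp (-(β / 2 * act L U'))) := by
        unfold KK
        rw [← Real.exp_add, ← Real.exp_add]
        congr 1; ring
      rw [h4]; ring
    rw [e]
    exact h3

end refl

section state

variable {D m : ℕ} [NeZero m]

variable (D m) in
/-- the symmetries and the reflection positivity of a weight -/
structure St (w : (Ed D (2 * m) → G) → ℝ) : Prop where
  cont : Continuous w
  pos : ∀ U, 0 < w U
  trs : ∀ z U, w (tr z U) = w U
  gts : ∀ γ U, w (gt γ U) = w U
  rfl : ∀ (hm : 2 ≤ m) (i0 : Fin D) (U : Ed D (2 * m) → G), w ((SR hm i0).tU U) = w U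
  rps : ∀ (hm : 2 ≤ m) (i0 : Fin D) (f : (Ed D (2 * m) → G) → ℝ), Continuous f →
    Dep (fun e => PP i0 e ∨ (SR hm i0).R e) f →
    0 ≤ ∫ U, w U * (f U * f ((SR hm i0).tU U)) ∂(ME μ (Ed D (2 * m)))

variable {L} in
/-- **The vacuum.** -/
theorem vac (β : ℝ) : ∃ lam : ℝ, 0 < lam ∧ ∃ Om : (Ed D (2 * m) → G) → ℝ, Continuous Om ∧
    (∀ U, 0 < Om U) ∧ (∀ U, TK (ME μ (Ed D (2 * m))) (KK L β) Om U = lam * Om U) ∧
    (∀ φ : (Ed D (2 * m) → G) → (Ed D (2 * m) → G),
      (∀ F : (Ed D (2 * m) → G) → ℝ, Continuous F →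
        ∫ U, F (φ U) ∂(ME μ (Ed D (2 * m))) = ∫ U, F U ∂(ME μ (Ed D (2 * m)))) →
      (∀ U U', KK L β (φ U) (φ U') = KK L β U U') → ∀ U, Om (φ U) = Om U) ∧
    St μ D m fun U => Om U ^ 2 := by
  obtain ⟨lam, hlam, Om, hOc, hOp, hOT, hlim⟩ := pf (ME μ (Ed D (2 * m)))
    (KK_cont (L := L) (D := D) (l := 2 * m) β) (KK_pos β)
  have hpt : ∀ U, Tendsto (fun n => it (ME μ (Ed D (2 * m))) (KK L β) n U / lam ^ n) atTop
      (𝓝 (Om U)) := fun U => hlim.tendsto_at U
  have hsym : ∀ φ : (Ed D (2 * m) → G) → (Ed D (2 * m) → G),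
      (∀ n U, it (ME μ (Ed D (2 * m))) (KK L β) n (φ U) =
        it (ME μ (Ed D (2 * m))) (KK L β) n U) → ∀ U, Om (φ U) = Om U := by
    intro φ h U
    have h1 := hpt (φ U)
    simp only [h] at h1
    exact tendsto_nhds_unique h1 (hpt U)
  have hsym2 : ∀ φ : (Ed D (2 * m) → G) → (Ed D (2 * m) → G),
      (∀ F : (Ed D (2 * m) → G) → ℝ, Continuous F →
        ∫ U, F (φ U) ∂(ME μ (Ed D (2 * m))) = ∫ U, F U ∂(ME μ (Ed D (2 * m)))) →
      (∀ U U', KK L β (φ U) (φ U') = KK L β U U') → ∀ U, Om (φ U) = Om U := fun φ h1 h2 =>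
    hsym φ fun n U => it_inv (KK_cont β) h1 h2 n U
  refine ⟨lam, hlam, Om, hOc, hOp, hOT, hsym2, ⟨hOc.pow 2, fun U => pow_pos (hOp U) 2,
    fun z U => ?_, fun γ U => ?_, fun hm i0 U => ?_, fun hm i0 f hf hd => ?_⟩⟩
  · rw [hsym2 (tr z) (fun F _ => integral_tr μ z F) (KK_tr β z) U]
  · rw [hsym2 (gt γ) (fun F hF => integral_gtc μ γ hF) (KK_gt β γ) U]
  · rw [hsym _ (fun n U => RPr_symm (it_RPr μ β hm i0 n) U) U]
  · -- the limit
    obtain ⟨g, hg⟩ : ∃ g : ℕ → (Ed D (2 * m) → G) → ℝ,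
        g = fun n U => it (ME μ (Ed D (2 * m))) (KK L β) n U / lam ^ n := ⟨_, rfl⟩
    have hgc : ∀ n, Continuous (g n) := fun n => by
      rw [hg]; exact (it_cont _ (KK_cont β) n).div_const _
    obtain ⟨B, hB⟩ := (isCompact_univ.image hOc.norm).bddAbove
    have hev : ∀ᶠ n in atTop, ∀ U, |g n U| ≤ B + 1 := by
      have h1 := Metric.tendstoUniformly_iff.1 hlim 1 one_pos
      filter_upwards [h1] with n hn U
      have h2 := hn U
      have h3 : ‖Om U‖ ≤ B := hB ⟨U, trivial, rfl⟩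
      rw [Real.dist_eq] at h2
      rw [hg]
      simp only
      have h4 := abs_sub_abs_le_abs_sub (it (ME μ (Ed D (2 * m))) (KK L β) n U / lam ^ n) (Om U)
      rw [abs_sub_comm] at h2
      rw [Real.norm_eq_abs] at h3
      linarith
    obtain ⟨M, hM⟩ : ∃ M, ∀ U, |f U * f ((SR hm i0).tU U)| ≤ M := by
      obtain ⟨M, hM⟩ := (isCompact_univ.image (hf.mul (hf.comp (SR hm i0).tU_cont)).norm).bddAbove
      exact ⟨M, fun U => hM ⟨U, trivial, rfl⟩⟩
    have hB0 : 0 ≤ B := (norm_nonneg _).trans (hB ⟨1, trivial, rfl⟩)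
    have hlim2 : Tendsto (fun n => ∫ U, g n U ^ 2 * (f U * f ((SR hm i0).tU U))
        ∂(ME μ (Ed D (2 * m)))) atTop
        (𝓝 (∫ U, Om U ^ 2 * (f U * f ((SR hm i0).tU U)) ∂(ME μ (Ed D (2 * m))))) := by
      refine tendsto_integral_filter_of_dominated_convergence (fun _ => (B + 1) ^ 2 * M)
        (Filter.Eventually.of_forall fun n => (((hgc n).pow 2).mul
          (hf.mul (hf.comp (SR hm i0).tU_cont))).aestronglyMeasurable) ?_ (integrable_const _)
        (Filter.Eventually.of_forall fun U => ?_)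
      · filter_upwards [hev] with n hn
        refine Filter.Eventually.of_forall fun U => ?_
        rw [norm_mul, norm_pow, Real.norm_eq_abs, Real.norm_eq_abs]
        exact mul_le_mul (pow_le_pow_left₀ (abs_nonneg _) (hn U) 2) (hM U) (abs_nonneg _)
          (by positivity)
      · rw [hg]
        exact ((hpt U).pow 2).mul_const _
    refine ge_of_tendsto' hlim2 fun n => ?_
    have h5 := RPr_pos μ (PP_fix (hm := hm)) (PP_th (hm := hm))
      (RPr_mul (it_RPr μ (L := L) β hm i0 n) (it_RPr μ (L := L) β hm i0 n)) hf hd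
    have h6 : ∫ U, g n U ^ 2 * (f U * f ((SR hm i0).tU U)) ∂(ME μ (Ed D (2 * m))) =
        ((lam ^ n) ^ 2)⁻¹ * ∫ U, (it (ME μ (Ed D (2 * m))) (KK L β) n U *
          it (ME μ (Ed D (2 * m))) (KK L β) n U) * (f U * f ((SR hm i0).tU U))
          ∂(ME μ (Ed D (2 * m))) := by
      rw [← integral_const_mul]
      refine integral_congr_ae (Filter.Eventually.of_forall fun U => ?_)
      rw [hg]
      simp only
      rw [div_pow]
      ring
    rw [h6]
    exact mul_nonneg (by positivity) h5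

end state

end

end Pool.Agent.R990.TG
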