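import Mathlib
import Pool.Agent.R990.TG.Ker
import Pool.Agent.Y14.Fam
import Pool.Agent.Y14.PlaqB
import Pool.Agent.Y14.Word

/-!
# Two copies
-/

open MeasureTheory Matrix Filter
open scoped Matrix.Norms.Frobenius ContDiff Topology
open Pool.Agent.H906R3.YM hiding Pl PP
open Pool.Agent.W793.YM Pool.Agent.TH618.YM Pool.Agent.Y14

namespace Pool.Agent.R990.TG

set_option linter.unusedSectionVars false
set_option linter.unusedVariables false

noncomputable section

variable {G : Type} [Group G] [TopologicalSpace G]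
  [IsTopologicalGroup G] [CompactSpace G] [SecondCountableTopology G] [MeasurableSpace G]
  [BorelSpace G] (μ : Measure G) [IsProbabilityMeasure μ] [μ.IsMulLeftInvariant]
  [μ.IsMulRightInvariant] [μ.IsInvInvariant] {N n : ℕ} {L : LD G N n}
  {E : Type} [Fintype E] [DecidableEq E]

/-- two copies -/
def TW (E : Type) [Fintype E] [DecidableEq E] : Refl (E ⊕ E) where
  R e := e.isLeft = true
  th := Sum.swap
  iv _ := False
  th_th e := Sum.swap_swap e
  th_R e h := by
    cases e with
    | inl a => simp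
    | inr a => simp at h
  iv_th e := Iff.rfl
  J := Finset.univ.image Sum.inl
  J_R e he := by
    obtain ⟨a, -, rfl⟩ := Finset.mem_image.1 he
    rfl
  J_iv e he h := h

lemma TW_tU (u v : E → G) : (TW E).tU (Sum.elim u v) = Sum.elim v u := by
  classical
  funext e
  unfold Refl.tU TW
  simp only [if_false]
  cases e <;> rfl

lemma TW_ker (u v : E → G) : (TW E).ker L (Sum.elim u v) =
    ∑ e, (trace (L.rho (u e) * (L.rho (v e))ᴴ)).re := by
  unfold Refl.ker
  have h : (TW E).J = Finset.univ.image Sum.inl := rfl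
  rw [h, Finset.sum_image fun a _ b _ hab => Sum.inl_injective hab]
  rfl

lemma kin_ker (u v : E → G) : kin L u v = N * (Fintype.card E : ℝ) -
    ∑ e, (trace (L.rho (u e) * (L.rho (v e))ᴴ)).re := by
  unfold kin
  have h : ∀ e, we L (u e * (v e)⁻¹) = N - (trace (L.rho (u e) * (L.rho (v e))ᴴ)).re := by
    intro e
    rw [we_tr, map_mul, L.rho_inv]
  simp only [h]
  rw [Finset.sum_sub_distrib, Finset.sum_const, Finset.card_univ, nsmul_eq_mul]
  ring

lemma two_int {F : (E ⊕ E → G) → ℝ} : ∫ U, F U ∂(ME μ (E ⊕ E)) =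
    ∫ z, F (Sum.elim z.1 z.2) ∂((ME μ E).prod (ME μ E)) := by
  have h := measurePreserving_sumPiEquivProdPi_symm (ι := E) (ι' := E)
    (X := fun _ : E ⊕ E => G) (fun _ => μ)
  have h2 := h.integral_comp (MeasurableEquiv.sumPiEquivProdPi fun _ : E ⊕ E => G).symm.measurableEmbedding F
  rw [← h2]
  refine integral_congr_ae (Filter.Eventually.of_forall fun z => ?_)
  simp only
  congr 1

lemma elim_cont : Continuous fun z : (E → G) × (E → G) => (Sum.elim z.1 z.2 : E ⊕ E → G) := by
  refine continuous_pi fun e => ?_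
  cases e with
  | inl a => exact (continuous_apply a).comp continuous_fst
  | inr a => exact (continuous_apply a).comp continuous_snd

lemma inl_cont : Continuous fun U : E ⊕ E → G => (U ∘ Sum.inl : E → G) :=
  continuous_pi fun e => continuous_apply _

lemma two_Ew {β : ℝ} {w0 : (E → G) → ℝ} {F : (E ⊕ E → G) → ℝ} :
    (TW E).Ew μ L β (fun U => w0 (U ∘ Sum.inl)) F =
      Real.exp (β * (N * (Fintype.card E : ℝ))) * ∫ z, F (Sum.elim z.1 z.2) *
        (w0 z.1 * w0 z.2 * Real.exp (-(β * kin L z.1 z.2))) ∂((ME μ E).prod (ME μ E)) := by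
  unfold Refl.Ew
  rw [two_int μ, ← integral_const_mul]
  refine integral_congr_ae (Filter.Eventually.of_forall fun z => ?_)
  simp only
  rw [TW_tU, TW_ker, Sum.elim_comp_inl, Sum.elim_comp_inl, kin_ker]
  have h : ∀ a b : ℝ, Real.exp (β * b) = Real.exp (β * a) * Real.exp (-(β * (a - b))) := by
    intro a b
    rw [← Real.exp_add]
    congr 1; ring
  rw [h (N * (Fintype.card E : ℝ))]
  ring

/-- the coordinates of the first copy -/
def c2 (L : LD G N n) (z : (E → G) × (E → G)) : Ix (TW E) N → ℝ := cv L (TW E) (Sum.elim z.1 z.2)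

lemma c2_swap (z : (E → G) × (E → G)) : cv L (TW E) ((TW E).tU (Sum.elim z.1 z.2)) = c2 L z.swap := by
  rw [TW_tU]; rfl

lemma mem_J (e : E) : (Sum.inl e : E ⊕ E) ∈ (TW E).J :=
  Finset.mem_image_of_mem _ (Finset.mem_univ e)

lemma mx_c2 (z : (E → G) × (E → G)) (e : E) :
    mx (TW E).J (c2 L z) (Sum.inl e) = L.rho (z.1 e) :=
  mx_cv (TW E) _ (mem_J e)

/-- Gaussian domination, two copies, real observables -/
theorem two_dom {β : ℝ} (hβ : 0 < β) {P : (Ix (TW E) N → ℝ) → ℝ} (hP : MA P)
    {w0 : (E → G) → ℝ} (hw : Continuous w0) (hw0 : ∀ U, 0 ≤ w0 U) :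
    ∫ z, (P (c2 L z) - P (c2 L z.swap)) ^ 2 *
        (w0 z.1 * w0 z.2 * Real.exp (-(β * kin L z.1 z.2))) ∂((ME μ E).prod (ME μ E)) ≤
      ∫ z, av (fun s => (P (c2 L z + sg (1 / Real.sqrt β) s) - P (c2 L z)) ^ 2) *
        (w0 z.1 * w0 z.2 * Real.exp (-(β * kin L z.1 z.2))) ∂((ME μ E).prod (ME μ E)) := by
  have hβ2 : (1 / Real.sqrt β) ^ 2 = 1 / β := by
    rw [div_pow, one_pow, Real.sq_sqrt hβ.le]
  have h := noise_dom μ (L := L) (TW E) hβ hβ2 hP (w := fun U => w0 (U ∘ Sum.inl))
    (hw.comp inl_cont) (fun U U' hU => by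
      show w0 (U ∘ Sum.inl) = w0 (U' ∘ Sum.inl)
      congr 1
      funext e
      exact hU (Sum.inl e) rfl) (fun U => hw0 _)
  rw [two_Ew, two_Ew] at h
  have h2 := le_of_mul_le_mul_left h (Real.exp_pos _)
  simp only [c2_swap] at h2
  exact h2

/-- Gaussian domination, two copies, matrix valued observables -/
theorem two_domM {β : ℝ} (hβ : 0 < β) {Q : (Ix (TW E) N → ℝ) → Mat N} (hQ : MM Q)
    {w0 : (E → G) → ℝ} (hw : Continuous w0) (hw0 : ∀ U, 0 ≤ w0 U) :
    ∫ z, ‖Q (c2 L z) - Q (c2 L z.swap)‖ ^ 2 *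
        (w0 z.1 * w0 z.2 * Real.exp (-(β * kin L z.1 z.2))) ∂((ME μ E).prod (ME μ E)) ≤
      ∫ z, av (fun s => ‖Q (c2 L z + sg (1 / Real.sqrt β) s) - Q (c2 L z)‖ ^ 2) *
        (w0 z.1 * w0 z.2 * Real.exp (-(β * kin L z.1 z.2))) ∂((ME μ E).prod (ME μ E)) := by
  have hβ2 : (1 / Real.sqrt β) ^ 2 = 1 / β := by
    rw [div_pow, one_pow, Real.sq_sqrt hβ.le]
  have h := noise_domM μ (L := L) (TW E) hβ hβ2 hQ (w := fun U => w0 (U ∘ Sum.inl))
    (hw.comp inl_cont) (fun U U' hU => by
      show w0 (U ∘ Sum.inl) = w0 (U' ∘ Sum.inl)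
      congr 1
      funext e
      exact hU (Sum.inl e) rfl) (fun U => hw0 _)
  rw [two_Ew, two_Ew] at h
  have h2 := le_of_mul_le_mul_left h (Real.exp_pos _)
  simp only [c2_swap] at h2
  exact h2

/-! ### the one link integral -/

variable (L) in
/-- the one link integral -/
def zz (b : ℝ) : ℝ := ∫ g, Real.exp (-(b * we L g)) ∂μ

lemma gcont_int {f : G → ℝ} (hf : Continuous f) : Integrable f μ :=
  hf.integrable_of_hasCompactSupport (HasCompactSupport.of_compactSpace _)

lemma zz_pos (b : ℝ) : 0 < zz μ L b := by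
  unfold zz
  exact integral_exp_pos (gcont_int μ (Real.continuous_exp.comp (continuous_const.mul we_cont).neg))

lemma zz_anti {b b' : ℝ} (h : b ≤ b') : zz μ L b' ≤ zz μ L b := by
  unfold zz
  refine integral_mono (gcont_int μ (Real.continuous_exp.comp (continuous_const.mul we_cont).neg))
    (gcont_int μ (Real.continuous_exp.comp (continuous_const.mul we_cont).neg)) fun g => ?_
  refine Real.exp_le_exp.2 (neg_le_neg ?_)
  exact mul_le_mul_of_nonneg_right h (we_nonneg g)

lemma unit_int (f : G → ℝ) : ∫ U : Unit → G, f (U ()) ∂(ME μ Unit) = ∫ g, f g ∂μ := by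
  have h := integral_fintype_prod_eq_pow (ι := Unit) (μ := μ) f
  simp only [Fintype.univ_unit, Finset.prod_singleton, Fintype.card_unit, pow_one] at h
  exact h

lemma pair_int {f : G → ℝ} (hf : Continuous f) :
    ∫ z, f (z.1 () * (z.2 ())⁻¹) ∂((ME μ Unit).prod (ME μ Unit)) = ∫ g, f g ∂μ := by
  have hc : Continuous fun z : (Unit → G) × (Unit → G) => f (z.1 () * (z.2 ())⁻¹) :=
    hf.comp (((continuous_apply ()).comp continuous_fst).mul
      ((continuous_apply ()).comp continuous_snd).inv)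
  have hi : Integrable (fun z : (Unit → G) × (Unit → G) => f (z.1 () * (z.2 ())⁻¹))
      ((ME μ Unit).prod (ME μ Unit)) :=
    hc.integrable_of_hasCompactSupport (HasCompactSupport.of_compactSpace _)
  rw [integral_prod_symm _ hi]
  have h : ∀ v : Unit → G, ∫ u : Unit → G, f (u () * (v ())⁻¹) ∂(ME μ Unit) = ∫ g, f g ∂μ := by
    intro v
    rw [unit_int μ fun g => f (g * (v ())⁻¹)]
    exact integral_mul_right_eq_self f _
  simp only [h]
  simp

/-- the mean square of the one link distribution -/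
theorem zz_bound {b : ℝ} (hb : 0 < b) :
    ∫ g, we L g * Real.exp (-(b * we L g)) ∂μ ≤ N ^ 2 / b * zz μ L b := by
  have h := two_domM μ (L := L) (E := Unit) hb (mx_MM (N := N) (J := (TW Unit).J) (Sum.inl ()))
    (w0 := fun _ => 1) continuous_const (fun _ => zero_le_one)
  simp only [mx_add, add_sub_cancel_left] at h
  have hβ2 : (1 / Real.sqrt b) ^ 2 = 1 / b := by
    rw [div_pow, one_pow, Real.sq_sqrt hb.le]
  have h8 : av (fun s : IJ (TW Unit).J N → Bool =>
      ‖mx (TW Unit).J (sg (1 / Real.sqrt b) s) (Sum.inl ())‖ ^ 2) = 2 * N ^ 2 / b := by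
    have h9 := av_noise_sq (N := N) (J := (TW Unit).J) (1 / Real.sqrt b) (mem_J ())
      (Z := fun _ => 1) (fun s s' h => rfl)
    simp only [mul_one, norm_one_sq, av_const] at h9
    rw [h9, hβ2]; ring
  simp only [h8] at h
  have hk : ∀ z : (Unit → G) × (Unit → G), kin L z.1 z.2 = we L (z.1 () * (z.2 ())⁻¹) := by
    intro z
    unfold kin
    simp
  have e1 : ∀ z : (Unit → G) × (Unit → G), ‖mx (TW Unit).J (c2 L z) (Sum.inl ()) -
      mx (TW Unit).J (c2 L z.swap) (Sum.inl ())‖ ^ 2 = 2 * we L (z.1 () * (z.2 ())⁻¹) := by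
    intro z
    rw [mx_c2, mx_c2, ← dv_sq]
    congr 1
    have := dd_dv (L := L) (z.1 ()) (z.2 ())
    unfold dd at this
    exact this
  simp only [e1, hk, mul_one, one_mul] at h
  have c1 : Continuous fun g : G => 2 * we L g * Real.exp (-(b * we L g)) :=
    (continuous_const.mul we_cont).mul (Real.continuous_exp.comp (continuous_const.mul we_cont).neg)
  have c2' : Continuous fun g : G => 2 * (N : ℝ) ^ 2 / b * Real.exp (-(b * we L g)) :=
    continuous_const.mul (Real.continuous_exp.comp (continuous_const.mul we_cont).neg)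
  rw [pair_int μ c1, pair_int μ c2'] at h
  have e2 : ∫ g, 2 * we L g * Real.exp (-(b * we L g)) ∂μ =
      2 * ∫ g, we L g * Real.exp (-(b * we L g)) ∂μ := by
    rw [← integral_const_mul]
    refine integral_congr_ae (Filter.Eventually.of_forall fun g => ?_)
    simp only; ring
  rw [e2, integral_const_mul] at h
  unfold zz
  have e3 : 2 * (N : ℝ) ^ 2 / b = 2 * (N ^ 2 / b) := by ring
  rw [e3] at h
  linarith

lemma we_le (g : G) : we L g ≤ 2 * N := by
  have h1 := dv_sq (L := L) g
  have h2 : dv L g ≤ ‖L.rho g‖ + ‖(1 : Mat N)‖ := norm_sub_le _ _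
  have h3 : ‖L.rho g‖ = ‖(1 : Mat N)‖ := by
    have := norm_rmul (L := L) g (1 : Mat N)
    rwa [one_mul] at this
  have h4 : ‖(1 : Mat N)‖ ^ 2 = N := norm_one_sq
  have h5 := dv_nonneg (L := L) g
  have h6 := norm_nonneg (1 : Mat N)
  rw [h3] at h2
  nlinarith

lemma zz_deriv (b : ℝ) :
    HasDerivAt (zz μ L) (∫ g, -(we L g) * Real.exp (-(b * we L g)) ∂μ) b := by
  unfold zz
  obtain ⟨B, hB⟩ : ∃ B, B = 2 * (N : ℝ) * Real.exp ((|b| + 1) * (2 * N)) := ⟨_, rfl⟩
  refine (hasDerivAt_integral_of_dominated_loc_of_deriv_le (μ := μ) (s := Metric.ball b 1)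
    (F := fun b g => Real.exp (-(b * we L g)))
    (F' := fun b g => -(we L g) * Real.exp (-(b * we L g))) (bound := fun _ => B)
    (Metric.ball_mem_nhds b one_pos)
    (Filter.Eventually.of_forall fun x => (Real.continuous_exp.comp
      (continuous_const.mul we_cont).neg).aestronglyMeasurable)
    (gcont_int μ (Real.continuous_exp.comp (continuous_const.mul we_cont).neg))
    ((we_cont.neg.mul (Real.continuous_exp.comp
      (continuous_const.mul we_cont).neg)).aestronglyMeasurable) ?_ (integrable_const _) ?_).2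
  · refine Filter.Eventually.of_forall fun g x hx => ?_
    have h1 := we_le (L := L) g
    have h2 := we_nonneg (L := L) g
    have hx' : |x| ≤ |b| + 1 := by
      have h3 : |x - b| < 1 := by rwa [Metric.mem_ball, Real.dist_eq] at hx
      have h4 := abs_sub_abs_le_abs_sub x b
      linarith
    rw [norm_mul, norm_neg, Real.norm_eq_abs, Real.norm_eq_abs, abs_of_nonneg h2,
      abs_of_pos (Real.exp_pos _), hB]
    refine mul_le_mul h1 (Real.exp_le_exp.2 ?_) (Real.exp_pos _).le (by positivity)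
    have h5 := neg_abs_le x
    have h6 : -(x * we L g) ≤ |x| * we L g := by nlinarith
    exact h6.trans (mul_le_mul hx' h1 h2 (by positivity))
  · refine Filter.Eventually.of_forall fun g x _ => ?_
    have h1 : HasDerivAt (fun x : ℝ => -(x * we L g)) (-(we L g)) x := by
      simpa using ((hasDerivAt_id' x).mul_const (we L g)).fun_neg
    have h2 := h1.exp
    rw [mul_comm] at h2
    exact h2

/-- comparison of the one link integrals -/
theorem zz_doubling {b b' : ℝ} (hb : 0 < b) (h : b ≤ b') :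
    b ^ (N ^ 2) * zz μ L b ≤ b' ^ (N ^ 2) * zz μ L b' := by
  have hder : ∀ x, 0 < x → HasDerivAt (fun b => b ^ (N ^ 2) * zz μ L b)
      (((N ^ 2 : ℕ) : ℝ) * x ^ (N ^ 2 - 1) * zz μ L x +
        x ^ (N ^ 2) * ∫ g, -(we L g) * Real.exp (-(x * we L g)) ∂μ) x := fun x hx =>
    (hasDerivAt_pow _ x).mul (zz_deriv μ x)
  have hmono : MonotoneOn (fun b => b ^ (N ^ 2) * zz μ L b) (Set.Ici b) := by
    refine monotoneOn_of_deriv_nonneg (convex_Ici b) ?_ ?_ ?_
    · intro x hx
      exact (hder x (hb.trans_le hx)).continuousAt.continuousWithinAt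
    · intro x hx
      rw [interior_Ici] at hx
      exact (hder x (hb.trans hx)).differentiableAt.differentiableWithinAt
    · intro x hx
      rw [interior_Ici] at hx
      have hx0 : 0 < x := hb.trans hx
      rw [(hder x hx0).deriv]
      have h1 := zz_bound μ (L := L) hx0
      have e1 : ∫ g, -(we L g) * Real.exp (-(x * we L g)) ∂μ =
          -∫ g, we L g * Real.exp (-(x * we L g)) ∂μ := by
        rw [← integral_neg]
        refine integral_congr_ae (Filter.Eventually.of_forall fun g => ?_)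
        simp only; ring
      rw [e1]
      rcases Nat.eq_zero_or_pos (N ^ 2) with h0 | h0
      · have hN : (N : ℝ) = 0 := by
          have := pow_eq_zero_iff two_ne_zero |>.1 h0
          exact_mod_cast this
        rw [hN] at h1
        rw [h0]
        simp only [Nat.cast_zero, zero_mul, pow_zero, one_mul, zero_add]
        have : (0 : ℝ) ^ 2 / x * zz μ L x = 0 := by ring
        rw [this] at h1
        linarith
      · have h2 : x ^ (N ^ 2) = x ^ (N ^ 2 - 1) * x := by
          rw [← pow_succ]; congr 1; omega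
        have h3 : 0 ≤ x ^ (N ^ 2 - 1) := by positivity
        rw [h2]
        push_cast
        have h4 : x * ∫ g, we L g * Real.exp (-(x * we L g)) ∂μ ≤ N ^ 2 * zz μ L x := by
          calc _ ≤ x * (N ^ 2 / x * zz μ L x) := mul_le_mul_of_nonneg_left h1 hx0.le
            _ = _ := by field_simp
        have h5 := mul_le_mul_of_nonneg_left h4 h3
        nlinarith
  exact hmono (Set.mem_Ici.2 le_rfl) (Set.mem_Ici.2 h) h

end

end Pool.Agent.R990.TG
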