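import Mathlib
import Pool.Agent.R990.TG.Num

/-!
# The noise of a family of disjoint lines
-/

open MeasureTheory Matrix Filter
open scoped Matrix.Norms.Frobenius ContDiff Topology
open Pool.Agent.H906R3.YM hiding Pl PP
open Pool.Agent.W793.YM Pool.Agent.TH618.YM Pool.Agent.Y14

namespace Pool.Agent.R990.TG

set_option linter.unusedSectionVars false
set_option linter.unusedVariables false

noncomputable section

section mat

variable {N : ℕ}

lemma tr_EE (κ : Fin N × Fin N × Bool) (Z : Mat N) :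
    (trace (EE κ * Z)).re = if κ.2.2 then (Z κ.2.1 κ.1).re else -(Z κ.2.1 κ.1).im := by
  unfold EE
  rw [Matrix.trace_single_mul]
  split_ifs <;> simp

lemma sum_tr_EE (Z : Mat N) : ∑ κ, (trace (EE κ * Z)).re ^ 2 = ‖Z‖ ^ 2 := by
  simp only [tr_EE]
  rw [Fintype.sum_prod_type]
  simp only [Fintype.sum_prod_type, Fintype.sum_bool, if_true, Bool.false_eq_true, if_false]
  rw [norm_sq_entries, Finset.sum_comm]
  refine Finset.sum_congr rfl fun i _ => Finset.sum_congr rfl fun j _ => ?_
  rw [Complex.sq_norm, Complex.normSq_apply]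
  ring

end mat

section path

variable {N : ℕ} {E : Type*} [DecidableEq E] {J : Finset E} [Fintype E]

lemma av_tr_sq (δ : ℝ) {e : E} (he : e ∈ J) {Z : (IJ J N → Bool) → Mat N} (hZ : Ind e Z) :
    av (fun s => (trace (mx J (sg δ s) e * Z s)).re ^ 2) = δ ^ 2 * av (fun s => ‖Z s‖ ^ 2) := by
  have h1 : ∀ s, (trace (mx J (sg δ s) e * Z s)).re ^ 2 = ∑ κ, ∑ κ', sg δ s (⟨e, he⟩, κ) *
      sg δ s (⟨e, he⟩, κ') * ((trace (EE κ * Z s)).re * (trace (EE κ' * Z s)).re) := by
    intro s
    have e1 : (trace (mx J (sg δ s) e * Z s)).re =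
        ∑ κ, sg δ s (⟨e, he⟩, κ) * (trace (EE κ * Z s)).re := by
      unfold mx
      rw [dif_pos he, Finset.sum_mul, trace_sum, Complex.re_sum]
      refine Finset.sum_congr rfl fun κ _ => ?_
      rw [smul_mul_assoc, trace_smul, Complex.real_smul, Complex.re_ofReal_mul]
    rw [sq, e1, Finset.sum_mul_sum]
    refine Finset.sum_congr rfl fun κ _ => Finset.sum_congr rfl fun κ' _ => ?_
    ring
  simp only [h1]
  rw [av_sum]
  have h2 : ∀ κ, av (fun s => ∑ κ', sg δ s (⟨e, he⟩, κ) *
      sg δ s (⟨e, he⟩, κ') * ((trace (EE κ * Z s)).re * (trace (EE κ' * Z s)).re)) =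
      δ ^ 2 * av (fun s => (trace (EE κ * Z s)).re ^ 2) := by
    intro κ
    rw [av_sum, Finset.sum_eq_single κ]
    · rw [← av_smul]
      congr 1
      funext s
      have : sg δ s (⟨e, he⟩, κ) * sg δ s (⟨e, he⟩, κ) = δ ^ 2 := by
        unfold sg; split_ifs <;> ring
      rw [this]; ring
    · intro κ' _ hκ
      refine Y14.av_odd (S := fun i : IJ J N => i = (⟨e, he⟩, κ)) fun s => ?_
      have e1 : Z (Y14.fl (fun i : IJ J N => i = (⟨e, he⟩, κ)) s) = Z s := by
        refine hZ _ _ fun i hi => ?_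
        unfold Y14.fl
        rw [if_neg]
        rintro rfl
        exact hi rfl
      rw [e1, sg_fl, sg_fl, if_pos rfl, if_neg (fun h => hκ (Prod.ext_iff.1 h).2)]
      ring
    · simp
  simp only [h2]
  rw [← Finset.mul_sum, ← av_sum]
  simp only [sum_tr_EE]

variable {x : IJ J N → ℝ} {δ : ℝ}

/-- the noise of one line -/
theorem line_noise {l : List E} (hl : l.Nodup) (hu : Un J x l) {A : Mat N} (hA : Aᴴ * A = 1) :
    av (fun s => ((trace (A * pm J (x + sg δ s) l)).re - (trace (A * pm J x l)).re) ^ 2) ≤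
      δ ^ 2 * l.length * (N * (1 + 2 * N * δ ^ 2) ^ l.length) := by
  induction l generalizing A with
  | nil => simp [pm_nil, av_const]
  | cons e l ih =>
    have hl' := List.nodup_cons.1 hl
    have hu' : Un J x l := fun e' he' => hu e' (List.mem_cons_of_mem _ he')
    obtain ⟨he, hX⟩ := hu e List.mem_cons_self
    have h1 : ∀ s, ((trace (A * pm J (x + sg δ s) (e :: l))).re -
        (trace (A * pm J x (e :: l))).re) ^ 2 =
        (((trace (A * mx J x e * pm J (x + sg δ s) l)).re -
          (trace (A * mx J x e * pm J x l)).re) ^ 2 +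
        2 * (((trace (A * mx J x e * pm J (x + sg δ s) l)).re -
          (trace (A * mx J x e * pm J x l)).re) *
          (trace (mx J (sg δ s) e * (pm J (x + sg δ s) l * A))).re)) +
          (trace (mx J (sg δ s) e * (pm J (x + sg δ s) l * A))).re ^ 2 := by
      intro s
      have e1 : (trace (A * pm J (x + sg δ s) (e :: l))).re =
          (trace (A * mx J x e * pm J (x + sg δ s) l)).re +
            (trace (mx J (sg δ s) e * (pm J (x + sg δ s) l * A))).re := by
        rw [pm_cons, mx_add, add_mul, mul_add, trace_add, Complex.add_re, ← mul_assoc A,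
          trace_mul_comm A (mx J (sg δ s) e * pm J (x + sg δ s) l),
          mul_assoc (mx J (sg δ s) e)]
      rw [e1, pm_cons, ← mul_assoc A]
      ring
    have hcr : av (fun s => 2 * (((trace (A * mx J x e * pm J (x + sg δ s) l)).re -
          (trace (A * mx J x e * pm J x l)).re) *
          (trace (mx J (sg δ s) e * (pm J (x + sg δ s) l * A))).re)) = 0 := by
      refine av_odd (S := fun i : IJ J N => i.1.1 = e) fun s => ?_
      have h2 := mx_sg_fl (N := N) (J := J) δ (fun e' => e' = e) s e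
      rw [if_pos rfl] at h2
      have h3 : pm J (x + sg δ (Y14.fl (fun i : IJ J N => i.1.1 = e) s)) l =
          pm J (x + sg δ s) l := (ind_pm (x := x) (δ := δ) hl'.1).fl s
      rw [h3, h2, neg_mul, trace_neg, Complex.neg_re]
      ring
    have hA' : (A * mx J x e)ᴴ * (A * mx J x e) = 1 := unit_mul hA hX
    have hi : Ind e fun s : IJ J N → Bool => pm J (x + sg δ s) l * A := fun s s' h => by
      have e1 := ind_pm (x := x) (δ := δ) hl'.1 s s' h
      simp only at e1 ⊢
      rw [e1]
    simp only [h1]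
    rw [av_add, av_add, hcr, av_tr_sq δ he hi]
    simp only [norm_mul_unit hA]
    rw [noise_a hl'.2 hu']
    have h4 := ih hl'.2 hu' hA'
    have h5 : (1 + 2 * N * δ ^ 2) ^ l.length ≤ (1 + 2 * N * δ ^ 2) ^ (l.length + 1) :=
      pow_le_pow_right₀ (by have : (0 : ℝ) ≤ 2 * N * δ ^ 2 := by positivity
                            linarith) (Nat.le_succ _)
    have h6 : (0 : ℝ) ≤ δ ^ 2 * N := mul_nonneg (sq_nonneg _) (Nat.cast_nonneg _)
    have h7 := mul_le_mul_of_nonneg_left h5 h6
    have h8 := mul_le_mul_of_nonneg_left h7 (Nat.cast_nonneg (α := ℝ) l.length)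
    rw [List.length_cons]
    push_cast
    linarith

/-! ### several disjoint lines -/

lemma trp_MA {l : List E} (hl : l.Nodup) (A : Mat N) :
    MA fun w : IJ J N → ℝ => (trace (A * pm J w l)).re := by
  intro w i t
  have h := pm_MM (N := N) (J := J) hl w i t
  simp only at h
  simp only
  rw [h, mul_add, trace_add, Complex.add_re, mul_smul_comm, mul_smul_comm, trace_smul, trace_smul,
    Complex.real_smul, Complex.real_smul, Complex.re_ofReal_mul, Complex.re_ofReal_mul]

lemma MA.sum {ι : Type*} [Fintype ι] [DecidableEq ι] {K : Type*} (S : Finset K)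
    {P : K → (ι → ℝ) → ℝ} (h : ∀ k, MA (P k)) : MA fun w => ∑ k ∈ S, P k w := by
  intro w i t
  simp only
  rw [Finset.mul_sum, Finset.mul_sum, ← Finset.sum_add_distrib]
  exact Finset.sum_congr rfl fun k _ => h k w i t

lemma MA.mul_disj {ι : Type*} [Fintype ι] [DecidableEq ι] {P Q : (ι → ℝ) → ℝ} (hP : MA P)
    (hQ : MA Q) {S : ι → Prop} (dP : ∀ w i t, ¬S i → P (Function.update w i t) = P w)
    (dQ : ∀ w i t, S i → Q (Function.update w i t) = Q w) (a b : ℝ) :
    MA fun w => (P w - a) * (Q w - b) := by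
  intro w i t
  simp only
  by_cases h : S i
  · rw [dQ w i t h, dQ w i 0 h, dQ w i 1 h, hP w i t]
    ring
  · rw [dP w i t h, dP w i 0 h, dP w i 1 h, hQ w i t]
    ring

lemma pm_upd {l : List E} {w : IJ J N → ℝ} {i : IJ J N} (h : i.1.1 ∉ l) (t : ℝ) :
    pm J (Function.update w i t) l = pm J w l := by
  refine pm_congr fun j hj => ?_
  have : j ≠ i := by
    rintro rfl
    exact h hj
  simp [this]

/-- the noise of disjoint lines -/
theorem lines_noise {O : Type*} [Fintype O] [DecidableEq O] {l : O → List E}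
    (hl : ∀ o, (l o).Nodup) (hd : ∀ o o', o ≠ o' → (l o).Disjoint (l o')) {ℓ : ℕ}
    (hlen : ∀ o, (l o).length = ℓ) (hu : ∀ o, Un J x (l o)) {A : Mat N} (hA : Aᴴ * A = 1)
    (hδ : 2 * N * δ ^ 2 * ℓ ≤ 1) :
    av (fun s => ((∑ o, (trace (A * pm J (x + sg δ s) (l o))).re) -
      ∑ o, (trace (A * pm J x (l o))).re) ^ 2) ≤ Fintype.card O * (3 * (N * ℓ * δ ^ 2)) := by
  obtain ⟨Δ, hΔ⟩ : ∃ Δ : O → (IJ J N → Bool) → ℝ, Δ = fun o s =>
    (trace (A * pm J (x + sg δ s) (l o))).re - (trace (A * pm J x (l o))).re := ⟨_, rfl⟩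
  have h1 : ∀ s, ((∑ o, (trace (A * pm J (x + sg δ s) (l o))).re) -
      ∑ o, (trace (A * pm J x (l o))).re) ^ 2 = ∑ o, ∑ o', Δ o s * Δ o' s := by
    intro s
    rw [← Finset.sum_sub_distrib, sq, Finset.sum_mul_sum, hΔ]
  have h2 : ∀ o o', o ≠ o' → av (fun s => Δ o s * Δ o' s) = 0 := by
    intro o o' hoo
    have hma : MA fun w : IJ J N → ℝ => ((trace (A * pm J w (l o))).re -
        (trace (A * pm J x (l o))).re) * ((trace (A * pm J w (l o'))).re -
        (trace (A * pm J x (l o'))).re) :=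
      MA.mul_disj (trp_MA (hl o) A) (trp_MA (hl o') A) (S := fun i => i.1.1 ∈ l o)
        (fun w i t h => by rw [pm_upd h]) (fun w i t h => by
          rw [pm_upd fun h' => hd o o' hoo h h']) _ _
    have h3 := av_MA hma δ x
    rw [hΔ]
    simp only
    rw [h3, sub_self, zero_mul]
  simp only [h1]
  rw [av_sum]
  have h4 : ∀ o ∈ (Finset.univ : Finset O), av (fun s => ∑ o', Δ o s * Δ o' s) ≤
      3 * (N * ℓ * δ ^ 2) := by
    intro o _
    rw [av_sum, Finset.sum_eq_single o (fun o' _ h => h2 o o' h.symm) (by simp)]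
    have h5 := line_noise (x := x) (δ := δ) (hl o) (hu o) hA
    rw [hlen o] at h5
    have h6 := pow_le_three (σ := 2 * N * δ ^ 2) (by positivity) (le_refl ℓ) hδ
    have h7 : δ ^ 2 * ℓ * (N * (1 + 2 * N * δ ^ 2) ^ ℓ) ≤ δ ^ 2 * ℓ * (N * 3) :=
      mul_le_mul_of_nonneg_left (mul_le_mul_of_nonneg_left h6 (Nat.cast_nonneg _)) (by positivity)
    have e : (fun s => Δ o s * Δ o s) = fun s => ((trace (A * pm J (x + sg δ s) (l o))).re -
        (trace (A * pm J x (l o))).re) ^ 2 := by
      funext s; rw [hΔ]; ring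
    rw [e]
    linarith
  have h8 := Finset.sum_le_card_nsmul _ _ _ h4
  rw [Finset.card_univ, nsmul_eq_mul] at h8
  exact h8

end path

section two

variable {G : Type} [Group G] [TopologicalSpace G]
  [IsTopologicalGroup G] [CompactSpace G] [SecondCountableTopology G] [MeasurableSpace G]
  [BorelSpace G] (μ : Measure G) [IsProbabilityMeasure μ] [μ.IsMulLeftInvariant]
  [μ.IsMulRightInvariant] [μ.IsInvInvariant] {N n : ℕ} {L : LD G N n}
  {E : Type} [Fintype E] [DecidableEq E]

variable (L) in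
/-- the transport along a list of links -/
def tl (U : E → G) (l : List E) : Mat N := (l.map fun e => L.rho (U e)).prod

lemma pm_tl (z : (E → G) × (E → G)) (l : List E) :
    pm (TW E).J (c2 L z) (l.map Sum.inl) = tl L z.1 l := by
  induction l with
  | nil =>
    show pm _ _ [] = _
    rw [pm_nil]
    rfl
  | cons e l ih =>
    show pm _ _ (Sum.inl e :: l.map Sum.inl) = _
    rw [pm_cons, ih, mx_c2]
    unfold tl
    rw [List.map_cons, List.prod_cons]

/-- two copies of disjoint lines -/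
theorem two_lines {O : Type} [Fintype O] [DecidableEq O] {l : O → List E}
    (hl : ∀ o, (l o).Nodup) (hd : ∀ o o', o ≠ o' → (l o).Disjoint (l o')) {ℓ : ℕ}
    (hlen : ∀ o, (l o).length = ℓ) {β : ℝ} (hβ : 0 < β) {A : Mat N} (hA : Aᴴ * A = 1)
    (hδ : 2 * N * (1 / β) * ℓ ≤ 1) {w0 : (E → G) → ℝ} (hw : Continuous w0)
    (hw0 : ∀ U, 0 ≤ w0 U) :
    ∫ z, ((∑ o, (trace (A * tl L z.1 (l o))).re) - ∑ o, (trace (A * tl L z.2 (l o))).re) ^ 2 *
        (w0 z.1 * w0 z.2 * Real.exp (-(β * kin L z.1 z.2))) ∂((ME μ E).prod (ME μ E)) ≤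
      (Fintype.card O * (3 * (N * ℓ * (1 / β)))) *
        ∫ z, (w0 z.1 * w0 z.2 * Real.exp (-(β * kin L z.1 z.2))) ∂((ME μ E).prod (ME μ E)) := by
  have hlnd : ∀ o, ((l o).map (Sum.inl : E → E ⊕ E)).Nodup := fun o =>
    (hl o).map Sum.inl_injective
  obtain ⟨P, hP⟩ : ∃ P : (Ix (TW E) N → ℝ) → ℝ, P = fun w =>
    ∑ o, (trace (A * pm (TW E).J w ((l o).map Sum.inl))).re := ⟨_, rfl⟩
  have hPM : MA P := by
    rw [hP]
    exact MA.sum Finset.univ fun o => trp_MA (hlnd o) A
  have hPc : ∀ z : (E → G) × (E → G), P (c2 L z) = ∑ o, (trace (A * tl L z.1 (l o))).re := by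
    intro z
    rw [hP]
    simp only [pm_tl]
  have hdom := two_dom μ (L := L) hβ hPM hw hw0
  simp only [hPc, Prod.fst_swap] at hdom
  have hδ2 : (1 / Real.sqrt β) ^ 2 = 1 / β := by
    rw [div_pow, one_pow, Real.sq_sqrt hβ.le]
  have hav : ∀ z : (E → G) × (E → G),
      av (fun s => (P (c2 L z + sg (1 / Real.sqrt β) s) -
        ∑ o, (trace (A * tl L z.1 (l o))).re) ^ 2) ≤
        Fintype.card O * (3 * (N * ℓ * (1 / β))) := by
    intro z
    have h1 := lines_noise (J := (TW E).J) (x := c2 L z) (δ := 1 / Real.sqrt β)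
      (l := fun o => (l o).map Sum.inl) hlnd
      (fun o o' hoo => by
        have h2 := hd o o' hoo
        intro e he he'
        obtain ⟨a, ha, rfl⟩ := List.mem_map.1 he
        obtain ⟨b, hb, hab⟩ := List.mem_map.1 he'
        rw [Sum.inl_injective hab] at hb
        exact h2 ha hb) (ℓ := ℓ) (fun o => by rw [List.length_map, hlen])
      (fun o e he => by
        obtain ⟨a, ha, rfl⟩ := List.mem_map.1 he
        exact ⟨mem_J a, by rw [mx_c2]; exact L.unit' _⟩) hA (by rw [hδ2]; exact hδ)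
    rw [hδ2] at h1
    have h3 : ∑ o, (trace (A * tl L z.1 (l o))).re = ∑ o, (trace (A * pm (TW E).J (c2 L z)
        ((l o).map Sum.inl))).re := by
      rw [← hPc z, hP]
    rw [h3, hP]
    exact h1
  have cw1 : Continuous fun z : (E → G) × (E → G) => w0 z.1 := hw.comp continuous_fst
  have cw2 : Continuous fun z : (E → G) × (E → G) => w0 z.2 := hw.comp continuous_snd
  have ck : Continuous fun z : (E → G) × (E → G) => Real.exp (-(β * kin L z.1 z.2)) :=
    Real.continuous_exp.comp (continuous_const.mul kin_cont).neg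
  have hWi : Integrable (fun z : (E → G) × (E → G) =>
      w0 z.1 * w0 z.2 * Real.exp (-(β * kin L z.1 z.2))) ((ME μ E).prod (ME μ E)) :=
    ((cw1.mul cw2).mul ck).integrable_of_hasCompactSupport (HasCompactSupport.of_compactSpace _)
  refine hdom.trans ?_
  rw [← integral_const_mul]
  refine integral_mono_of_nonneg (Filter.Eventually.of_forall fun z => ?_)
    (hWi.const_mul _) (Filter.Eventually.of_forall fun z => ?_)
  · exact mul_nonneg (av_nonneg fun s => sq_nonneg _)
      (mul_nonneg (mul_nonneg (hw0 _) (hw0 _)) (Real.exp_pos _).le)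
  · exact mul_le_mul_of_nonneg_right (hav z)
      (mul_nonneg (mul_nonneg (hw0 _) (hw0 _)) (Real.exp_pos _).le)

end two

end

end Pool.Agent.R990.TG
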