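import Mathlib
import Pool.Agent.R990.TG.Ker
import Pool.Agent.Y14.Word
import Pool.Agent.R990.Rec

/-!
# Loops in a reflection positive state
-/

open MeasureTheory Matrix Filter
open scoped Matrix.Norms.Frobenius ContDiff Topology
open Pool.Agent.H906R3.YM hiding Pl PP
open Pool.Agent.W793.YM Pool.Agent.TH618.YM Pool.Agent.Y14

namespace Pool.Agent.R990.TG

set_option linter.unusedSectionVars false
set_option linter.unusedVariables false

noncomputable section

variable {G : Type} [Group G] [TopologicalSpace G]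
  [IsTopologicalGroup G] [CompactSpace G] [SecondCountableTopology G] [MeasurableSpace G]
  [BorelSpace G] (μ : Measure G) [IsProbabilityMeasure μ] [μ.IsMulLeftInvariant]
  [μ.IsMulRightInvariant] [μ.IsInvInvariant] {N n : ℕ} {L : LD G N n}
  {D m : ℕ} [NeZero m] {w : (Ed D (2 * m) → G) → ℝ}

/-- the expectation -/
def Ev (w F : (Ed D (2 * m) → G) → ℝ) : ℝ :=
  (∫ U, w U * F U ∂(ME μ (Ed D (2 * m)))) / ∫ U, w U ∂(ME μ (Ed D (2 * m)))

section basic

variable (h : St μ D m w)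

include h

lemma Zw_pos : 0 < ∫ U, w U ∂(ME μ (Ed D (2 * m))) := by
  refine (integral_pos_iff_support_of_nonneg (fun x => (h.pos x).le)
    (integrable_cont μ h.cont)).2 ?_
  have : Function.support w = Set.univ := Set.eq_univ_of_forall fun y => (h.pos y).ne'
  rw [this]; simp

lemma Ev_mono {F H : (Ed D (2 * m) → G) → ℝ} (hF : Continuous F) (hH : Continuous H)
    (hFH : ∀ U, F U ≤ H U) : Ev μ w F ≤ Ev μ w H := by
  unfold Ev
  refine div_le_div_of_nonneg_right ?_ (Zw_pos μ h).le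
  exact integral_mono (integrable_cont μ (h.cont.mul hF)) (integrable_cont μ (h.cont.mul hH))
    fun U => mul_le_mul_of_nonneg_left (hFH U) (h.pos U).le

lemma Ev_add {F H : (Ed D (2 * m) → G) → ℝ} (hF : Continuous F) (hH : Continuous H) :
    Ev μ w (fun U => F U + H U) = Ev μ w F + Ev μ w H := by
  have i1 : Integrable (fun U => w U * F U) (ME μ (Ed D (2 * m))) :=
    integrable_cont μ (h.cont.mul hF)
  have i2 : Integrable (fun U => w U * H U) (ME μ (Ed D (2 * m))) :=
    integrable_cont μ (h.cont.mul hH)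
  unfold Ev
  rw [← add_div, ← integral_add i1 i2]
  congr 1
  refine integral_congr_ae (Filter.Eventually.of_forall fun U => ?_)
  simp only; ring

omit h in
lemma Ev_smul (c : ℝ) (F : (Ed D (2 * m) → G) → ℝ) :
    Ev μ w (fun U => c * F U) = c * Ev μ w F := by
  unfold Ev
  rw [← mul_div_assoc, ← integral_const_mul]
  congr 1
  refine integral_congr_ae (Filter.Eventually.of_forall fun U => ?_)
  simp only; ring

lemma Ev_const (c : ℝ) : Ev μ w (fun _ => c) = c := by
  unfold Ev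
  rw [integral_mul_const]
  have := (Zw_pos μ h).ne'
  field_simp

lemma Ev_nonneg {F : (Ed D (2 * m) → G) → ℝ} (hF : ∀ U, 0 ≤ F U) : 0 ≤ Ev μ w F :=
  div_nonneg (integral_nonneg fun U => mul_nonneg (h.pos U).le (hF U)) (Zw_pos μ h).le

lemma Ev_sum {K : Type*} (S : Finset K) {F : K → (Ed D (2 * m) → G) → ℝ}
    (hF : ∀ k, Continuous (F k)) : Ev μ w (fun U => ∑ k ∈ S, F k U) = ∑ k ∈ S, Ev μ w (F k) := by
  classical
  induction S using Finset.induction_on with
  | empty => simp only [Finset.sum_empty]; exact Ev_const μ h 0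
  | insert a S ha ih =>
    simp only [Finset.sum_insert ha]
    rw [Ev_add μ h (hF a) (continuous_finsetSum S fun k _ => hF k), ih]

lemma Ev_tr (z : Fin D → ZMod (2 * m)) (F : (Ed D (2 * m) → G) → ℝ) :
    Ev μ w (fun U => F (tr z U)) = Ev μ w F := by
  unfold Ev
  congr 1
  rw [← integral_tr μ z (fun U => w U * F U)]
  simp only [h.trs]

lemma Ev_cs {F H : (Ed D (2 * m) → G) → ℝ} (hF : Continuous F) (hH : Continuous H) :
    Ev μ w (fun U => F U * H U) ^ 2 ≤ Ev μ w (fun U => F U ^ 2) * Ev μ w (fun U => H U ^ 2) := by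
  have key : Ev μ w (fun U => F U * H U) ^ 2 ≤
      Ev μ w (fun U => H U ^ 2) * Ev μ w (fun U => F U ^ 2) := by
    refine Pool.Agent.H906R3.YM.sq_le_of_forall fun t => ?_
    have h1 := Ev_nonneg μ h (F := fun U => (t * F U + H U) ^ 2) fun U => sq_nonneg _
    have e : (fun U => (t * F U + H U) ^ 2) = fun U => (H U ^ 2 + (2 * t) * (F U * H U)) +
        t ^ 2 * F U ^ 2 := by funext U; ring
    have c1 : Continuous fun U => H U ^ 2 := hH.pow 2
    have c2 : Continuous fun U => (2 * t) * (F U * H U) := continuous_const.mul (hF.mul hH)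
    have c3 : Continuous fun U => H U ^ 2 + (2 * t) * (F U * H U) := c1.add c2
    have c4 : Continuous fun U => t ^ 2 * F U ^ 2 := continuous_const.mul (hF.pow 2)
    rw [e, Ev_add μ h c3 c4, Ev_add μ h c1 c2, Ev_smul, Ev_smul] at h1
    exact h1
  exact key.trans (le_of_eq (mul_comm _ _))

end basic

/-- the quadratic mean -/
def qn (w f : (Ed D (2 * m) → G) → ℝ) : ℝ := Real.sqrt (Ev μ w fun U => f U ^ 2)

lemma qn_nonneg (f : (Ed D (2 * m) → G) → ℝ) : 0 ≤ qn μ w f := Real.sqrt_nonneg _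

section quad

variable (h : St μ D m w)

include h

lemma qn_sq (f : (Ed D (2 * m) → G) → ℝ) : qn μ w f ^ 2 = Ev μ w fun U => f U ^ 2 :=
  Real.sq_sqrt (Ev_nonneg μ h fun U => sq_nonneg _)

lemma qn_add {f g : (Ed D (2 * m) → G) → ℝ} (hf : Continuous f) (hg : Continuous g) :
    qn μ w (fun U => f U + g U) ≤ qn μ w f + qn μ w g := by
  refine Real.sqrt_le_iff.2 ⟨add_nonneg (qn_nonneg _ _) (qn_nonneg _ _), ?_⟩
  have e : (fun U => (f U + g U) ^ 2) = fun U => (f U ^ 2 + 2 * (f U * g U)) + g U ^ 2 := by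
    funext U; ring
  have c1 : Continuous fun U => f U ^ 2 := hf.pow 2
  have c2 : Continuous fun U => 2 * (f U * g U) := continuous_const.mul (hf.mul hg)
  have c3 : Continuous fun U => f U ^ 2 + 2 * (f U * g U) := c1.add c2
  have c4 : Continuous fun U => g U ^ 2 := hg.pow 2
  rw [e, Ev_add μ h c3 c4, Ev_add μ h c1 c2, Ev_smul, add_sq, qn_sq μ h, qn_sq μ h]
  have h1 := Ev_cs μ h hf hg
  have h2 : Ev μ w (fun U => f U * g U) ≤ qn μ w f * qn μ w g := by
    refine le_trans (le_abs_self _) (abs_le_of_sq_le_sq' ?_ (mul_nonneg (qn_nonneg _ _)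
      (qn_nonneg _ _)) |> fun h => abs_le.2 h)
    rw [mul_pow, qn_sq μ h, qn_sq μ h]
    exact h1
  linarith

lemma qn_mono {f g : (Ed D (2 * m) → G) → ℝ} (hf : Continuous f) (hg : Continuous g)
    (h0 : ∀ U, 0 ≤ f U) (hfg : ∀ U, f U ≤ g U) : qn μ w f ≤ qn μ w g :=
  Real.sqrt_le_sqrt (Ev_mono μ h (hf.pow 2) (hg.pow 2) fun U =>
    pow_le_pow_left₀ (h0 U) (hfg U) 2)

lemma qn_tr (z : Fin D → ZMod (2 * m)) (f : (Ed D (2 * m) → G) → ℝ) :
    qn μ w (fun U => f (tr z U)) = qn μ w f := by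
  unfold qn
  rw [Ev_tr μ h z (fun U => f U ^ 2)]

lemma qn_sum {K : Type*} (S : Finset K) {F : K → (Ed D (2 * m) → G) → ℝ}
    (hF : ∀ k, Continuous (F k)) :
    qn μ w (fun U => ∑ k ∈ S, F k U) ≤ ∑ k ∈ S, qn μ w (F k) := by
  classical
  induction S using Finset.induction_on with
  | empty =>
    simp only [Finset.sum_empty]
    unfold qn
    have e : (fun _ : Ed D (2 * m) → G => (0 : ℝ) ^ 2) = fun _ => (0 : ℝ) := by funext U; ring
    rw [e, Ev_const μ h]; simp
  | insert a S ha ih =>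
    simp only [Finset.sum_insert ha]
    have h1 := qn_add μ h (hF a) (continuous_finsetSum S fun k _ => hF k)
    linarith

/-- the Cauchy-Schwarz inequality of reflection positivity -/
lemma rp_cs (hm : 2 ≤ m) (i0 : Fin D) {K : Type*} [Fintype K]
    {f g : K → (Ed D (2 * m) → G) → ℝ} (hf : ∀ k, Continuous (f k)) (hg : ∀ k, Continuous (g k))
    (hdf : ∀ k, Dep (fun e => PP i0 e ∨ (SR hm i0).R e) (f k))
    (hdg : ∀ k, Dep (fun e => PP i0 e ∨ (SR hm i0).R e) (g k)) :
    (∑ k, Ev μ w fun U => f k U * g k ((SR hm i0).tU U)) ^ 2 ≤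
      (∑ k, Ev μ w fun U => f k U * f k ((SR hm i0).tU U)) *
        ∑ k, Ev μ w fun U => g k U * g k ((SR hm i0).tU U) := by
  have hθ : Continuous ((SR hm i0).tU (G := G)) := (SR hm i0).tU_cont
  have hsym : ∀ k, Ev μ w (fun U => g k U * f k ((SR hm i0).tU U)) =
      Ev μ w (fun U => f k U * g k ((SR hm i0).tU U)) := by
    intro k
    unfold Ev
    congr 1
    rw [← (SR hm i0).integral μ]
    refine integral_congr_ae (Filter.Eventually.of_forall fun U => ?_)
    simp only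
    rw [h.rfl hm i0 U, (SR hm i0).tU_tU]; ring
  refine le_trans ?_ (le_of_eq (mul_comm _ _))
  refine Pool.Agent.H906R3.YM.sq_le_of_forall fun t => ?_
  rw [Finset.mul_sum, Finset.mul_sum, ← Finset.sum_add_distrib, ← Finset.sum_add_distrib]
  refine Finset.sum_nonneg fun k _ => ?_
  have h1 := h.rps hm i0 (fun U => t * f k U + g k U) ((continuous_const.mul (hf k)).add (hg k))
    (fun U U' hU => by
      show t * f k U + g k U = t * f k U' + g k U'
      rw [hdf k U U' hU, hdg k U U' hU])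
  have h2 : 0 ≤ Ev μ w fun U => (t * f k U + g k U) *
      (t * f k ((SR hm i0).tU U) + g k ((SR hm i0).tU U)) := div_nonneg h1 (Zw_pos μ h).le
  have c1 : Continuous fun U => g k U * g k ((SR hm i0).tU U) := (hg k).mul ((hg k).comp hθ)
  have c2 : Continuous fun U => f k U * g k ((SR hm i0).tU U) := (hf k).mul ((hg k).comp hθ)
  have c3 : Continuous fun U => g k U * f k ((SR hm i0).tU U) := (hg k).mul ((hf k).comp hθ)
  have c4 : Continuous fun U => f k U * f k ((SR hm i0).tU U) := (hf k).mul ((hf k).comp hθ)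
  have e : (fun U => (t * f k U + g k U) *
      (t * f k ((SR hm i0).tU U) + g k ((SR hm i0).tU U))) = fun U =>
      ((g k U * g k ((SR hm i0).tU U) + t * (f k U * g k ((SR hm i0).tU U))) +
        t * (g k U * f k ((SR hm i0).tU U))) + t ^ 2 * (f k U * f k ((SR hm i0).tU U)) := by
    funext U; ring
  have d2 : Continuous fun U => t * (f k U * g k ((SR hm i0).tU U)) := continuous_const.mul c2
  have d3 : Continuous fun U => t * (g k U * f k ((SR hm i0).tU U)) := continuous_const.mul c3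
  have d4 : Continuous fun U => t ^ 2 * (f k U * f k ((SR hm i0).tU U)) :=
    continuous_const.mul c4
  have d5 : Continuous fun U => g k U * g k ((SR hm i0).tU U) +
      t * (f k U * g k ((SR hm i0).tU U)) := c1.add d2
  have d6 : Continuous fun U => g k U * g k ((SR hm i0).tU U) +
      t * (f k U * g k ((SR hm i0).tU U)) + t * (g k U * f k ((SR hm i0).tU U)) := d5.add d3
  rw [e, Ev_add μ h d6 d4, Ev_add μ h d5 d3, Ev_add μ h c1 d2, Ev_smul, Ev_smul,
    Ev_smul, hsym k] at h2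
  linarith

end quad

/-! ### rectangular loops -/

section loops

variable (h : St μ D m w) {τ i : Fin D}

/-- the coordinates of the upper part of the loop -/
def ur (L : LD G N n) (τ i : Fin D) (R : ℕ) (T : ℕ) (c : Fin N × Fin N × Bool)
    (U : Ed D (2 * m) → G) : ℝ := co c (L.rho (up τ i R 0 T U))

lemma ur_cont (R T : ℕ) (c : Fin N × Fin N × Bool) : Continuous (ur (m := m) L τ i R T c) :=
  (co c).continuous.comp (L.cont.comp (up_cont _ _ _))

lemma ur_dep (hm : 2 ≤ m) (hi : i ≠ τ) (R : ℕ) {T : ℕ} (hT : T ≤ m)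
    (c : Fin N × Fin N × Bool) :
    Dep (fun e => PP τ e ∨ (SR hm τ).R e) (ur (m := m) L τ i R T c) := by
  refine Dep_HQ hm fun U U' h => ?_
  unfold ur
  have h1 := up_HQ (G := G) hm hi (x := 0) rfl R hT U U' h
  simp only at h1
  rw [h1]

variable (L w) in
/-- the expectation of the rectangular loop -/
def la (τ i : Fin D) (T R : ℕ) : ℝ := Ev μ w fun U => rt L (rect U 0 τ i T R)

variable (L w) in
/-- the mean deviation of the rectangular loop -/
def ro (τ i : Fin D) (T R : ℕ) : ℝ := qn μ w fun U => dv L (rect U 0 τ i T R)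

lemma dvr_cont (x : Fin D → ZMod (2 * m)) (T R : ℕ) :
    Continuous fun U : Ed D (2 * m) → G => dv L (rect U x τ i T R) :=
  dv_cont.comp (rect_cont _ _ _ _ _)

include h

/-- the expectation of the rectangular loop, with site reflection positivity -/
theorem la_srp (hm : 2 ≤ m) (hi : i ≠ τ) (R T1 T2 : ℕ) :
    la μ L w τ i (T1 + T2) R =
      ∑ k, Ev μ w fun U => ur L τ i R T2 k U * ur L τ i R T1 k ((SR hm τ).tU U) := by
  have e1 : la μ L w τ i (T1 + T2) R =
      Ev μ w (fun U : Ed D (2 * m) → G => rt L (rect U (0 - T1 • eT τ) τ i (T1 + T2) R)) := by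
    unfold la
    rw [← Ev_tr μ h (0 - T1 • eT τ) (fun U : Ed D (2 * m) → G =>
      rt L (rect U 0 τ i (T1 + T2) R))]
    simp only [rect_tr, zero_add]
  rw [e1, ← Ev_sum μ h Finset.univ (F := fun k U =>
    ur L τ i R T2 k U * ur L τ i R T1 k ((SR hm τ).tU U)) fun k =>
      (ur_cont _ _ k).mul ((ur_cont _ _ k).comp (SR hm τ).tU_cont)]
  congr 1
  funext U
  obtain ⟨g, hg⟩ := rect_site hm hi U (x := 0) rfl R T1 T2
  rw [hg, rt_conj', rt_mul]
  rfl

omit h in
lemma rect_len_zero (U : Ed D (2 * m) → G) (x : Fin D → ZMod (2 * m)) (τ i : Fin D) (R : ℕ) :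
    rect U x τ i 0 R = 1 := by
  unfold rect
  rw [ln_zero, ln_zero, zero_smul, add_zero]
  group

lemma la_zero (R : ℕ) : la μ L w τ i 0 R = N := by
  unfold la
  have e : (fun U : Ed D (2 * m) → G => rt L (rect U 0 τ i 0 R)) = fun _ => (N : ℝ) := by
    funext U
    rw [rect_len_zero]
    unfold rt
    rw [map_one, trace_one, Fintype.card_fin]
    simp
  rw [e, Ev_const μ h]

lemma la_le (T R : ℕ) : la μ L w τ i T R ≤ N := by
  have h1 := Ev_mono μ h (F := fun U : Ed D (2 * m) → G => rt L (rect U 0 τ i T R))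
    (H := fun _ => (N : ℝ)) (rt_cont.comp (rect_cont _ _ _ _ _)) continuous_const
    fun U => rt_le _
  rw [Ev_const μ h] at h1
  exact h1

lemma ro_sq (T R : ℕ) : ro μ L w τ i T R ^ 2 = 2 * (N - la μ L w τ i T R) := by
  unfold ro la
  rw [qn_sq μ h]
  have e : (fun U : Ed D (2 * m) → G => dv L (rect U 0 τ i T R) ^ 2) =
      fun U => (2 * N : ℝ) + (-2) * rt L (rect U 0 τ i T R) := by
    funext U
    rw [dv_sq, rt_we]; ring
  have c1 : Continuous fun U : Ed D (2 * m) → G => (-2) * rt L (rect U 0 τ i T R) :=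
    continuous_const.mul (rt_cont.comp (rect_cont _ _ _ _ _))
  rw [e, Ev_add μ h (F := fun _ => (2 * N : ℝ)) continuous_const c1, Ev_const μ h, Ev_smul]
  ring

omit h in
lemma ro_nonneg (T R : ℕ) : 0 ≤ ro μ L w τ i T R := qn_nonneg _ _

lemma ro_double (hm : 2 ≤ m) (hN : 1 ≤ N) (hi : i ≠ τ) (R : ℕ) {T : ℕ} (hT : T ≤ m) :
    ro μ L w τ i (2 * T) R ≤ Real.sqrt 2 * ro μ L w τ i T R := by
  have h1 : la μ L w τ i T R ^ 2 ≤ N * la μ L w τ i (2 * T) R := by
    have a1 := la_srp μ (L := L) h hm hi R 0 T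
    have a2 := la_srp μ (L := L) h hm hi R 0 0
    have a3 := la_srp μ (L := L) h hm hi R T T
    rw [zero_add] at a1
    rw [zero_add, la_zero μ h] at a2
    have a4 := rp_cs μ h hm τ (f := fun k => ur L τ i R T k) (g := fun k => ur L τ i R 0 k)
      (fun k => ur_cont _ _ k) (fun k => ur_cont _ _ k) (fun k => ur_dep hm hi R hT k)
      (fun k => ur_dep hm hi R (Nat.zero_le m) k)
    rw [← a1, ← a2, ← a3] at a4
    have e : T + T = 2 * T := by omega
    rw [e] at a4
    linarith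
  have h2 := la_le μ h (L := L) (τ := τ) (i := i) T R
  have h3 := la_le μ h (L := L) (τ := τ) (i := i) (2 * T) R
  have hN' : (1 : ℝ) ≤ N := by exact_mod_cast hN
  have h4 : ro μ L w τ i (2 * T) R ^ 2 ≤ 2 * ro μ L w τ i T R ^ 2 := by
    rw [ro_sq μ h, ro_sq μ h]
    generalize la μ L w τ i T R = a at h1 h2 ⊢
    generalize la μ L w τ i (2 * T) R = b at h1 h3 ⊢
    have h5 : (N : ℝ) * (N - b) ≤ N * (2 * (N - a)) := by nlinarith [sq_nonneg ((N : ℝ) - a)]
    have h6 := le_of_mul_le_mul_left h5 (by linarith)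
    linarith
  calc ro μ L w τ i (2 * T) R = Real.sqrt (ro μ L w τ i (2 * T) R ^ 2) :=
        (Real.sqrt_sq (ro_nonneg μ _ _)).symm
    _ ≤ Real.sqrt (2 * ro μ L w τ i T R ^ 2) := Real.sqrt_le_sqrt h4
    _ = _ := by rw [Real.sqrt_mul (by norm_num), Real.sqrt_sq (ro_nonneg μ _ _)]

omit h in
lemma dv_rect_add (U : Ed D (2 * m) → G) (x : Fin D → ZMod (2 * m)) (T1 T2 R : ℕ) :
    dv L (rect U x τ i (T1 + T2) R) ≤ dv L (rect U x τ i T1 R) +
      dv L (rect U (x + T1 • eT τ) τ i T2 R) := by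
  have h1 : rect U x τ i (T1 + T2) R =
      (ln U τ T1 x * rect U (x + T1 • eT τ) τ i T2 R * (ln U τ T1 x)⁻¹) * rect U x τ i T1 R := by
    unfold rect
    rw [ln_add, ln_add]
    have e1 : x + (T1 + T2) • eT τ = x + T1 • eT τ + T2 • (eT τ : Fin D → ZMod (2 * m)) := by
      rw [add_smul T1 T2]; abel
    have e2 : x + R • eT i + T1 • eT τ = x + T1 • eT τ + R • (eT i : Fin D → ZMod (2 * m)) := by
      abel
    rw [e1, e2]
    group
  rw [h1]
  refine (dv_mul _ _).trans ?_
  rw [dv_conj, add_comm]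

lemma ro_add (T1 T2 R : ℕ) : ro μ L w τ i (T1 + T2) R ≤ ro μ L w τ i T1 R + ro μ L w τ i T2 R := by
  have h1 : ro μ L w τ i (T1 + T2) R ≤ qn μ w (fun U => dv L (rect U 0 τ i T1 R) +
      dv L (rect U (0 + T1 • eT τ) τ i T2 R)) :=
    qn_mono μ h (dvr_cont _ _ _) ((dvr_cont _ _ _).add (dvr_cont _ _ _)) (fun U => dv_nonneg _)
      fun U => dv_rect_add U 0 T1 T2 R
  refine h1.trans ((qn_add μ h (dvr_cont _ _ _) (dvr_cont _ _ _)).trans (le_of_eq ?_))
  congr 1
  unfold ro
  rw [← qn_tr μ h (T1 • eT τ) (fun U => dv L (rect U 0 τ i T2 R))]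
  simp only [rect_tr]

omit h in
lemma ro_swap (T R : ℕ) : ro μ L w τ i T R = ro μ L w i τ R T := by
  unfold ro
  congr 1
  funext U
  rw [rect_swap, dv_inv]

lemma ro_zero (R : ℕ) : ro μ L w τ i 0 R = 0 := by
  have h1 := ro_sq μ h (L := L) (τ := τ) (i := i) 0 R
  rw [la_zero μ h, sub_self, mul_zero] at h1
  exact pow_eq_zero_iff two_ne_zero |>.1 h1

/-- the growth of the loops -/
lemma ro_lin (hm : 2 ≤ m) (hN : 1 ≤ N) (hi : i ≠ τ) (R : ℕ) : ∀ T : ℕ, T ≤ 2 * m → 1 ≤ T →
    ro μ L w τ i T R ≤ ((2 + Real.sqrt 2) * Real.sqrt T - (1 + Real.sqrt 2)) *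
      ro μ L w τ i 1 R := by
  intro T
  induction T using Nat.strong_induction_on with
  | _ T ih =>
    intro hT h1
    obtain ⟨s, hs⟩ : ∃ s, s = Real.sqrt 2 := ⟨_, rfl⟩
    have hs0 : 0 ≤ s := by rw [hs]; exact Real.sqrt_nonneg _
    have hs2 : s * s = 2 := by rw [hs]; exact Real.mul_self_sqrt (by norm_num)
    have hr := ro_nonneg μ (L := L) (w := w) (τ := τ) (i := i) 1 R
    rw [← hs] at ih ⊢
    rcases Nat.eq_or_lt_of_le h1 with h7 | h7
    · rw [← h7]
      simp only [Nat.cast_one, Real.sqrt_one]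
      linarith
    · obtain ⟨t, ht⟩ : ∃ t, T = 2 * t ∨ T = 2 * t + 1 := ⟨T / 2, by omega⟩
      have ht1 : 1 ≤ t := by omega
      have ih' := ih t (by omega) (by omega) ht1
      have hd := ro_double μ h (L := L) hm hN hi R (T := t) (by omega)
      rw [← hs] at hd
      have hsq : Real.sqrt (2 * t) = s * Real.sqrt t := by
        rw [hs, Real.sqrt_mul (by norm_num)]
      have hdd : ro μ L w τ i (2 * t) R ≤ ((2 + s) * (s * Real.sqrt t) - s * (1 + s)) *
          ro μ L w τ i 1 R := by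
        refine hd.trans ?_
        calc s * ro μ L w τ i t R ≤ s * (((2 + s) * Real.sqrt t - (1 + s)) *
              ro μ L w τ i 1 R) := mul_le_mul_of_nonneg_left ih' hs0
          _ = _ := by ring
      rcases ht with ht | ht
      · rw [ht]
        push_cast
        rw [hsq]
        refine hdd.trans (mul_le_mul_of_nonneg_right ?_ hr)
        nlinarith
      · rw [ht]
        push_cast
        have h2 := ro_add μ h (L := L) (τ := τ) (i := i) (2 * t) 1 R
        have h3 : Real.sqrt (2 * t) ≤ Real.sqrt (2 * t + 1) := Real.sqrt_le_sqrt (by linarith)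
        rw [hsq] at h3
        have h4 : ((2 + s) * (s * Real.sqrt t) - s * (1 + s)) + 1 ≤
            (2 + s) * Real.sqrt (2 * t + 1) - (1 + s) := by nlinarith
        have h5 := mul_le_mul_of_nonneg_right h4 hr
        linarith

lemma ro_lin' (hm : 2 ≤ m) (hN : 1 ≤ N) (hi : i ≠ τ) (R : ℕ) {T : ℕ} (hT : T ≤ 2 * m) :
    ro μ L w τ i T R ≤ (2 + Real.sqrt 2) * Real.sqrt T * ro μ L w τ i 1 R := by
  have hr := ro_nonneg μ (L := L) (w := w) (τ := τ) (i := i) 1 R
  rcases Nat.eq_zero_or_pos T with h0 | h0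
  · rw [h0, ro_zero μ h]
    simp
  · refine (ro_lin μ h hm hN hi R T hT h0).trans (mul_le_mul_of_nonneg_right ?_ hr)
    have := Real.sqrt_nonneg 2
    linarith

theorem ro_area (hm : 2 ≤ m) (hN : 1 ≤ N) (hi : i ≠ τ) {T R : ℕ} (hT : T ≤ 2 * m)
    (hR : R ≤ 2 * m) : ro μ L w τ i T R ^ 2 ≤ 144 * (T * R) * ro μ L w τ i 1 1 ^ 2 := by
  have h1 := ro_lin' μ h (L := L) hm hN hi R hT
  have h2 := ro_lin' μ h (L := L) hm hN hi.symm 1 hR
  rw [ro_swap μ (L := L) (w := w) (τ := i) (i := τ), ro_swap μ (L := L) (w := w) (τ := i) (i := τ)]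
    at h2
  obtain ⟨s, hs⟩ : ∃ s, s = Real.sqrt 2 := ⟨_, rfl⟩
  have hs0 : 0 ≤ s := by rw [hs]; exact Real.sqrt_nonneg _
  have hs2 : s * s = 2 := by rw [hs]; exact Real.mul_self_sqrt (by norm_num)
  rw [← hs] at h1 h2
  have hr := ro_nonneg μ (L := L) (w := w) (τ := τ) (i := i) 1 1
  have h3 : ro μ L w τ i T R ≤ (2 + s) ^ 2 * (Real.sqrt T * Real.sqrt R) *
      ro μ L w τ i 1 1 := by
    refine h1.trans ?_
    calc (2 + s) * Real.sqrt T * ro μ L w τ i 1 R ≤
          (2 + s) * Real.sqrt T * ((2 + s) * Real.sqrt R * ro μ L w τ i 1 1) :=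
          mul_le_mul_of_nonneg_left h2 (by positivity)
      _ = _ := by ring
  have h4 : (2 + s) ^ 2 ≤ 12 := by nlinarith
  calc ro μ L w τ i T R ^ 2 ≤ ((2 + s) ^ 2 * (Real.sqrt T * Real.sqrt R) *
        ro μ L w τ i 1 1) ^ 2 := pow_le_pow_left₀ (ro_nonneg μ _ _) h3 2
    _ = ((2 + s) ^ 2) ^ 2 * (Real.sqrt T ^ 2 * Real.sqrt R ^ 2) * ro μ L w τ i 1 1 ^ 2 := by ring
    _ = ((2 + s) ^ 2) ^ 2 * (T * R) * ro μ L w τ i 1 1 ^ 2 := by
        rw [Real.sq_sqrt (Nat.cast_nonneg _), Real.sq_sqrt (Nat.cast_nonneg _)]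
    _ ≤ 12 ^ 2 * (T * R) * ro μ L w τ i 1 1 ^ 2 := by
        have h5 : ((2 + s) ^ 2) ^ 2 ≤ 12 ^ 2 := pow_le_pow_left₀ (by positivity) h4 2
        gcongr
    _ = _ := by norm_num

end loops

end

end Pool.Agent.R990.TG
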