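import Mathlib
import Pool.Agent.R990.TG.Num
import Pool.Agent.R990.TG.Lp

/-!
# The mean plaquette in the vacuum
-/

open MeasureTheory Matrix Filter
open scoped Matrix.Norms.Frobenius ContDiff Topology
open Pool.Agent.H906R3.YM hiding Pl PP
open Pool.Agent.W793.YM Pool.Agent.TH618.YM Pool.Agent.Y14

namespace Pool.Agent.R990.TG

set_option linter.unusedSectionVars false
set_option linter.unusedVariables false

noncomputable section

section top

variable {X : Type*} [TopologicalSpace X] [CompactSpace X] [MeasurableSpace X] [BorelSpace X]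
  [SecondCountableTopology X] (μ : Measure X) [IsProbabilityMeasure μ] {K : X → X → ℝ}

/-- the eigenvalue of the positive eigenfunction is the largest one -/
theorem top_le (hK : Continuous (Function.uncurry K)) (hsym : ∀ x y, K x y = K y x)
    (h0 : ∀ x y, 0 ≤ K x y) {lam : ℝ} {Om : X → ℝ} (hO : Continuous Om) (hp : ∀ x, 0 < Om x)
    (hT : ∀ x, TK μ K Om x = lam * Om x) {f : X → ℝ} (hf : Continuous f) :
    ∫ x, f x * TK μ K f x ∂μ ≤ lam * ∫ x, f x ^ 2 ∂μ := by
  have h1 := dform μ hK hsym hO hT (F := fun x => f x / Om x) (hf.div hO fun x => (hp x).ne')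
  have e : ∀ x, f x / Om x * Om x = f x := fun x => div_mul_cancel₀ _ (hp x).ne'
  simp only [e] at h1
  have h2 : 0 ≤ ∫ z, K z.1 z.2 * (Om z.1 * Om z.2) * (f z.1 / Om z.1 - f z.2 / Om z.2) ^ 2
      ∂(μ.prod μ) := integral_nonneg fun z =>
    mul_nonneg (mul_nonneg (h0 _ _) (mul_pos (hp _) (hp _)).le) (sq_nonneg _)
  linarith

end top

variable {G : Type} [Group G] [TopologicalSpace G]
  [IsTopologicalGroup G] [CompactSpace G] [SecondCountableTopology G] [MeasurableSpace G]
  [BorelSpace G] (μ : Measure G) [IsProbabilityMeasure μ] [μ.IsMulLeftInvariant]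
  [μ.IsMulRightInvariant] [μ.IsInvInvariant] {N n : ℕ} {L : LD G N n} {D l : ℕ} [NeZero l]

variable (L) in
/-- the sum of the link terms -/
def ls1 {E : Type} [Fintype E] (U : E → G) : ℝ := ∑ e, we L (U e)

lemma ls1_cont {E : Type} [Fintype E] : Continuous (ls1 L : (E → G) → ℝ) :=
  continuous_finsetSum _ fun e _ => we_cont.comp (continuous_apply e)

lemma we_mul_inv_le (g h : G) : we L (g * h⁻¹) ≤ 2 * we L g + 2 * we L h := by
  have h1 := dv_mul (L := L) g h⁻¹
  rw [dv_inv] at h1
  have h2 := dv_sq (L := L) (g * h⁻¹)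
  have h3 := dv_sq (L := L) g
  have h4 := dv_sq (L := L) h
  have h5 := dv_nonneg (L := L) (g * h⁻¹)
  nlinarith [sq_nonneg (dv L g - dv L h)]

lemma kin_le {E : Type} [Fintype E] (U U' : E → G) :
    kin L U U' ≤ 2 * ls1 L U + 2 * ls1 L U' := by
  unfold kin ls1
  rw [Finset.mul_sum, Finset.mul_sum, ← Finset.sum_add_distrib]
  exact Finset.sum_le_sum fun e _ => we_mul_inv_le _ _

lemma we_plqT_le (U : Ed D l → G) (x : Fin D → ZMod l) (i j : Fin D) :
    we L (plqT U x i j) ≤ 4 * (we L (U (x, i)) + we L (U (x + eT i, j)) +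
      we L (U (x + eT j, i)) + we L (U (x, j))) := by
  unfold plqT
  obtain ⟨a, ha⟩ : ∃ a, a = U (x, i) := ⟨_, rfl⟩
  obtain ⟨b, hb⟩ : ∃ b, b = U (x + eT i, j) := ⟨_, rfl⟩
  obtain ⟨c, hc⟩ : ∃ c, c = U (x + eT j, i) := ⟨_, rfl⟩
  obtain ⟨e, he⟩ : ∃ e, e = U (x, j) := ⟨_, rfl⟩
  rw [← ha, ← hb, ← hc, ← he]
  have h1 := dv_mul (L := L) (a * b * c⁻¹) e⁻¹
  have h2 := dv_mul (L := L) (a * b) c⁻¹
  have h3 := dv_mul (L := L) a b
  rw [dv_inv] at h1 h2
  have h4 := dv_sq (L := L) (a * b * c⁻¹ * e⁻¹)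
  have h5 := dv_nonneg (L := L) (a * b * c⁻¹ * e⁻¹)
  have h6 := dv_sq (L := L) a
  have h7 := dv_sq (L := L) b
  have h8 := dv_sq (L := L) c
  have h9 := dv_sq (L := L) e
  have h10 : dv L (a * b * c⁻¹ * e⁻¹) ≤ dv L a + dv L b + dv L c + dv L e := by linarith
  nlinarith [sq_nonneg (dv L a - dv L b), sq_nonneg (dv L a - dv L c),
    sq_nonneg (dv L a - dv L e), sq_nonneg (dv L b - dv L c), sq_nonneg (dv L b - dv L e),
    sq_nonneg (dv L c - dv L e)]

lemma act_le (U : Ed D l → G) : act L U ≤ 16 * D * ls1 L U := by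
  unfold act ls1
  obtain ⟨S, hS⟩ : ∃ S : Fin D → ℝ, S = fun i => ∑ x : Fin D → ZMod l, we L (U (x, i)) := ⟨_, rfl⟩
  have hsum : ∑ e : Ed D l, we L (U e) = ∑ i, S i := by
    rw [Fintype.sum_prod_type_right, hS]
  have h1 : ∑ x, ∑ i, ∑ j, (if i < j then we L (plqT U x i j) else 0) ≤
      ∑ x : Fin D → ZMod l, ∑ i : Fin D, ∑ j : Fin D, 4 * (we L (U (x, i)) +
        we L (U (x + eT i, j)) + we L (U (x + eT j, i)) + we L (U (x, j))) := by
    refine Finset.sum_le_sum fun x _ => Finset.sum_le_sum fun i _ => Finset.sum_le_sum fun j _ => ?_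
    split_ifs
    · exact we_plqT_le U x i j
    · have h2 := we_nonneg (L := L) (U (x, i))
      have h3 := we_nonneg (L := L) (U (x + eT i, j))
      have h4 := we_nonneg (L := L) (U (x + eT j, i))
      have h5 := we_nonneg (L := L) (U (x, j))
      linarith
  refine h1.trans (le_of_eq ?_)
  rw [hsum, Finset.sum_comm]
  have h2 : ∀ i j : Fin D, ∑ x : Fin D → ZMod l, 4 * (we L (U (x, i)) +
      we L (U (x + eT i, j)) + we L (U (x + eT j, i)) + we L (U (x, j))) =
      4 * (2 * S i + 2 * S j) := by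
    intro i j
    have a1 : ∑ x : Fin D → ZMod l, we L (U (x + eT i, j)) = S j := by
      rw [hS]; exact Equiv.sum_comp (Equiv.addRight (eT i)) fun x => we L (U (x, j))
    have a2 : ∑ x : Fin D → ZMod l, we L (U (x + eT j, i)) = S i := by
      rw [hS]; exact Equiv.sum_comp (Equiv.addRight (eT j)) fun x => we L (U (x, i))
    have a3 : ∑ x : Fin D → ZMod l, we L (U (x, i)) = S i := by rw [hS]
    have a4 : ∑ x : Fin D → ZMod l, we L (U (x, j)) = S j := by rw [hS]
    rw [← Finset.mul_sum, Finset.sum_add_distrib, Finset.sum_add_distrib,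
      Finset.sum_add_distrib, a1, a2, a3, a4]
    ring
  have h3 : ∀ i : Fin D, ∑ x : Fin D → ZMod l, ∑ j : Fin D, 4 * (we L (U (x, i)) +
      we L (U (x + eT i, j)) + we L (U (x + eT j, i)) + we L (U (x, j))) =
      ∑ j : Fin D, 4 * (2 * S i + 2 * S j) := by
    intro i
    rw [Finset.sum_comm]
    exact Finset.sum_congr rfl fun j _ => h2 i j
  rw [Finset.sum_congr rfl fun i _ => h3 i]
  simp only [← Finset.mul_sum, Finset.sum_add_distrib, Finset.sum_const, Finset.card_univ,
    Fintype.card_fin, nsmul_eq_mul]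
  ring

lemma pow_int (E : Type) [Fintype E] (b : ℝ) :
    ∫ U : E → G, Real.exp (-(b * ls1 L U)) ∂(ME μ E) = zz μ L b ^ Fintype.card E := by
  unfold zz
  rw [← integral_fintype_prod_eq_pow]
  refine integral_congr_ae (Filter.Eventually.of_forall fun U => ?_)
  simp only
  rw [← Real.exp_sum]
  congr 1
  unfold ls1
  rw [Finset.mul_sum, ← Finset.sum_neg_distrib]

lemma row_int (E : Type) [Fintype E] (b : ℝ) (U : E → G) :
    ∫ U' : E → G, Real.exp (-(b * kin L U' U)) ∂(ME μ E) = zz μ L b ^ Fintype.card E := by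
  have h : ∀ e : E, ∫ g, Real.exp (-(b * we L (g * (U e)⁻¹))) ∂μ = zz μ L b := fun e =>
    integral_mul_right_eq_self (fun g => Real.exp (-(b * we L g))) _
  have h2 := integral_fintype_prod_eq_prod (ι := E) (μ := fun _ => μ)
    (fun e g => Real.exp (-(b * we L (g * (U e)⁻¹))))
  simp only [h, Finset.prod_const, Finset.card_univ] at h2
  rw [← h2]
  refine integral_congr_ae (Filter.Eventually.of_forall fun U' => ?_)
  simp only
  rw [← Real.exp_sum]
  congr 1
  unfold kin
  rw [Finset.mul_sum, ← Finset.sum_neg_distrib]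

/-- **The mean magnetic energy in the vacuum.** -/
theorem mag_bound {β : ℝ} (hβ : 0 < β) {lam : ℝ} (hlam : 0 < lam) {Om : (Ed D l → G) → ℝ}
    (hO : Continuous Om) (hp : ∀ U, 0 < Om U)
    (hT : ∀ U, TK (ME μ (Ed D l)) (KK L β) Om U = lam * Om U) :
    β * ((∫ U, Om U ^ 2 * act L U ∂(ME μ (Ed D l))) / ∫ U, Om U ^ 2 ∂(ME μ (Ed D l))) ≤
      2 * N ^ 2 * Fintype.card (Ed D l) * Real.log (8 * D + 3) := by
  obtain ⟨ν, hν⟩ : ∃ ν, ν = ME μ (Ed D l) := ⟨_, rfl⟩
  have hνp : IsProbabilityMeasure ν := by rw [hν]; infer_instance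
  rw [← hν] at hT ⊢
  obtain ⟨k, hk⟩ : ∃ k, k = Fintype.card (Ed D l) := ⟨_, rfl⟩
  obtain ⟨M, hM⟩ : ∃ M : ℝ, M = 8 * D + 3 := ⟨_, rfl⟩
  have hM1 : 1 ≤ M := by rw [hM]; have : (0 : ℝ) ≤ D := Nat.cast_nonneg D; linarith
  have hKc := KK_cont (L := L) (D := D) (l := l) β
  have c1 : Continuous fun z : (Ed D l → G) × (Ed D l → G) => Om z.1 := hO.comp continuous_fst
  have c2 : Continuous fun z : (Ed D l → G) × (Ed D l → G) => Om z.2 := hO.comp continuous_snd
  have ck : Continuous fun z : (Ed D l → G) × (Ed D l → G) => Real.exp (-(β * kin L z.1 z.2)) :=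
    Real.continuous_exp.comp (continuous_const.mul kin_cont).neg
  have cK : Continuous fun z : (Ed D l → G) × (Ed D l → G) => KK L β z.1 z.2 := hKc
  have cv1 : Continuous fun z : (Ed D l → G) × (Ed D l → G) => act L z.1 :=
    act_cont.comp continuous_fst
  have cv2 : Continuous fun z : (Ed D l → G) × (Ed D l → G) => act L z.2 :=
    act_cont.comp continuous_snd
  -- the norm
  obtain ⟨I, hI⟩ : ∃ I, I = ∫ U, Om U ^ 2 ∂ν := ⟨_, rfl⟩
  have hI0 : 0 < I := by
    rw [hI]
    refine (integral_pos_iff_support_of_nonneg (fun x => (pow_pos (hp x) 2).le)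
      (cint ν (hO.pow 2))).2 ?_
    have : Function.support (fun U => Om U ^ 2) = Set.univ :=
      Set.eq_univ_of_forall fun y => (pow_pos (hp y) 2).ne'
    rw [this]; simp
  -- S3
  have s3 : ∫ z, Real.exp (-(β * kin L z.1 z.2)) * (Om z.1 * Om z.2) ∂(ν.prod ν) ≤
      zz μ L β ^ k * I := by
    have j1 : Integrable (fun z : (Ed D l → G) × (Ed D l → G) =>
        Real.exp (-(β * kin L z.1 z.2)) * Om z.1 ^ 2) (ν.prod ν) :=
      cint2 ν (ck.mul (c1.pow 2))
    have j2 : Integrable (fun z : (Ed D l → G) × (Ed D l → G) =>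
        Real.exp (-(β * kin L z.1 z.2)) * Om z.2 ^ 2) (ν.prod ν) :=
      cint2 ν (ck.mul (c2.pow 2))
    have e1 : ∫ z, Real.exp (-(β * kin L z.1 z.2)) * Om z.1 ^ 2 ∂(ν.prod ν) =
        zz μ L β ^ k * I := by
      rw [integral_prod _ j1, hI, ← integral_const_mul]
      refine integral_congr_ae (Filter.Eventually.of_forall fun U => ?_)
      simp only
      rw [integral_mul_const]
      congr 1
      have h1 : ∀ U', kin L U U' = kin L U' U := fun U' => kin_symm U U'
      simp only [h1]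
      rw [hν, hk]
      exact row_int μ (Ed D l) β U
    have e2 : ∫ z, Real.exp (-(β * kin L z.1 z.2)) * Om z.2 ^ 2 ∂(ν.prod ν) =
        zz μ L β ^ k * I := by
      rw [integral_prod_symm _ j2, hI, ← integral_const_mul]
      refine integral_congr_ae (Filter.Eventually.of_forall fun U => ?_)
      simp only
      rw [integral_mul_const]
      congr 1
      rw [hν, hk]
      exact row_int μ (Ed D l) β U
    have e3 : ∫ z, Real.exp (-(β * kin L z.1 z.2)) * (Om z.1 * Om z.2) ∂(ν.prod ν) ≤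
        ∫ z, ((1 / 2) * (Real.exp (-(β * kin L z.1 z.2)) * Om z.1 ^ 2) +
          (1 / 2) * (Real.exp (-(β * kin L z.1 z.2)) * Om z.2 ^ 2)) ∂(ν.prod ν) := by
      refine integral_mono (cint2 ν (ck.mul (c1.mul c2))) ((j1.const_mul _).add (j2.const_mul _))
        fun z => ?_
      simp only
      nlinarith [mul_nonneg (Real.exp_pos (-(β * kin L z.1 z.2))).le
        (sq_nonneg (Om z.1 - Om z.2))]
    have j3 : Integrable (fun z : (Ed D l → G) × (Ed D l → G) =>
        (1 / 2 : ℝ) * (Real.exp (-(β * kin L z.1 z.2)) * Om z.1 ^ 2)) (ν.prod ν) :=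
      j1.const_mul _
    have j4 : Integrable (fun z : (Ed D l → G) × (Ed D l → G) =>
        (1 / 2 : ℝ) * (Real.exp (-(β * kin L z.1 z.2)) * Om z.2 ^ 2)) (ν.prod ν) :=
      j2.const_mul _
    rw [integral_add j3 j4, integral_const_mul, integral_const_mul, e1, e2] at e3
    linarith
  -- S4
  obtain ⟨V, hV⟩ : ∃ V, V = (∫ U, Om U ^ 2 * act L U ∂ν) / I := ⟨_, rfl⟩
  have s4 : Real.exp (β * V) * (lam * I) ≤
      ∫ z, Real.exp (-(β * kin L z.1 z.2)) * (Om z.1 * Om z.2) ∂(ν.prod ν) := by
    have j0 : Integrable (fun z : (Ed D l → G) × (Ed D l → G) =>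
        KK L β z.1 z.2 * (Om z.1 * Om z.2)) (ν.prod ν) := cint2 ν (cK.mul (c1.mul c2))
    have j1 : Integrable (fun z : (Ed D l → G) × (Ed D l → G) =>
        KK L β z.1 z.2 * (Om z.1 * Om z.2) * act L z.1) (ν.prod ν) :=
      cint2 ν ((cK.mul (c1.mul c2)).mul cv1)
    have j2 : Integrable (fun z : (Ed D l → G) × (Ed D l → G) =>
        KK L β z.1 z.2 * (Om z.1 * Om z.2) * act L z.2) (ν.prod ν) :=
      cint2 ν ((cK.mul (c1.mul c2)).mul cv2)
    have hrow : ∀ U, ∫ U', KK L β U U' * Om U' ∂ν = lam * Om U := hT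
    have e0 : ∫ z, KK L β z.1 z.2 * (Om z.1 * Om z.2) ∂(ν.prod ν) = lam * I := by
      rw [integral_prod _ j0, hI, ← integral_const_mul]
      refine integral_congr_ae (Filter.Eventually.of_forall fun U => ?_)
      simp only
      have h1 : ∀ U', KK L β U U' * (Om U * Om U') = Om U * (KK L β U U' * Om U') :=
        fun U' => by ring
      simp only [h1]
      rw [integral_const_mul, hrow]; ring
    have e1 : ∫ z, KK L β z.1 z.2 * (Om z.1 * Om z.2) * act L z.1 ∂(ν.prod ν) =
        lam * (V * I) := by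
      have hVI : V * I = ∫ U, Om U ^ 2 * act L U ∂ν := by
        rw [hV]; field_simp
      rw [integral_prod _ j1, hVI, ← integral_const_mul]
      refine integral_congr_ae (Filter.Eventually.of_forall fun U => ?_)
      simp only
      have h1 : ∀ U', KK L β U U' * (Om U * Om U') * act L U =
        (Om U * act L U) * (KK L β U U' * Om U') := fun U' => by ring
      simp only [h1]
      rw [integral_const_mul, hrow]; ring
    have e2 : ∫ z, KK L β z.1 z.2 * (Om z.1 * Om z.2) * act L z.2 ∂(ν.prod ν) =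
        lam * (V * I) := by
      have hVI : V * I = ∫ U, Om U ^ 2 * act L U ∂ν := by
        rw [hV]; field_simp
      rw [integral_prod_symm _ j2, hVI, ← integral_const_mul]
      refine integral_congr_ae (Filter.Eventually.of_forall fun U => ?_)
      simp only
      have h1 : ∀ U', KK L β U' U * (Om U' * Om U) * act L U =
        (Om U * act L U) * (KK L β U U' * Om U') := fun U' => by
          rw [KK_symm β U' U]; ring
      simp only [h1]
      rw [integral_const_mul, hrow]; ring
    have e3 : ∫ z, (Real.exp (β * V) * ((1 - β * V) * (KK L β z.1 z.2 * (Om z.1 * Om z.2)) +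
        β / 2 * (KK L β z.1 z.2 * (Om z.1 * Om z.2) * act L z.1) +
        β / 2 * (KK L β z.1 z.2 * (Om z.1 * Om z.2) * act L z.2))) ∂(ν.prod ν) ≤
        ∫ z, Real.exp (-(β * kin L z.1 z.2)) * (Om z.1 * Om z.2) ∂(ν.prod ν) := by
      refine integral_mono ((((j0.const_mul _).add (j1.const_mul _)).add
        (j2.const_mul _)).const_mul _) (cint2 ν (ck.mul (c1.mul c2))) fun z => ?_
      simp only [Pi.add_apply]
      have h1 : Real.exp (-(β * kin L z.1 z.2)) =
          KK L β z.1 z.2 * Real.exp (β * ((act L z.1 + act L z.2) / 2)) := by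
        unfold KK
        rw [← Real.exp_add]
        congr 1; ring
      have h2 : Real.exp (β * V) * (1 + (β * ((act L z.1 + act L z.2) / 2) - β * V)) ≤
          Real.exp (β * ((act L z.1 + act L z.2) / 2)) := by
        have h3 := Real.add_one_le_exp (β * ((act L z.1 + act L z.2) / 2) - β * V)
        have h4 := mul_le_mul_of_nonneg_left h3 (Real.exp_pos (β * V)).le
        rw [← Real.exp_add] at h4
        have h5 : β * V + (β * ((act L z.1 + act L z.2) / 2) - β * V) =
            β * ((act L z.1 + act L z.2) / 2) := by ring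
        rw [h5] at h4
        linarith
      have h6 : 0 ≤ KK L β z.1 z.2 * (Om z.1 * Om z.2) :=
        mul_nonneg (KK_pos β _ _).le (mul_pos (hp _) (hp _)).le
      have h7 := mul_le_mul_of_nonneg_left h2 h6
      rw [h1]
      refine le_trans (le_of_eq ?_) (h7.trans (le_of_eq ?_)) <;> ring
    have j5 : Integrable (fun z : (Ed D l → G) × (Ed D l → G) =>
        (1 - β * V) * (KK L β z.1 z.2 * (Om z.1 * Om z.2))) (ν.prod ν) := j0.const_mul _
    have j6 : Integrable (fun z : (Ed D l → G) × (Ed D l → G) =>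
        β / 2 * (KK L β z.1 z.2 * (Om z.1 * Om z.2) * act L z.1)) (ν.prod ν) := j1.const_mul _
    have j7 : Integrable (fun z : (Ed D l → G) × (Ed D l → G) =>
        β / 2 * (KK L β z.1 z.2 * (Om z.1 * Om z.2) * act L z.2)) (ν.prod ν) := j2.const_mul _
    have j8 : Integrable (fun z : (Ed D l → G) × (Ed D l → G) =>
        (1 - β * V) * (KK L β z.1 z.2 * (Om z.1 * Om z.2)) +
        β / 2 * (KK L β z.1 z.2 * (Om z.1 * Om z.2) * act L z.1)) (ν.prod ν) := j5.add j6
    rw [integral_const_mul, integral_add j8 j7, integral_add j5 j6, integral_const_mul,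
      integral_const_mul, integral_const_mul, e0, e1, e2] at e3
    refine le_trans (le_of_eq ?_) e3
    ring
  -- S2
  have s2 : zz μ L (M * β) ^ (2 * k) ≤ lam * zz μ L (2 * β) ^ k := by
    have hf : Continuous fun U : Ed D l → G => Real.exp (-(β * ls1 L U)) :=
      Real.continuous_exp.comp (continuous_const.mul ls1_cont).neg
    have h1 := top_le ν hKc (KK_symm β) (fun x y => (KK_pos β x y).le) hO hp hT hf
    have e1 : ∫ U, Real.exp (-(β * ls1 L U)) ^ 2 ∂ν = zz μ L (2 * β) ^ k := by
      rw [hk, ← pow_int μ (Ed D l) (2 * β), hν]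
      refine integral_congr_ae (Filter.Eventually.of_forall fun U => ?_)
      simp only
      rw [pow_two, ← Real.exp_add]
      congr 1; ring
    rw [e1] at h1
    refine le_trans ?_ h1
    have hM0 : Continuous fun U : Ed D l → G => Real.exp (-(M * β * ls1 L U)) :=
      Real.continuous_exp.comp (continuous_const.mul ls1_cont).neg
    have e2 : zz μ L (M * β) ^ (2 * k) =
        ∫ U, Real.exp (-(M * β * ls1 L U)) * zz μ L (M * β) ^ k ∂ν := by
      rw [integral_mul_const, hν, pow_int μ (Ed D l) (M * β), ← hk, two_mul, pow_add]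
    rw [e2]
    refine integral_mono (cint ν (hM0.mul continuous_const))
      (cint ν (hf.mul (TK_cont ν hKc hf))) fun U => ?_
    simp only
    have e3 : zz μ L (M * β) ^ k = ∫ U', Real.exp (-(M * β * ls1 L U')) ∂ν := by
      rw [hν, hk]; exact (pow_int μ (Ed D l) (M * β)).symm
    unfold TK
    rw [e3, ← integral_const_mul, ← integral_const_mul]
    refine integral_mono (cint ν (continuous_const.mul hM0))
      (cint ν (continuous_const.mul ((K1 hKc U).mul hf))) fun U' => ?_
    simp only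
    unfold KK
    rw [← Real.exp_add, ← Real.exp_add, ← Real.exp_add]
    refine Real.exp_le_exp.2 ?_
    have h2 := kin_le (L := L) U U'
    have h3 := act_le (L := L) U
    have h4 := act_le (L := L) U'
    have h5 : kin L U U' + (act L U + act L U') / 2 ≤
        (M - 1) * (ls1 L U + ls1 L U') := by
      rw [hM]; linarith
    have h6 := mul_le_mul_of_nonneg_left h5 hβ.le
    linarith
  -- S5
  have hz1 : 0 < zz μ L (M * β) := zz_pos μ _
  have hMN : (0 : ℝ) < M ^ (N ^ 2) := by positivity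
  have d1 : zz μ L β ≤ M ^ (N ^ 2) * zz μ L (M * β) := by
    have h1 := zz_doubling μ (L := L) hβ (b' := M * β) (by nlinarith)
    rw [mul_pow] at h1
    have h2 : (0 : ℝ) < β ^ (N ^ 2) := by positivity
    have h3 : β ^ (N ^ 2) * zz μ L β ≤ β ^ (N ^ 2) * (M ^ (N ^ 2) * zz μ L (M * β)) := by
      linarith
    exact le_of_mul_le_mul_left h3 h2
  have d2 : zz μ L (2 * β) ≤ M ^ (N ^ 2) * zz μ L (M * β) :=
    (zz_anti μ (by linarith)).trans d1
  have hfin : Real.exp (β * V) ≤ (M ^ (N ^ 2)) ^ (2 * k) := by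
    have h1 : Real.exp (β * V) * lam ≤ zz μ L β ^ k := by
      have h2 := s4.trans s3
      have h3 : I * (Real.exp (β * V) * lam) ≤ I * zz μ L β ^ k := by linarith
      exact le_of_mul_le_mul_left h3 hI0
    have h2 : Real.exp (β * V) * zz μ L (M * β) ^ (2 * k) ≤
        (M ^ (N ^ 2)) ^ (2 * k) * zz μ L (M * β) ^ (2 * k) := by
      calc Real.exp (β * V) * zz μ L (M * β) ^ (2 * k) ≤
            Real.exp (β * V) * (lam * zz μ L (2 * β) ^ k) :=
            mul_le_mul_of_nonneg_left s2 (Real.exp_pos _).le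
        _ = (Real.exp (β * V) * lam) * zz μ L (2 * β) ^ k := by ring
        _ ≤ zz μ L β ^ k * zz μ L (2 * β) ^ k :=
            mul_le_mul_of_nonneg_right h1 (pow_pos (zz_pos μ _) k).le
        _ ≤ (M ^ (N ^ 2) * zz μ L (M * β)) ^ k * (M ^ (N ^ 2) * zz μ L (M * β)) ^ k :=
            mul_le_mul (pow_le_pow_left₀ (zz_pos μ _).le d1 k)
              (pow_le_pow_left₀ (zz_pos μ _).le d2 k) (pow_pos (zz_pos μ _) k).le
              (by positivity)
        _ = _ := by rw [two_mul, pow_add, pow_add, mul_pow]; ring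
    exact le_of_mul_le_mul_right h2 (by positivity)
  have h1 := Real.log_le_log (Real.exp_pos _) hfin
  rw [Real.log_exp, Real.log_pow, Real.log_pow] at h1
  rw [← hI, ← hV, ← hk, ← hM]
  refine h1.trans (le_of_eq ?_)
  push_cast
  ring

end

end Pool.Agent.R990.TG
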