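import Mathlib
import Pool.Agent.R990.TG.Lp

/-!
# Pairs of Polyakov loops
-/

open MeasureTheory Matrix Filter
open scoped Matrix.Norms.Frobenius ContDiff Topology
open Pool.Agent.H906R3.YM hiding Pl PP
open Pool.Agent.W793.YM Pool.Agent.TH618.YM Pool.Agent.Y14

namespace Pool.Agent.R990.TG

set_option linter.unusedSectionVars false
set_option linter.unusedVariables false

noncomputable section

variable {G : Type} [Group G] [TopologicalSpace G]
  [IsTopologicalGroup G] [CompactSpace G] [SecondCountableTopology G] [MeasurableSpace G]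
  [BorelSpace G] (μ : Measure G) [IsProbabilityMeasure μ] [μ.IsMulLeftInvariant]
  [μ.IsMulRightInvariant] [μ.IsInvInvariant] {N n : ℕ} {L : LD G N n}
  {D m : ℕ} [NeZero m] {w : (Ed D (2 * m) → G) → ℝ}

/-! ### transports along blocks -/

section blocks

/-- the transport along a list of segments -/
def bt (U : Ed D (2 * m) → G) : List (Fin D × ℕ) → (Fin D → ZMod (2 * m)) → G
  | [], _ => 1
  | p :: bs, x => ln U p.1 p.2 x * bt U bs (x + p.2 • eT p.1)

variable (m) in
/-- the displacement of a list of segments -/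
def bd : List (Fin D × ℕ) → (Fin D → ZMod (2 * m))
  | [] => 0
  | p :: bs => p.2 • eT p.1 + bd bs

lemma bt_cont (bs : List (Fin D × ℕ)) (x : Fin D → ZMod (2 * m)) :
    Continuous fun U : Ed D (2 * m) → G => bt U bs x := by
  induction bs generalizing x with
  | nil => exact continuous_const
  | cons p bs ih => exact (ln_cont _ _ _).mul (ih _)

variable {τ : Fin D}

lemma dd_step (U : Ed D (2 * m) → G) (T : ℕ) (p : Fin D × ℕ) (bs : List (Fin D × ℕ))
    (x : Fin D → ZMod (2 * m)) :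
    dd L (ln U τ T x * bt U (p :: bs) (x + T • eT τ))
      (bt U (p :: bs) x * ln U τ T (x + bd m (p :: bs))) ≤
    dv L (rect U x τ p.1 T p.2) + dd L (ln U τ T (x + p.2 • eT p.1) *
      bt U bs (x + p.2 • eT p.1 + T • eT τ))
      (bt U bs (x + p.2 • eT p.1) * ln U τ T (x + p.2 • eT p.1 + bd m bs)) := by
  have e1 : x + T • eT τ + p.2 • eT p.1 = x + p.2 • eT p.1 + T • (eT τ : Fin D → ZMod (2 * m)) := by
    abel
  have e2 : x + bd m (p :: bs) = x + p.2 • eT p.1 + bd m bs := by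
    show x + (p.2 • eT p.1 + bd m bs) = _
    abel
  have e3 : bt U (p :: bs) (x + T • eT τ) = ln U p.1 p.2 (x + T • eT τ) *
      bt U bs (x + p.2 • eT p.1 + T • eT τ) := by
    rw [← e1]; rfl
  have e4 : bt U (p :: bs) x = ln U p.1 p.2 x * bt U bs (x + p.2 • eT p.1) := rfl
  rw [e2, e3, e4]
  refine (dd_tri _ (ln U p.1 p.2 x * (ln U τ T (x + p.2 • eT p.1) *
    bt U bs (x + p.2 • eT p.1 + T • eT τ))) _).trans (add_le_add (le_of_eq ?_) (le_of_eq ?_))
  · rw [← mul_assoc, ← mul_assoc, dd_rmul, dd_dv]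
    congr 1
    unfold rect
    group
  · rw [mul_assoc, dd_lmul]

lemma dd_cont {f g : (Ed D (2 * m) → G) → G} (hf : Continuous f) (hg : Continuous g) :
    Continuous fun U => dd L (f U) (g U) := by
  unfold dd
  exact ((L.cont.comp hf).sub (L.cont.comp hg)).norm

/-- moving a line along blocks -/
theorem cm (h : St μ D m w) (T : ℕ) (bs : List (Fin D × ℕ)) (x : Fin D → ZMod (2 * m)) :
    qn μ w (fun U => dd L (ln U τ T x * bt U bs (x + T • eT τ))
      (bt U bs x * ln U τ T (x + bd m bs))) ≤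
      (bs.map fun p => ro μ L w τ p.1 T p.2).sum := by
  induction bs generalizing x with
  | nil =>
    have e : (fun U : Ed D (2 * m) → G => dd L (ln U τ T x * bt U [] (x + T • eT τ))
      (bt U [] x * ln U τ T (x + bd m []))) = fun _ => (0 : ℝ) := by
      funext U
      show dd L (ln U τ T x * 1) (1 * ln U τ T (x + 0)) = 0
      rw [mul_one, one_mul, add_zero]
      unfold dd
      rw [sub_self, norm_zero]
    rw [e]
    unfold qn
    have e2 : (fun _ : Ed D (2 * m) → G => (0 : ℝ) ^ 2) = fun _ => (0 : ℝ) := by funext U; ring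
    rw [e2, Ev_const μ h]
    simp
  | cons p bs ih =>
    have c1 : Continuous fun U : Ed D (2 * m) → G => dv L (rect U x τ p.1 T p.2) :=
      dv_cont.comp (rect_cont _ _ _ _ _)
    have c2 : Continuous fun U : Ed D (2 * m) → G => dd L (ln U τ T (x + p.2 • eT p.1) *
      bt U bs (x + p.2 • eT p.1 + T • eT τ))
      (bt U bs (x + p.2 • eT p.1) * ln U τ T (x + p.2 • eT p.1 + bd m bs)) :=
      dd_cont ((ln_cont _ _ _).mul (bt_cont _ _)) ((bt_cont _ _).mul (ln_cont _ _ _))
    have c3 : Continuous fun U : Ed D (2 * m) → G => dd L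
        (ln U τ T x * bt U (p :: bs) (x + T • eT τ))
        (bt U (p :: bs) x * ln U τ T (x + bd m (p :: bs))) :=
      dd_cont ((ln_cont _ _ _).mul (bt_cont _ _)) ((bt_cont _ _).mul (ln_cont _ _ _))
    have c12 : Continuous fun U : Ed D (2 * m) → G => dv L (rect U x τ p.1 T p.2) +
      dd L (ln U τ T (x + p.2 • eT p.1) * bt U bs (x + p.2 • eT p.1 + T • eT τ))
      (bt U bs (x + p.2 • eT p.1) * ln U τ T (x + p.2 • eT p.1 + bd m bs)) := c1.add c2
    have h1 := qn_mono μ h c3 c12 (fun U => norm_nonneg _) fun U => dd_step U T p bs x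
    have h2 := qn_add μ h c1 c2
    have h3 := ih (x + p.2 • eT p.1)
    have h4 : qn μ w (fun U : Ed D (2 * m) → G => dv L (rect U x τ p.1 T p.2)) =
        ro μ L w τ p.1 T p.2 := by
      unfold ro
      rw [← qn_tr μ h x (fun U => dv L (rect U 0 τ p.1 T p.2))]
      simp only [rect_tr, zero_add]
    rw [List.map_cons, List.sum_cons, ← h4]
    linarith

end blocks

/-! ### sums over indices -/

section alg

variable {N : ℕ}

lemma tr_conjT (a b : Mat N) : trace (a * bᴴ) =
    ∑ i, ∑ j, a i j * (starRingEnd ℂ) (b i j) := by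
  rw [trace]
  refine Finset.sum_congr rfl fun i _ => ?_
  rw [diag_apply, mul_apply]
  rfl

lemma alg1 (a b s t : Mat N) :
    ∑ k : (Fin N × Fin N) × (Fin N × Fin N), a k.1.1 k.1.2 * (starRingEnd ℂ) (b k.2.1 k.2.2) *
      (starRingEnd ℂ) (s k.1.1 k.2.1 * (starRingEnd ℂ) (t k.1.2 k.2.2)) =
      trace (a * t * (s * b)ᴴ) := by
  rw [Fintype.sum_prod_type]
  simp only [Fintype.sum_prod_type]
  rw [tr_conjT]
  refine Finset.sum_congr rfl fun i _ => ?_
  have h1 : ∀ l, (a * t) i l * (starRingEnd ℂ) ((s * b) i l) =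
      ∑ j, ∑ k, a i j * (starRingEnd ℂ) (b k l) *
        (starRingEnd ℂ) (s i k * (starRingEnd ℂ) (t j l)) := by
    intro l
    rw [mul_apply, mul_apply, map_sum, Finset.sum_mul_sum]
    refine Finset.sum_congr rfl fun j _ => Finset.sum_congr rfl fun k _ => ?_
    simp only [map_mul, Complex.conj_conj]
    ring
  simp only [h1]
  symm
  refine Finset.sum_comm.trans (Finset.sum_congr rfl fun j _ => ?_)
  exact Finset.sum_comm

lemma alg2 (a b a' b' : Mat N) :
    ∑ k : (Fin N × Fin N) × (Fin N × Fin N), a k.1.1 k.1.2 * (starRingEnd ℂ) (b k.2.1 k.2.2) *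
      (starRingEnd ℂ) (a' k.1.1 k.1.2 * (starRingEnd ℂ) (b' k.2.1 k.2.2)) =
      trace (a * a'ᴴ) * (starRingEnd ℂ) (trace (b * b'ᴴ)) := by
  have e : ∀ a b : Mat N, trace (a * bᴴ) =
      ∑ p : Fin N × Fin N, a p.1 p.2 * (starRingEnd ℂ) (b p.1 p.2) := fun a b => by
    rw [tr_conjT, Fintype.sum_prod_type]
  rw [Fintype.sum_prod_type, e, e, map_sum, Finset.sum_mul_sum]
  refine Finset.sum_congr rfl fun j _ => Finset.sum_congr rfl fun k _ => ?_
  simp only [map_mul, Complex.conj_conj]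
  ring

lemma alg3 (s t : Mat N) :
    ∑ k : (Fin N × Fin N) × (Fin N × Fin N), s k.1.1 k.2.1 * (starRingEnd ℂ) (t k.1.2 k.2.2) *
      (starRingEnd ℂ) (s k.1.1 k.2.1 * (starRingEnd ℂ) (t k.1.2 k.2.2)) =
      trace (s * sᴴ) * trace (t * tᴴ) := by
  rw [Fintype.sum_prod_type]
  simp only [Fintype.sum_prod_type]
  rw [tr_conjT, tr_conjT, Finset.sum_mul_sum]
  refine Finset.sum_congr rfl fun i _ => Finset.sum_congr rfl fun j _ => ?_
  rw [Finset.sum_mul_sum]
  refine Finset.sum_congr rfl fun k _ => Finset.sum_congr rfl fun l _ => ?_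
  simp only [map_mul, Complex.conj_conj]
  ring

lemma dd_re {G : Type} [Group G] [TopologicalSpace G]
    [IsTopologicalGroup G] [CompactSpace G] [SecondCountableTopology G] [MeasurableSpace G]
    [BorelSpace G] {N n : ℕ} {L : LD G N n} (g h : G) :
    (trace (L.rho g * (L.rho h)ᴴ)).re = N - (1 / 2) * dd L g h ^ 2 := by
  rw [dd_dv, dv_sq, we_tr, map_mul, L.rho_inv]
  ring

lemma tr_one' {G : Type} [Group G] [TopologicalSpace G] {N n : ℕ} {L : LD G N n} (g : G) :
    trace (L.rho g * (L.rho g)ᴴ) = N := by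
  rw [L.unit, trace_one, Fintype.card_fin]

end alg

/-! ### the inequality for pairs -/

section pair

/-- the complex trace -/
def tc (L : LD G N n) (g : G) : ℂ := trace (L.rho g)

lemma tc_cont : Continuous (tc L) := L.cont.matrix_trace

lemma re_mul_conj (p q : ℂ) : (p * (starRingEnd ℂ) q).re = p.re * q.re + p.im * q.im := by
  simp [Complex.mul_re]

variable {hm : 2 ≤ m} {i0 : Fin D}

/-- **Pairs of Polyakov loops.** -/
theorem pair_ge (h : St μ D m w) (hm : 2 ≤ m) (i0 : Fin D) {A B S0 Sm : (Ed D (2 * m) → G) → G}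
    (hA : Continuous A) (hB : Continuous B) (hS0 : Continuous S0) (hSm : Continuous Sm)
    (dA : Dep (fun e => PP i0 e ∨ (SR hm i0).R e) A)
    (dB : Dep (fun e => PP i0 e ∨ (SR hm i0).R e) B)
    (dS0 : Dep (fun e => PP i0 e ∨ (SR hm i0).R e) S0)
    (dSm : Dep (fun e => PP i0 e ∨ (SR hm i0).R e) Sm)
    (iS0 : ∀ U, S0 ((SR hm i0).tU U) = S0 U) (iSm : ∀ U, Sm ((SR hm i0).tU U) = Sm U) :
    (N - (1 / 2) * qn μ w (fun U => dd L (A U * Sm U) (S0 U * B U)) ^ 2) ^ 2 ≤
      N ^ 2 * Ev μ w (fun U => (tc L (A U * (A ((SR hm i0).tU U))⁻¹) *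
        (starRingEnd ℂ) (tc L (B U * (B ((SR hm i0).tU U))⁻¹))).re) := by
  obtain ⟨Θ, hΘ⟩ : ∃ Θ, Θ = (SR hm i0).tU (G := G) := ⟨_, rfl⟩
  have hΘc : Continuous Θ := by rw [hΘ]; exact (SR hm i0).tU_cont
  -- the families
  obtain ⟨F, hF⟩ : ∃ F : (Fin N × Fin N) × (Fin N × Fin N) → (Ed D (2 * m) → G) → ℂ,
      F = fun k U => L.rho (A U) k.1.1 k.1.2 * (starRingEnd ℂ) (L.rho (B U) k.2.1 k.2.2) := ⟨_, rfl⟩
  obtain ⟨H, hH⟩ : ∃ H : (Fin N × Fin N) × (Fin N × Fin N) → (Ed D (2 * m) → G) → ℂ,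
      H = fun k U => L.rho (S0 U) k.1.1 k.2.1 * (starRingEnd ℂ) (L.rho (Sm U) k.1.2 k.2.2) :=
    ⟨_, rfl⟩
  have hent : ∀ {g : (Ed D (2 * m) → G) → G}, Continuous g → ∀ i j,
      Continuous fun U => L.rho (g U) i j := fun hg i j => (L.cont.comp hg).matrix_elem i j
  have cF : ∀ k, Continuous (F k) := fun k => by
    rw [hF]
    exact (hent hA _ _).mul (Complex.continuous_conj.comp (hent hB _ _))
  have cH : ∀ k, Continuous (H k) := fun k => by
    rw [hH]
    exact (hent hS0 _ _).mul (Complex.continuous_conj.comp (hent hSm _ _))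
  have dF : ∀ k, Dep (fun e => PP i0 e ∨ (SR hm i0).R e) (F k) := fun k U U' hU => by
    rw [hF]
    simp only
    rw [dA U U' hU, dB U U' hU]
  have dH : ∀ k, Dep (fun e => PP i0 e ∨ (SR hm i0).R e) (H k) := fun k U U' hU => by
    rw [hH]
    simp only
    rw [dS0 U U' hU, dSm U U' hU]
  have iH : ∀ k U, H k (Θ U) = H k U := fun k U => by
    rw [hH, hΘ]
    simp only
    rw [iS0, iSm]
  obtain ⟨f, hf⟩ : ∃ f : ((Fin N × Fin N) × (Fin N × Fin N)) × Bool → (Ed D (2 * m) → G) → ℝ,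
      f = fun k U => if k.2 then (F k.1 U).re else (F k.1 U).im := ⟨_, rfl⟩
  obtain ⟨g, hg⟩ : ∃ g : ((Fin N × Fin N) × (Fin N × Fin N)) × Bool → (Ed D (2 * m) → G) → ℝ,
      g = fun k U => if k.2 then (H k.1 U).re else (H k.1 U).im := ⟨_, rfl⟩
  have cf : ∀ k, Continuous (f k) := by
    rintro ⟨k, b⟩
    rw [hf]
    cases b
    · simp only [Bool.false_eq_true, if_false]; exact Complex.continuous_im.comp (cF k)
    · simp only [if_true]; exact Complex.continuous_re.comp (cF k)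
  have cg : ∀ k, Continuous (g k) := by
    rintro ⟨k, b⟩
    rw [hg]
    cases b
    · simp only [Bool.false_eq_true, if_false]; exact Complex.continuous_im.comp (cH k)
    · simp only [if_true]; exact Complex.continuous_re.comp (cH k)
  have df : ∀ k, Dep (fun e => PP i0 e ∨ (SR hm i0).R e) (f k) := fun k U U' hU => by
    rw [hf]
    simp only
    rw [dF k.1 U U' hU]
  have dg : ∀ k, Dep (fun e => PP i0 e ∨ (SR hm i0).R e) (g k) := fun k U U' hU => by
    rw [hg]
    simp only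
    rw [dH k.1 U U' hU]
  have hcs := rp_cs μ h hm i0 cf cg df dg
  rw [← hΘ] at hcs
  -- sums of products
  have key : ∀ (P Q : (Fin N × Fin N) × (Fin N × Fin N) → (Ed D (2 * m) → G) → ℂ)
      (p q : ((Fin N × Fin N) × (Fin N × Fin N)) × Bool → (Ed D (2 * m) → G) → ℝ),
      (p = fun k U => if k.2 then (P k.1 U).re else (P k.1 U).im) →
      (q = fun k U => if k.2 then (Q k.1 U).re else (Q k.1 U).im) →
      (∀ k, Continuous (p k)) → (∀ k, Continuous (q k)) →
      ∑ k, Ev μ w (fun U => p k U * q k (Θ U)) =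
        Ev μ w (fun U => (∑ k, P k U * (starRingEnd ℂ) (Q k (Θ U))).re) := by
    intro P Q p q hp hq cp cq
    rw [← Ev_sum μ h Finset.univ (F := fun k U => p k U * q k (Θ U))
      fun k => (cp k).mul ((cq k).comp hΘc)]
    congr 1
    funext U
    rw [Fintype.sum_prod_type, Complex.re_sum]
    refine Finset.sum_congr rfl fun k _ => ?_
    rw [Fintype.sum_bool, re_mul_conj, hp, hq]
    simp
  rw [key F H f g hf hg cf cg, key F F f f hf hf cf cf, key H H g g hg hg cg cg] at hcs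
  -- the three sums
  have s1 : ∀ U, (∑ k, F k U * (starRingEnd ℂ) (H k (Θ U))).re =
      N + (-(1 / 2)) * dd L (A U * Sm U) (S0 U * B U) ^ 2 := by
    intro U
    have e1 : ∑ k, F k U * (starRingEnd ℂ) (H k (Θ U)) =
        trace (L.rho (A U * Sm U) * (L.rho (S0 U * B U))ᴴ) := by
      simp only [iH]
      rw [hF, hH, map_mul, map_mul, ← alg1]
    rw [e1, dd_re]
    ring
  have s2 : ∀ U, ∑ k, F k U * (starRingEnd ℂ) (F k (Θ U)) =
      tc L (A U * (A (Θ U))⁻¹) * (starRingEnd ℂ) (tc L (B U * (B (Θ U))⁻¹)) := by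
    intro U
    unfold tc
    rw [map_mul, map_mul, L.rho_inv, L.rho_inv, ← alg2, hF]
  have s3 : ∀ U, (∑ k, H k U * (starRingEnd ℂ) (H k (Θ U))).re = (N : ℝ) ^ 2 := by
    intro U
    have e1 : ∑ k, H k U * (starRingEnd ℂ) (H k (Θ U)) = (N : ℂ) * N := by
      simp only [iH]
      rw [hH]
      simp only
      rw [alg3, tr_one', tr_one']
    rw [e1, ← Nat.cast_mul, Complex.natCast_re]
    push_cast
    ring
  simp only [s1, s2, s3] at hcs
  have c1 : Continuous fun U => -(1 / 2 : ℝ) * dd L (A U * Sm U) (S0 U * B U) ^ 2 :=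
    continuous_const.mul ((dd_cont (hA.mul hSm) (hS0.mul hB)).pow 2)
  rw [Ev_add μ h continuous_const c1, Ev_const μ h, Ev_const μ h, Ev_smul] at hcs
  rw [qn_sq μ h, ← hΘ]
  calc _ = ((N : ℝ) + -(1 / 2) * Ev μ w fun U => dd L (A U * Sm U) (S0 U * B U) ^ 2) ^ 2 := by
        ring
    _ ≤ _ := hcs
    _ = _ := mul_comm _ _

end pair

end

end Pool.Agent.R990.TG
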