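import Mathlib
import Pool.Agent.R990.TG.Pol
import Pool.Agent.R990.TG.Plq
import Pool.Agent.Y14.PlaqB

/-!
# The correlation of Polyakov loops
-/

open MeasureTheory Matrix Filter
open scoped Matrix.Norms.Frobenius ContDiff Topology
open Pool.Agent.H906R3.YM hiding Pl PP
open Pool.Agent.W793.YM Pool.Agent.TH618.YM Pool.Agent.Y14

namespace Pool.Agent.R990.TG

set_option linter.unusedSectionVars false
set_option linter.unusedVariables false

noncomputable section

variable {G : Type} [Group G] [TopologicalSpace G]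
  [IsTopologicalGroup G] [CompactSpace G] [SecondCountableTopology G] [MeasurableSpace G]
  [BorelSpace G] (μ : Measure G) [IsProbabilityMeasure μ] [μ.IsMulLeftInvariant]
  [μ.IsMulRightInvariant] [μ.IsInvInvariant] {N n : ℕ} {L : LD G N n}
  {D m : ℕ} [NeZero m] {w : (Ed D (2 * m) → G) → ℝ}

section geo

variable {τ : Fin D}

variable (m) in
/-- a site with the given coordinates -/
def pt (a : Fin D → ℕ) : Fin D → ZMod (2 * m) := fun j => (a j : ZMod (2 * m))

/-- the blocks of a displacement -/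
def bl (u : Fin D → ℕ) : List (Fin D × ℕ) := (List.finRange D).map fun j => (j, u j)

lemma bd_sum (bs : List (Fin D × ℕ)) : bd m bs = (bs.map fun p => p.2 • (eT p.1 :
    Fin D → ZMod (2 * m))).sum := by
  induction bs with
  | nil => rfl
  | cons p bs ih =>
    rw [List.map_cons, List.sum_cons, ← ih]
    rfl

lemma bd_bl (u : Fin D → ℕ) : bd m (bl u) = pt m u := by
  rw [bd_sum]
  unfold bl
  rw [List.map_map, ← Fin.sum_univ_def]
  funext k
  rw [Finset.sum_apply]
  unfold pt eT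
  simp only [Function.comp, Pi.smul_apply, Pi.single_apply, nsmul_eq_mul, mul_ite, mul_one,
    mul_zero]
  simp

lemma bt_sU {hm : 2 ≤ m} (U : Ed D (2 * m) → G) {bs : List (Fin D × ℕ)}
    (hbs : ∀ p ∈ bs, p.1 ≠ τ ∨ p.2 = 0) {x : Fin D → ZMod (2 * m)}
    (hx : x τ = 0 ∨ x τ = (m : ZMod (2 * m))) :
    bt ((SR hm τ).tU U) bs x = bt U bs x := by
  induction bs generalizing x with
  | nil => rfl
  | cons p bs ih =>
    have h1 : ln ((SR hm τ).tU U) p.1 p.2 x = ln U p.1 p.2 x := by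
      rcases hbs p (List.mem_cons_self) with h | h
      · rw [ln_sU_ne h, rB_fix hx]
      · rw [h, ln_zero, ln_zero]
    have h2 : (x + p.2 • eT p.1 : Fin D → ZMod (2 * m)) τ = x τ := by
      rcases hbs p (List.mem_cons_self) with h | h
      · exact nsmul_ne h x p.2
      · rw [h, zero_smul, add_zero]
    show ln ((SR hm τ).tU U) p.1 p.2 x * bt ((SR hm τ).tU U) bs (x + p.2 • eT p.1) =
      ln U p.1 p.2 x * bt U bs (x + p.2 • eT p.1)
    rw [h1, ih (fun q hq => hbs q (List.mem_cons_of_mem _ hq)) (by rw [h2]; exact hx)]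

lemma bt_HQ {U U' : Ed D (2 * m) → G} (h : ∀ e, HQ τ e → U e = U' e) {bs : List (Fin D × ℕ)}
    (hbs : ∀ p ∈ bs, p.1 ≠ τ ∨ p.2 = 0) {x : Fin D → ZMod (2 * m)} (hx : (x τ).val ≤ m) :
    bt U bs x = bt U' bs x := by
  induction bs generalizing x with
  | nil => rfl
  | cons p bs ih =>
    have h1 : ln U p.1 p.2 x = ln U' p.1 p.2 x := by
      rcases hbs p (List.mem_cons_self) with h' | h'
      · exact ln_HQ_ne h' h hx _
      · rw [h', ln_zero, ln_zero]
    have h2 : (x + p.2 • eT p.1 : Fin D → ZMod (2 * m)) τ = x τ := by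
      rcases hbs p (List.mem_cons_self) with h' | h'
      · exact nsmul_ne h' x p.2
      · rw [h', zero_smul, add_zero]
    show ln U p.1 p.2 x * bt U bs (x + p.2 • eT p.1) =
      ln U' p.1 p.2 x * bt U' bs (x + p.2 • eT p.1)
    rw [h1, ih (fun q hq => hbs q (List.mem_cons_of_mem _ hq)) (by rw [h2]; exact hx)]

lemma bl_ne {u : Fin D → ℕ} (hu : u τ = 0) : ∀ p ∈ bl u, p.1 ≠ τ ∨ p.2 = 0 := by
  intro p hp
  unfold bl at hp
  rw [List.mem_map] at hp
  obtain ⟨j, -, rfl⟩ := hp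
  by_cases h : j = τ
  · right; rw [h]; exact hu
  · left; exact h

end geo

/-! ### the pair correlation -/

/-- the Polyakov loop -/
def Py (U : Ed D (2 * m) → G) (τ : Fin D) (x : Fin D → ZMod (2 * m)) : G := ln U τ (2 * m) x

lemma Py_cont (τ : Fin D) (x : Fin D → ZMod (2 * m)) :
    Continuous fun U : Ed D (2 * m) → G => Py U τ x := ln_cont _ _ _

lemma Py_half (hm : 2 ≤ m) {τ : Fin D} (U : Ed D (2 * m) → G) {x : Fin D → ZMod (2 * m)}
    (hx : x τ = 0) : ln U τ m x * (ln ((SR hm τ).tU U) τ m x)⁻¹ = Py U τ x := by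
  have h1 : m • (eT τ : Fin D → ZMod (2 * m)) + m • eT τ = 0 := by
    rw [← add_smul, ← two_mul]
    funext k
    simp only [Pi.smul_apply, nsmul_eq_mul, Pi.zero_apply]
    rw [ZMod.natCast_self, zero_mul]
  have h2 : m • (eT τ : Fin D → ZMod (2 * m)) = -(m • eT τ) := eq_neg_of_add_eq_zero_left h1
  have h3 : Py U τ x = ln U τ (m + m) x :=
    congrArg (fun k => ln U τ k x) (two_mul m)
  rw [h3, ln_add, ln_sU_same, rB_fix (Or.inl hx), inv_inv, sub_eq_add_neg, ← h2]

/-- **The correlation of two Polyakov loops.** -/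
theorem pair_pol (h : St μ D m w) (hm : 2 ≤ m) {τ : Fin D} {a b : Fin D → ℕ} (ha : a τ = 0)
    (hb : b τ = 0) {B : ℝ} (hB : ∀ j, j ≠ τ → ro μ L w τ j m (a j - min (a j) (b j)) ≤ B)
    (hB' : ∀ j, j ≠ τ → ro μ L w τ j m (b j - min (a j) (b j)) ≤ B) (hB0 : 0 ≤ B)
    (hBN : 4 * (D : ℝ) ^ 2 * B ^ 2 ≤ N) (hN : 1 ≤ N) :
    1 / 4 ≤ Ev μ w (fun U => (tc L (Py U τ (pt m a)) *
        (starRingEnd ℂ) (tc L (Py U τ (pt m b)))).re) := by
  obtain ⟨c, hc⟩ : ∃ c : Fin D → ℕ, c = fun j => min (a j) (b j) := ⟨_, rfl⟩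
  obtain ⟨u, hu⟩ : ∃ u : Fin D → ℕ, u = fun j => a j - c j := ⟨_, rfl⟩
  obtain ⟨v, hv⟩ : ∃ v : Fin D → ℕ, v = fun j => b j - c j := ⟨_, rfl⟩
  have hcτ : c τ = 0 := by rw [hc]; simp [ha]
  have huτ : u τ = 0 := by rw [hu]; simp [ha]
  have hvτ : v τ = 0 := by rw [hv]; simp [hb]
  have hau : pt m a = pt m c + bd m (bl u) := by
    rw [bd_bl]
    funext j
    unfold pt
    rw [Pi.add_apply, ← Nat.cast_add]
    congr 1
    rw [hu]
    simp only
    have : c j ≤ a j := by rw [hc]; exact min_le_left _ _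
    omega
  have hbv : pt m b = pt m c + bd m (bl v) := by
    rw [bd_bl]
    funext j
    unfold pt
    rw [Pi.add_apply, ← Nat.cast_add]
    congr 1
    rw [hv]
    simp only
    have : c j ≤ b j := by rw [hc]; exact min_le_right _ _
    omega
  have haτ : pt m a τ = 0 := by unfold pt; rw [ha]; simp
  have hbτ : pt m b τ = 0 := by unfold pt; rw [hb]; simp
  have hcτ' : pt m c τ = 0 := by unfold pt; rw [hcτ]; simp
  have hcm : (pt m c + m • eT τ : Fin D → ZMod (2 * m)) τ = (m : ZMod (2 * m)) := by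
    rw [nsmul_same, hcτ', zero_add]
  have hcmv : ((pt m c + m • eT τ : Fin D → ZMod (2 * m)) τ).val ≤ m := by
    rw [hcm, val_nat (by omega)]
  obtain ⟨S0, hS0⟩ : ∃ S0 : (Ed D (2 * m) → G) → G, S0 = fun U =>
    (bt U (bl u) (pt m c))⁻¹ * bt U (bl v) (pt m c) := ⟨_, rfl⟩
  obtain ⟨Sm, hSm⟩ : ∃ Sm : (Ed D (2 * m) → G) → G, Sm = fun U =>
    (bt U (bl u) (pt m c + m • eT τ))⁻¹ * bt U (bl v) (pt m c + m • eT τ) := ⟨_, rfl⟩
  have key := pair_ge μ h (L := L) hm τ (A := fun U => ln U τ m (pt m a))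
    (B := fun U => ln U τ m (pt m b)) (S0 := S0) (Sm := Sm) (ln_cont _ _ _) (ln_cont _ _ _)
    (by rw [hS0]; exact (bt_cont _ _).inv.mul (bt_cont _ _))
    (by rw [hSm]; exact (bt_cont _ _).inv.mul (bt_cont _ _))
    (Dep_HQ hm fun U U' hU => ln_HQ_same hm hU haτ le_rfl)
    (Dep_HQ hm fun U U' hU => ln_HQ_same hm hU hbτ le_rfl)
    (Dep_HQ hm fun U U' hU => by
      rw [hS0]
      simp only
      rw [bt_HQ hU (bl_ne huτ) (by rw [hcτ']; simp), bt_HQ hU (bl_ne hvτ) (by rw [hcτ']; simp)])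
    (Dep_HQ hm fun U U' hU => by
      rw [hSm]
      simp only
      rw [bt_HQ hU (bl_ne huτ) hcmv, bt_HQ hU (bl_ne hvτ) hcmv])
    (fun U => by
      rw [hS0]
      simp only
      rw [bt_sU U (bl_ne huτ) (Or.inl hcτ'), bt_sU U (bl_ne hvτ) (Or.inl hcτ')])
    (fun U => by
      rw [hSm]
      simp only
      rw [bt_sU U (bl_ne huτ) (Or.inr hcm), bt_sU U (bl_ne hvτ) (Or.inr hcm)])
  simp only [Py_half hm _ haτ, Py_half hm _ hbτ] at key
  -- the defect
  have hdef : qn μ w (fun U => dd L (ln U τ m (pt m a) * Sm U) (S0 U * ln U τ m (pt m b))) ≤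
      2 * D * B := by
    obtain ⟨f, hf⟩ : ∃ f : (Ed D (2 * m) → G) → ℝ, f = fun U => dd L
      (ln U τ m (pt m c) * bt U (bl u) (pt m c + m • eT τ))
      (bt U (bl u) (pt m c) * ln U τ m (pt m c + bd m (bl u))) := ⟨_, rfl⟩
    obtain ⟨g, hg⟩ : ∃ g : (Ed D (2 * m) → G) → ℝ, g = fun U => dd L
      (ln U τ m (pt m c) * bt U (bl v) (pt m c + m • eT τ))
      (bt U (bl v) (pt m c) * ln U τ m (pt m c + bd m (bl v))) := ⟨_, rfl⟩
    have cf : Continuous f := by
      rw [hf]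
      exact dd_cont ((ln_cont _ _ _).mul (bt_cont _ _)) ((bt_cont _ _).mul (ln_cont _ _ _))
    have cg : Continuous g := by
      rw [hg]
      exact dd_cont ((ln_cont _ _ _).mul (bt_cont _ _)) ((bt_cont _ _).mul (ln_cont _ _ _))
    have cfg : Continuous fun U => f U + g U := cf.add cg
    have c0 : Continuous fun U : Ed D (2 * m) → G =>
        dd L (ln U τ m (pt m a) * Sm U) (S0 U * ln U τ m (pt m b)) := by
      rw [hS0, hSm]
      exact dd_cont ((ln_cont _ _ _).mul ((bt_cont _ _).inv.mul (bt_cont _ _)))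
        (((bt_cont _ _).inv.mul (bt_cont _ _)).mul (ln_cont _ _ _))
    have hle : ∀ U, dd L (ln U τ m (pt m a) * Sm U) (S0 U * ln U τ m (pt m b)) ≤ f U + g U := by
      intro U
      rw [hf, hg, hS0, hSm]
      simp only
      rw [← hau, ← hbv]
      refine (dd_tri _ ((bt U (bl u) (pt m c))⁻¹ * (ln U τ m (pt m c) *
        bt U (bl v) (pt m c + m • eT τ))) _).trans (add_le_add (le_of_eq ?_) (le_of_eq ?_))
      · rw [← mul_assoc, ← mul_assoc, dd_rmul, ← dd_lmul (bt U (bl u) (pt m c)),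
          ← dd_rmul (bt U (bl u) (pt m c + m • eT τ)), dd_comm]
        congr 1 <;> group
      · rw [mul_assoc, dd_lmul]
    have e1 := qn_mono μ h c0 cfg (fun U => norm_nonneg _) hle
    have e2 := qn_add μ h cf cg
    have hsum : ∀ u : Fin D → ℕ, u τ = 0 → (∀ j, j ≠ τ → ro μ L w τ j m (u j) ≤ B) →
        ((bl u).map fun p => ro μ L w τ p.1 m p.2).sum ≤ D * B := by
      intro u hu hB
      unfold bl
      rw [List.map_map, ← Fin.sum_univ_def]
      have h3 : ∀ j ∈ (Finset.univ : Finset (Fin D)),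
          ((fun p : Fin D × ℕ => ro μ L w τ p.1 m p.2) ∘ fun j => (j, u j)) j ≤ B := by
        intro j _
        by_cases hj : j = τ
        · show ro μ L w τ j m (u j) ≤ B
          rw [hj, hu, ro_swap, ro_zero μ h]
          exact hB0
        · exact hB j hj
      have h4 := Finset.sum_le_card_nsmul _ _ _ h3
      rw [Finset.card_univ, Fintype.card_fin, nsmul_eq_mul] at h4
      exact h4
    have e3 : qn μ w f ≤ D * B := by
      rw [hf]
      refine (cm μ h m (bl u) (pt m c)).trans (hsum u huτ ?_)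
      intro j hj
      rw [hu, hc]
      exact hB j hj
    have e4 : qn μ w g ≤ D * B := by
      rw [hg]
      refine (cm μ h m (bl v) (pt m c)).trans (hsum v hvτ ?_)
      intro j hj
      rw [hv, hc]
      exact hB' j hj
    linarith
  have hN' : (1 : ℝ) ≤ N := by exact_mod_cast hN
  have hq := qn_nonneg μ (w := w)
    (fun U => dd L (ln U τ m (pt m a) * Sm U) (S0 U * ln U τ m (pt m b)))
  have h5 : qn μ w (fun U => dd L (ln U τ m (pt m a) * Sm U) (S0 U * ln U τ m (pt m b))) ^ 2 ≤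
      N := by
    refine (pow_le_pow_left₀ hq hdef 2).trans ?_
    calc (2 * (D : ℝ) * B) ^ 2 = 4 * (D : ℝ) ^ 2 * B ^ 2 := by ring
      _ ≤ (N : ℝ) := hBN
  have h6 : ((N : ℝ) / 2) ^ 2 ≤ ((N : ℝ) - (1 / 2) * qn μ w (fun U =>
      dd L (ln U τ m (pt m a) * Sm U) (S0 U * ln U τ m (pt m b))) ^ 2) ^ 2 :=
    pow_le_pow_left₀ (by positivity) (by linarith) 2
  have h7 := h6.trans key
  have h8 : (N : ℝ) ^ 2 * (1 / 4) ≤ N ^ 2 * Ev μ w (fun U => (tc L (Py U τ (pt m a)) *
        (starRingEnd ℂ) (tc L (Py U τ (pt m b)))).re) := by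
    calc (N : ℝ) ^ 2 * (1 / 4) = ((N : ℝ) / 2) ^ 2 := by ring
      _ ≤ _ := h7
  exact le_of_mul_le_mul_left h8 (by positivity)

end

end Pool.Agent.R990.TG
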