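import Mathlib
import Pool.Agent.R990.TG.Lin
import Pool.Agent.R990.TG.Pol2

/-!
# The energy of a sum of Polyakov loops
-/

open MeasureTheory Matrix Filter
open scoped Matrix.Norms.Frobenius ContDiff Topology
open Pool.Agent.H906R3.YM hiding Pl PP
open Pool.Agent.W793.YM Pool.Agent.TH618.YM Pool.Agent.Y14

namespace Pool.Agent.R990.TG

set_option linter.unusedSectionVars false
set_option linter.unusedVariables false

noncomputable section

variable {G : Type} [Group G] [TopologicalSpace G]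
  [IsTopologicalGroup G] [CompactSpace G] [SecondCountableTopology G] [MeasurableSpace G]
  [BorelSpace G] (μ : Measure G) [IsProbabilityMeasure μ] [μ.IsMulLeftInvariant]
  [μ.IsMulRightInvariant] [μ.IsInvInvariant] {N n : ℕ} {L : LD G N n}
  {D m : ℕ} [NeZero m] {τ : Fin D}

/-- the links of a straight line -/
def lk (τ : Fin D) : ℕ → (Fin D → ZMod (2 * m)) → List (Ed D (2 * m))
  | 0, _ => []
  | k + 1, x => (x, τ) :: lk τ k (x + eT τ)

lemma mem_lk {k : ℕ} {x : Fin D → ZMod (2 * m)} {e : Ed D (2 * m)} (h : e ∈ lk τ k x) :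
    ∃ s < k, e = (x + s • eT τ, τ) := by
  induction k generalizing x with
  | zero => exact absurd h List.not_mem_nil
  | succ k ih =>
    rcases List.mem_cons.1 h with h | h
    · exact ⟨0, Nat.succ_pos _, by rw [zero_smul, add_zero]; exact h⟩
    · obtain ⟨s, hs, he⟩ := ih h
      refine ⟨s + 1, by omega, ?_⟩
      rw [he, add_smul, one_smul, add_assoc, add_comm (eT τ : Fin D → ZMod (2 * m))]

lemma lk_len (k : ℕ) (x : Fin D → ZMod (2 * m)) : (lk τ k x).length = k := by
  induction k generalizing x with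
  | zero => rfl
  | succ k ih =>
    show (lk τ k (x + eT τ)).length + 1 = k + 1
    rw [ih]

lemma lk_nodup {k : ℕ} (hk : k ≤ 2 * m) (x : Fin D → ZMod (2 * m)) : (lk τ k x).Nodup := by
  induction k generalizing x with
  | zero => exact List.nodup_nil
  | succ k ih =>
    refine List.nodup_cons.2 ⟨fun h => ?_, ih (by omega) _⟩
    obtain ⟨s, hs, he⟩ := mem_lk h
    have h1 := congrFun (Prod.ext_iff.1 he).1 τ
    simp only at h1
    rw [nsmul_same] at h1
    have h2 : (x + eT τ : Fin D → ZMod (2 * m)) τ = x τ + 1 := by simp [eT]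
    rw [h2] at h1
    have h3 : ((s + 1 : ℕ) : ZMod (2 * m)) = 0 := by
      push_cast
      linear_combination -h1
    rw [ZMod.natCast_eq_zero_iff] at h3
    have := Nat.le_of_dvd (Nat.succ_pos _) h3
    omega

lemma lk_disj {k : ℕ} {x y : Fin D → ZMod (2 * m)} (hx : x τ = 0) (hy : y τ = 0)
    (hxy : x ≠ y) : (lk τ k x).Disjoint (lk τ k y) := by
  intro e he he'
  obtain ⟨s, hs, h1⟩ := mem_lk he
  obtain ⟨s', hs', h2⟩ := mem_lk he'
  rw [h1] at h2
  have h3 := (Prod.ext_iff.1 h2).1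
  simp only at h3
  refine hxy (funext fun j => ?_)
  by_cases hj : j = τ
  · rw [hj, hx, hy]
  · have h4 := congrFun h3 j
    rw [nsmul_ne (Ne.symm hj), nsmul_ne (Ne.symm hj)] at h4
    exact h4

lemma tl_lk (U : Ed D (2 * m) → G) (k : ℕ) (x : Fin D → ZMod (2 * m)) :
    tl L U (lk τ k x) = L.rho (ln U τ k x) := by
  induction k generalizing x with
  | zero => exact (map_one L.rho).symm
  | succ k ih =>
    rw [ln_succ, map_mul, ← ih]
    rfl

variable (L) in
/-- the sum of the Polyakov loops -/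
def FA {O : Type} [Fintype O] (τ : Fin D) (xo : O → (Fin D → ZMod (2 * m))) (A : Mat N)
    (U : Ed D (2 * m) → G) : ℝ := ∑ o, (trace (A * L.rho (Py U τ (xo o)))).re

lemma FA_cont {O : Type} [Fintype O] (xo : O → (Fin D → ZMod (2 * m))) (A : Mat N) :
    Continuous (FA L τ xo A) := by
  refine continuous_finsetSum _ fun o _ => Complex.continuous_re.comp ?_
  exact (continuous_const.matrix_mul (L.cont.comp (Py_cont _ _))).matrix_trace

theorem numer {O : Type} [Fintype O] [DecidableEq O] {xo : O → (Fin D → ZMod (2 * m))}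
    (hx : ∀ o, xo o τ = 0) (hinj : Function.Injective xo) {β : ℝ} (hβ : 0 < β)
    (hδ : 2 * N * (1 / β) * (2 * m : ℕ) ≤ 1) {A : Mat N} (hA : Aᴴ * A = 1) {lam : ℝ}
    {Om : (Ed D (2 * m) → G) → ℝ} (hO : Continuous Om) (hp : ∀ U, 0 < Om U)
    (hT : ∀ U, TK (ME μ (Ed D (2 * m))) (KK L β) Om U = lam * Om U) :
    lam * ∫ U, (FA L τ xo A U * Om U) ^ 2 ∂(ME μ (Ed D (2 * m))) -
      ∫ U, (FA L τ xo A U * Om U) * TK (ME μ (Ed D (2 * m))) (KK L β)
        (fun V => FA L τ xo A V * Om V) U ∂(ME μ (Ed D (2 * m))) ≤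
      (1 / 2) * ((Fintype.card O * (3 * (N * (2 * m : ℕ) * (1 / β)))) *
        (lam * ∫ U, Om U ^ 2 ∂(ME μ (Ed D (2 * m))))) := by
  obtain ⟨ν, hν⟩ : ∃ ν, ν = ME μ (Ed D (2 * m)) := ⟨_, rfl⟩
  have hνp : IsProbabilityMeasure ν := by rw [hν]; infer_instance
  have hKc := KK_cont (L := L) (D := D) (l := 2 * m) β
  rw [← hν] at hT ⊢
  rw [dform ν hKc (KK_symm β) hO hT (FA_cont xo A)]
  refine mul_le_mul_of_nonneg_left ?_ (by norm_num)
  obtain ⟨w0, hw0⟩ : ∃ w0 : (Ed D (2 * m) → G) → ℝ,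
      w0 = fun U => Om U * Real.exp (-(β / 2 * act L U)) := ⟨_, rfl⟩
  have hw0c : Continuous w0 := by
    rw [hw0]
    exact hO.mul (Real.continuous_exp.comp (continuous_const.mul act_cont).neg)
  have hw0p : ∀ U, 0 ≤ w0 U := fun U => by
    rw [hw0]
    exact mul_nonneg (hp U).le (Real.exp_pos _).le
  have hW : ∀ z : (Ed D (2 * m) → G) × (Ed D (2 * m) → G),
      w0 z.1 * w0 z.2 * Real.exp (-(β * kin L z.1 z.2)) =
        KK L β z.1 z.2 * (Om z.1 * Om z.2) := by
    intro z
    rw [hw0]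
    simp only
    have e1 : KK L β z.1 z.2 = Real.exp (-(β / 2 * act L z.1)) *
        Real.exp (-(β / 2 * act L z.2)) * Real.exp (-(β * kin L z.1 z.2)) := by
      unfold KK
      rw [← Real.exp_add, ← Real.exp_add]
      congr 1; ring
    rw [e1]; ring
  have hdom := two_lines μ (L := L) (l := fun o => lk τ (2 * m) (xo o))
    (fun o => lk_nodup le_rfl _) (fun o o' hoo => lk_disj (hx o) (hx o') fun h => hoo (hinj h))
    (fun o => lk_len _ _) hβ hA hδ hw0c hw0p
  simp only [hW, tl_lk] at hdom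
  have hK' : Continuous fun z : (Ed D (2 * m) → G) × (Ed D (2 * m) → G) => KK L β z.1 z.2 := hKc
  have cO1 : Continuous fun z : (Ed D (2 * m) → G) × (Ed D (2 * m) → G) => Om z.1 :=
    hO.comp continuous_fst
  have cO2 : Continuous fun z : (Ed D (2 * m) → G) × (Ed D (2 * m) → G) => Om z.2 :=
    hO.comp continuous_snd
  have hWi : Integrable (fun z : (Ed D (2 * m) → G) × (Ed D (2 * m) → G) =>
      KK L β z.1 z.2 * (Om z.1 * Om z.2)) (ν.prod ν) := cint2 ν (hK'.mul (cO1.mul cO2))
  have hWtot : ∫ z, KK L β z.1 z.2 * (Om z.1 * Om z.2) ∂(ν.prod ν) =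
      lam * ∫ U, Om U ^ 2 ∂ν := by
    rw [integral_prod _ hWi, ← integral_const_mul]
    refine integral_congr_ae (Filter.Eventually.of_forall fun U => ?_)
    simp only
    have e1 : ∫ V, KK L β U V * (Om U * Om V) ∂ν = Om U * TK ν (KK L β) Om U := by
      unfold TK
      rw [← integral_const_mul]
      refine integral_congr_ae (Filter.Eventually.of_forall fun V => ?_)
      simp only; ring
    rw [e1, hT]; ring
  rw [← hν] at hdom
  rw [← hWtot]
  refine le_trans (le_of_eq ?_) hdom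
  refine integral_congr_ae (Filter.Eventually.of_forall fun z => ?_)
  simp only
  unfold FA Py
  ring

end

end Pool.Agent.R990.TG
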