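import Mathlib
import Pool.Agent.R990.TG.Num2

/-!
# The trial state
-/

open MeasureTheory Matrix Filter
open scoped Matrix.Norms.Frobenius ContDiff Topology
open Pool.Agent.H906R3.YM hiding Pl PP
open Pool.Agent.W793.YM Pool.Agent.TH618.YM Pool.Agent.Y14

namespace Pool.Agent.R990.TG

set_option linter.unusedSectionVars false
set_option linter.unusedVariables false

noncomputable section

variable {G : Type} [Group G] [TopologicalSpace G]
  [IsTopologicalGroup G] [CompactSpace G] [SecondCountableTopology G] [MeasurableSpace G]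
  [BorelSpace G] (μ : Measure G) [IsProbabilityMeasure μ] [μ.IsMulLeftInvariant]
  [μ.IsMulRightInvariant] [μ.IsInvInvariant] {N n : ℕ} {L : LD G N n}
  {D m : ℕ} [NeZero m] {τ : Fin D}

/-! ### the plaquettes -/

lemma act_ge {l : ℕ} [NeZero l] (U : Ed D l → G) {i j : Fin D} (hij : i ≠ j) :
    ∑ x, we L (plqT U x i j) ≤ act L U := by
  unfold act
  refine Finset.sum_le_sum fun x _ => ?_
  have h0 : ∀ i j : Fin D, 0 ≤ if i < j then we L (plqT U x i j) else 0 := fun i j => by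
    split_ifs
    · exact we_nonneg _
    · exact le_rfl
  have key : ∀ i j : Fin D, i < j → we L (plqT U x i j) ≤
      ∑ i, ∑ j, if i < j then we L (plqT U x i j) else 0 := by
    intro i j h
    have h1 := Finset.single_le_sum (f := fun i => ∑ j, if i < j then we L (plqT U x i j) else 0)
      (fun i _ => Finset.sum_nonneg fun j _ => h0 i j) (Finset.mem_univ i)
    have h2 := Finset.single_le_sum (f := fun j => if i < j then we L (plqT U x i j) else 0)
      (fun j _ => h0 i j) (Finset.mem_univ j)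
    simp only [if_pos h] at h2
    exact h2.trans h1
  rcases lt_or_gt_of_ne hij with h | h
  · exact key i j h
  · rw [plqT_swap, we_inv]
    exact key j i h

theorem ro_plq {β : ℝ} (hβ : 0 < β) (hD : 1 ≤ D) {lam : ℝ} (hlam : 0 < lam)
    {Om : (Ed D (2 * m) → G) → ℝ} (hO : Continuous Om) (hp : ∀ U, 0 < Om U)
    (hT : ∀ U, TK (ME μ (Ed D (2 * m))) (KK L β) Om U = lam * Om U)
    (h : St μ D m fun U => Om U ^ 2) {j : Fin D} (hj : j ≠ τ) :
    ro μ L (fun U => Om U ^ 2) τ j 1 1 ^ 2 ≤ 40 * N ^ 2 * D ^ 2 / β := by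
  have h1 := mag_bound μ (L := L) hβ hlam hO hp hT
  obtain ⟨V, hV⟩ : ∃ V, V = Ev μ (fun U => Om U ^ 2)
    (fun U : Ed D (2 * m) → G => we L (plqT U 0 τ j)) := ⟨_, rfl⟩
  have h2 : ro μ L (fun U => Om U ^ 2) τ j 1 1 ^ 2 = 2 * V := by
    unfold ro
    rw [qn_sq μ h, hV, ← Ev_smul]
    congr 1
    funext U
    rw [rect_one, dv_sq]
  have hc : ∀ x : Fin D → ZMod (2 * m),
      Continuous fun U : Ed D (2 * m) → G => we L (plqT U x τ j) := fun x => by
    have e : (fun U : Ed D (2 * m) → G => we L (plqT U x τ j)) =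
        fun U => we L (rect U x τ j 1 1) := by
      funext U
      rw [rect_one]
    rw [e]
    exact we_cont.comp (rect_cont _ _ _ _ _)
  have hcs : Continuous fun U : Ed D (2 * m) → G => ∑ x, we L (plqT U x τ j) :=
    continuous_finsetSum _ fun x _ => hc x
  obtain ⟨k, hk⟩ : ∃ k : ℝ, k = (Fintype.card (Fin D → ZMod (2 * m)) : ℝ) := ⟨_, rfl⟩
  have hk0 : 0 < k := by rw [hk]; exact_mod_cast Fintype.card_pos
  have h3 : k * V ≤ (∫ U, Om U ^ 2 * act L U ∂(ME μ (Ed D (2 * m)))) /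
      ∫ U, Om U ^ 2 ∂(ME μ (Ed D (2 * m))) := by
    have h4 := Ev_mono μ h hcs act_cont fun U => act_ge (L := L) U (Ne.symm hj)
    rw [Ev_sum μ h Finset.univ hc] at h4
    have h5 : ∀ x : Fin D → ZMod (2 * m), Ev μ (fun U => Om U ^ 2)
        (fun U : Ed D (2 * m) → G => we L (plqT U x τ j)) = V := by
      intro x
      rw [hV, ← Ev_tr μ h x (fun U : Ed D (2 * m) → G => we L (plqT U 0 τ j))]
      congr 1
      funext U
      rw [← rect_one, ← rect_one, rect_tr, zero_add]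
    simp only [h5] at h4
    rw [Finset.sum_const, Finset.card_univ, nsmul_eq_mul, ← hk] at h4
    exact h4
  have h6 : (Fintype.card (Ed D (2 * m)) : ℝ) = k * D := by
    rw [hk, Fintype.card_prod, Fintype.card_fin]
    push_cast
    ring
  have hD' : (1 : ℝ) ≤ D := by exact_mod_cast hD
  have h7 : Real.log (8 * D + 3) ≤ 10 * D := by
    have := Real.log_le_sub_one_of_pos (x := 8 * (D : ℝ) + 3) (by positivity)
    linarith
  have h8 : k * (β * V) ≤ k * (20 * N ^ 2 * D ^ 2) := by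
    calc k * (β * V) = β * (k * V) := by ring
      _ ≤ β * ((∫ U, Om U ^ 2 * act L U ∂(ME μ (Ed D (2 * m)))) /
          ∫ U, Om U ^ 2 ∂(ME μ (Ed D (2 * m)))) := mul_le_mul_of_nonneg_left h3 hβ.le
      _ ≤ 2 * N ^ 2 * Fintype.card (Ed D (2 * m)) * Real.log (8 * D + 3) := h1
      _ ≤ 2 * N ^ 2 * Fintype.card (Ed D (2 * m)) * (10 * D) :=
          mul_le_mul_of_nonneg_left h7 (by positivity)
      _ = _ := by rw [h6]; ring
  have h9 := le_of_mul_le_mul_left h8 hk0
  rw [h2, le_div_iff₀ hβ]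
  linarith

/-! ### the positions -/

/-- the index set of the lines -/
abbrev OO' (τ : Fin D) (r : ℕ) : Type := {j : Fin D // j ≠ τ} → Fin r

/-- the coordinates of a line -/
def ao {r : ℕ} (o : OO' τ r) : Fin D → ℕ := fun j => if h : j ≠ τ then (o ⟨j, h⟩ : ℕ) else 0

lemma ao_τ {r : ℕ} (o : OO' τ r) : ao o τ = 0 := by
  unfold ao
  rw [dif_neg (by simp)]

lemma ao_lt {r : ℕ} (hr : 1 ≤ r) (o : OO' τ r) (j : Fin D) : ao o j < r := by
  unfold ao
  split_ifs with h
  · exact (o ⟨j, h⟩).2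
  · omega

lemma ao_inj {r : ℕ} (hr : 1 ≤ r) (hr2 : r ≤ 2 * m) :
    Function.Injective fun o : OO' τ r => pt m (ao o) := by
  intro o o' h
  funext j
  obtain ⟨j, hj⟩ := j
  have h1 := congrFun h j
  simp only [pt] at h1
  rw [ZMod.natCast_eq_natCast_iff'] at h1
  have h2 := ao_lt hr o j
  have h3 := ao_lt hr o' j
  rw [Nat.mod_eq_of_lt (by omega), Nat.mod_eq_of_lt (by omega)] at h1
  unfold ao at h1
  rw [dif_pos hj, dif_pos hj] at h1
  exact Fin.ext h1

lemma card_OO {r : ℕ} : Fintype.card (OO' τ r) = r ^ (D - 1) := by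
  rw [Fintype.card_fun, Fintype.card_fin]
  congr 1
  have h := Fintype.card_subtype_compl (fun j : Fin D => j = τ)
  rw [Fintype.card_subtype_eq, Fintype.card_fin] at h
  exact h

/-! ### the denominator -/

/-- the complex sum of the Polyakov loops -/
def FC {O : Type} [Fintype O] (L : LD G N n) (τ : Fin D) (xo : O → (Fin D → ZMod (2 * m)))
    (U : Ed D (2 * m) → G) : ℂ := ∑ o, tc L (Py U τ (xo o))

lemma FA_one {O : Type} [Fintype O] (xo : O → (Fin D → ZMod (2 * m))) (U : Ed D (2 * m) → G) :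
    FA L τ xo 1 U = (FC L τ xo U).re := by
  unfold FA FC tc
  rw [Complex.re_sum]
  simp only [one_mul]

lemma FA_I {O : Type} [Fintype O] (xo : O → (Fin D → ZMod (2 * m))) (U : Ed D (2 * m) → G) :
    FA L τ xo (-Complex.I • 1) U = (FC L τ xo U).im := by
  unfold FA FC tc
  rw [Complex.im_sum]
  refine Finset.sum_congr rfl fun o _ => ?_
  rw [smul_mul_assoc, one_mul, trace_smul, smul_eq_mul]
  simp

lemma unit_I : (-Complex.I • (1 : Mat N))ᴴ * (-Complex.I • (1 : Mat N)) = 1 := by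
  rw [conjTranspose_smul, conjTranspose_one, smul_mul_smul_comm, mul_one]
  simp

theorem denom {β : ℝ} (hβ : 0 < β) (hm : 2 ≤ m) (hN : 1 ≤ N) {lam : ℝ} (hlam : 0 < lam)
    {Om : (Ed D (2 * m) → G) → ℝ} (hO : Continuous Om) (hp : ∀ U, 0 < Om U)
    (hT : ∀ U, TK (ME μ (Ed D (2 * m))) (KK L β) Om U = lam * Om U)
    (h : St μ D m fun U => Om U ^ 2) {r : ℕ} (hr : 1 ≤ r) (hr2 : r ≤ 2 * m)
    (hc : 23040 * N * D ^ 4 * (m * r) ≤ β) :
    ((r : ℝ) ^ (D - 1)) ^ 2 / 4 * ∫ U, Om U ^ 2 ∂(ME μ (Ed D (2 * m))) ≤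
      ∫ U, (FA L τ (fun o : OO' τ r => pt m (ao o)) 1 U * Om U) ^ 2 ∂(ME μ (Ed D (2 * m))) +
      ∫ U, (FA L τ (fun o : OO' τ r => pt m (ao o)) (-Complex.I • 1) U * Om U) ^ 2
        ∂(ME μ (Ed D (2 * m))) := by
  have hD : 1 ≤ D := Nat.one_le_iff_ne_zero.2 fun h0 => by subst h0; exact τ.elim0
  obtain ⟨B, hB⟩ : ∃ B, B = Real.sqrt (144 * (m * r) * (40 * N ^ 2 * D ^ 2 / β)) := ⟨_, rfl⟩
  have hB2 : B ^ 2 = 144 * (m * r) * (40 * N ^ 2 * D ^ 2 / β) := by
    rw [hB]
    exact Real.sq_sqrt (by positivity)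
  have hB0 : 0 ≤ B := by rw [hB]; exact Real.sqrt_nonneg _
  have hBN : 4 * (D : ℝ) ^ 2 * B ^ 2 ≤ N := by
    rw [hB2]
    have e : 4 * (D : ℝ) ^ 2 * (144 * (m * r) * (40 * N ^ 2 * D ^ 2 / β)) =
        N * (23040 * N * D ^ 4 * (m * r)) / β := by
      field_simp
      ring
    rw [e, div_le_iff₀ hβ]
    exact mul_le_mul_of_nonneg_left hc (Nat.cast_nonneg _)
  have hro : ∀ j, j ≠ τ → ∀ k ≤ r, ro μ L (fun U => Om U ^ 2) τ j m k ≤ B := by
    intro j hj k hk
    rw [hB]
    refine Real.le_sqrt_of_sq_le ?_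
    refine (ro_area μ h (L := L) hm hN hj (T := m) (R := k) (by omega) (by omega)).trans ?_
    have h1 := ro_plq μ (L := L) hβ hD hlam hO hp hT h hj
    have hk' : (k : ℝ) ≤ r := by exact_mod_cast hk
    have h2 : 144 * ((m : ℝ) * k) ≤ 144 * (m * r) := by
      have := mul_le_mul_of_nonneg_left hk' (Nat.cast_nonneg (α := ℝ) m)
      linarith
    exact mul_le_mul h2 h1 (sq_nonneg _) (by positivity)
  have hpair : ∀ o o' : OO' τ r, 1 / 4 ≤ Ev μ (fun U => Om U ^ 2)
      (fun U => (tc L (Py U τ (pt m (ao o))) *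
        (starRingEnd ℂ) (tc L (Py U τ (pt m (ao o'))))).re) := by
    intro o o'
    refine pair_pol μ h hm (ao_τ o) (ao_τ o') (B := B) (fun j hj => hro j hj _ ?_)
      (fun j hj => hro j hj _ ?_) hB0 hBN hN
    · have := ao_lt hr o j
      omega
    · have := ao_lt hr o' j
      omega
  have hcc : ∀ o o' : OO' τ r, Continuous fun U : Ed D (2 * m) → G =>
      (tc L (Py U τ (pt m (ao o))) * (starRingEnd ℂ) (tc L (Py U τ (pt m (ao o'))))).re :=
    fun o o' => Complex.continuous_re.comp ((tc_cont.comp (Py_cont _ _)).mul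
      (Complex.continuous_conj.comp (tc_cont.comp (Py_cont _ _))))
  have hsum : ((r : ℝ) ^ (D - 1)) ^ 2 / 4 ≤ Ev μ (fun U => Om U ^ 2) (fun U =>
      FA L τ (fun o : OO' τ r => pt m (ao o)) 1 U ^ 2 +
      FA L τ (fun o : OO' τ r => pt m (ao o)) (-Complex.I • 1) U ^ 2) := by
    have e1 : (fun U : Ed D (2 * m) → G =>
      FA L τ (fun o : OO' τ r => pt m (ao o)) 1 U ^ 2 +
      FA L τ (fun o : OO' τ r => pt m (ao o)) (-Complex.I • 1) U ^ 2) = fun U =>
        ∑ o : OO' τ r, ∑ o' : OO' τ r, (tc L (Py U τ (pt m (ao o))) *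
        (starRingEnd ℂ) (tc L (Py U τ (pt m (ao o'))))).re := by
      funext U
      rw [FA_one, FA_I]
      have e2 : (FC L τ (fun o : OO' τ r => pt m (ao o)) U).re ^ 2 +
          (FC L τ (fun o : OO' τ r => pt m (ao o)) U).im ^ 2 =
          (FC L τ (fun o : OO' τ r => pt m (ao o)) U *
            (starRingEnd ℂ) (FC L τ (fun o : OO' τ r => pt m (ao o)) U)).re := by
        rw [re_mul_conj]; ring
      rw [e2]
      unfold FC
      rw [map_sum, Finset.sum_mul_sum, Complex.re_sum]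
      refine Finset.sum_congr rfl fun o _ => ?_
      rw [Complex.re_sum]
    have hcc2 : ∀ o : OO' τ r, Continuous fun U : Ed D (2 * m) → G =>
        ∑ o' : OO' τ r, (tc L (Py U τ (pt m (ao o))) *
        (starRingEnd ℂ) (tc L (Py U τ (pt m (ao o'))))).re := fun o =>
      continuous_finsetSum _ fun o' _ => hcc o o'
    rw [e1, Ev_sum μ h Finset.univ hcc2]
    have h3 : ∀ o ∈ (Finset.univ : Finset (OO' τ r)), (r : ℝ) ^ (D - 1) / 4 ≤
        Ev μ (fun U => Om U ^ 2) (fun U => ∑ o' : OO' τ r, (tc L (Py U τ (pt m (ao o))) *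
        (starRingEnd ℂ) (tc L (Py U τ (pt m (ao o'))))).re) := by
      intro o _
      rw [Ev_sum μ h Finset.univ (hcc o)]
      have h4 := Finset.card_nsmul_le_sum Finset.univ _ _ fun o' _ => hpair o o'
      rw [Finset.card_univ, card_OO, nsmul_eq_mul] at h4
      refine le_trans (le_of_eq ?_) h4
      push_cast
      ring
    have h5 := Finset.card_nsmul_le_sum Finset.univ _ _ h3
    rw [Finset.card_univ, card_OO, nsmul_eq_mul] at h5
    refine le_trans (le_of_eq ?_) h5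
    push_cast
    ring
  have hZ := Zw_pos μ h
  unfold Ev at hsum
  rw [le_div_iff₀ hZ] at hsum
  refine hsum.trans (le_of_eq ?_)
  have i1 : Integrable (fun U : Ed D (2 * m) → G =>
      (FA L τ (fun o : OO' τ r => pt m (ao o)) 1 U * Om U) ^ 2) (ME μ (Ed D (2 * m))) :=
    integrable_cont μ (((FA_cont _ _).mul hO).pow 2)
  have i2 : Integrable (fun U : Ed D (2 * m) → G =>
      (FA L τ (fun o : OO' τ r => pt m (ao o)) (-Complex.I • 1) U * Om U) ^ 2)
      (ME μ (Ed D (2 * m))) := integrable_cont μ (((FA_cont _ _).mul hO).pow 2)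
  rw [← integral_add i1 i2]
  refine integral_congr_ae (Filter.Eventually.of_forall fun U => ?_)
  simp only
  ring

end

end Pool.Agent.R990.TG
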