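import Mathlib
import Pool.Agent.R990.TG.Asm

/-!
# The centre symmetry and the gap in a finite volume
-/

open MeasureTheory Matrix Filter
open scoped Matrix.Norms.Frobenius ContDiff Topology
open Pool.Agent.H906R3.YM hiding Pl PP
open Pool.Agent.W793.YM Pool.Agent.TH618.YM Pool.Agent.Y14

namespace Pool.Agent.R990.TG

set_option linter.unusedSectionVars false
set_option linter.unusedVariables false

noncomputable section

variable {G : Type} [Group G] [TopologicalSpace G]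
  [IsTopologicalGroup G] [CompactSpace G] [SecondCountableTopology G] [MeasurableSpace G]
  [BorelSpace G] (μ : Measure G) [IsProbabilityMeasure μ] [μ.IsMulLeftInvariant]
  [μ.IsMulRightInvariant] [μ.IsInvInvariant] {N n : ℕ} {L : LD G N n}
  {D m : ℕ} [NeZero m] {τ : Fin D} {z : G}

open Classical in
/-- the factors of the centre transformation -/
def cz (τ : Fin D) (z : G) (e : Ed D (2 * m)) : G := if e.2 = τ ∧ e.1 τ = 0 then z else 1

/-- the centre transformation -/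
def ph (τ : Fin D) (z : G) (U : Ed D (2 * m) → G) : Ed D (2 * m) → G := fun e => cz τ z e * U e

lemma cz_comm (hz : ∀ g, z * g = g * z) (e : Ed D (2 * m)) (g : G) :
    cz τ z e * g = g * cz τ z e := by
  unfold cz
  split_ifs
  · exact hz g
  · rw [one_mul, mul_one]

lemma ph_int {F : (Ed D (2 * m) → G) → ℝ} (hF : Continuous F) :
    ∫ U, F (ph τ z U) ∂(ME μ (Ed D (2 * m))) = ∫ U, F U ∂(ME μ (Ed D (2 * m))) := by
  have h := integral_skew μ (E := Ed D (2 * m)) (fun _ => True) hF (a := fun e _ => cz τ z e)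
    (b := fun e _ => 1) (fun e => continuous_const) (fun e => continuous_const)
    (fun e U U' _ => rfl) (fun e U U' _ => rfl)
  rw [← h]
  refine integral_congr_ae (Filter.Eventually.of_forall fun U => ?_)
  simp only [if_true, mul_one]
  rfl

lemma cz_shift {i j : Fin D} (hij : i ≠ j) (x : Fin D → ZMod (2 * m)) :
    cz τ z (x + eT j, i) = cz τ z (x, i) := by
  unfold cz
  by_cases hi : i = τ
  · have h1 : (x + eT j : Fin D → ZMod (2 * m)) τ = x τ := by
      have := nsmul_ne (τ := τ) (i := j) (by rw [← hi]; exact hij.symm) x 1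
      rwa [one_smul] at this
    simp only [h1]
  · simp only [hi, false_and, if_false]

lemma plqT_ph (hz : ∀ g, z * g = g * z) (U : Ed D (2 * m) → G) (x : Fin D → ZMod (2 * m))
    {i j : Fin D} (hij : i ≠ j) : plqT (ph τ z U) x i j = plqT U x i j := by
  unfold plqT ph
  rw [cz_shift hij, cz_shift hij.symm]
  have h1 := cz_comm (τ := τ) hz (x, i)
  have h2 := cz_comm (τ := τ) hz (x, j)
  generalize cz τ z (x, i) = a at h1 ⊢
  generalize cz τ z (x, j) = b at h2 ⊢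
  generalize U (x, i) = u1
  generalize U (x + eT i, j) = u2
  generalize U (x + eT j, i) = u3
  generalize U (x, j) = u4
  have e1 : a * u1 * (b * u2) * (a * u3)⁻¹ * (b * u4)⁻¹ =
      (a * (u1 * (b * u2) * u3⁻¹)) * a⁻¹ * u4⁻¹ * b⁻¹ := by group
  have e2 : (u1 * (b * u2) * u3⁻¹) * a * a⁻¹ * u4⁻¹ * b⁻¹ =
      u1 * (b * (u2 * u3⁻¹ * u4⁻¹)) * b⁻¹ := by group
  rw [e1, h1, e2, h2]
  group

lemma act_ph (hz : ∀ g, z * g = g * z) (U : Ed D (2 * m) → G) :
    act L (ph τ z U) = act L U := by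
  unfold act
  refine Finset.sum_congr rfl fun x _ => Finset.sum_congr rfl fun i _ =>
    Finset.sum_congr rfl fun j _ => ?_
  split_ifs with h
  · rw [plqT_ph hz U x h.ne]
  · rfl

lemma KK_ph (hz : ∀ g, z * g = g * z) (β : ℝ) (U U' : Ed D (2 * m) → G) :
    KK L β (ph τ z U) (ph τ z U') = KK L β U U' := by
  have h : kin L (ph τ z U) (ph τ z U') = kin L U U' := by
    unfold kin
    refine Finset.sum_congr rfl fun e _ => ?_
    have h1 : ph τ z U e * (ph τ z U' e)⁻¹ = cz τ z e * (U e * (U' e)⁻¹) * (cz τ z e)⁻¹ := by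
      unfold ph
      group
    rw [h1, we_conj]
  unfold KK
  rw [h, act_ph hz, act_ph hz]

lemma ln_ph {k : ℕ} {x : Fin D → ZMod (2 * m)} (U : Ed D (2 * m) → G) (a : ℕ)
    (hx : x τ = (a : ZMod (2 * m))) (ha : 1 ≤ a) (hk : a + k ≤ 2 * m) :
    ln (ph τ z U) τ k x = ln U τ k x := by
  induction k generalizing x a with
  | zero => rfl
  | succ k ih =>
    have h1 : (x + eT τ : Fin D → ZMod (2 * m)) τ = ((a + 1 : ℕ) : ZMod (2 * m)) := by
      have := nsmul_same (τ := τ) x 1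
      rw [one_smul] at this
      rw [this, hx]
      push_cast
      ring
    have h2 : x τ ≠ 0 := by
      rw [hx]
      intro h
      rw [ZMod.natCast_eq_zero_iff] at h
      have := Nat.le_of_dvd (by omega) h
      omega
    rw [ln_succ, ln_succ, ih (a + 1) h1 (by omega) (by omega)]
    congr 1
    unfold ph cz
    rw [if_neg (fun h => h2 h.2), one_mul]

lemma Py_ph (U : Ed D (2 * m) → G) {x : Fin D → ZMod (2 * m)} (hx : x τ = 0) :
    Py (ph τ z U) τ x = z * Py U τ x := by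
  obtain ⟨k, hk⟩ : ∃ k, 2 * m = k + 1 := ⟨2 * m - 1, by
    have := Nat.pos_of_ne_zero (NeZero.ne m)
    omega⟩
  have h1 : ∀ V : Ed D (2 * m) → G, Py V τ x = ln V τ (k + 1) x := fun V =>
    congrArg (fun k => ln V τ k x) hk
  rw [h1, h1, ln_succ, ln_succ, ln_ph U 1 (by
    have := nsmul_same (τ := τ) x 1
    rw [one_smul] at this
    rw [this, hx]
    push_cast
    ring) le_rfl (by omega)]
  have h2 : ph τ z U (x, τ) = z * U (x, τ) := by
    unfold ph cz
    rw [if_pos ⟨rfl, hx⟩]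
  rw [h2, mul_assoc]

lemma FC_ph {O : Type} [Fintype O] {xo : O → (Fin D → ZMod (2 * m))} (hx : ∀ o, xo o τ = 0)
    {ζ : ℂ} (hζ : L.rho z = ζ • (1 : Mat N)) (U : Ed D (2 * m) → G) :
    FC L τ xo (ph τ z U) = ζ * FC L τ xo U := by
  unfold FC
  rw [Finset.mul_sum]
  refine Finset.sum_congr rfl fun o _ => ?_
  rw [Py_ph U (hx o)]
  unfold tc
  rw [map_mul, hζ, smul_mul_assoc, one_mul, trace_smul, smul_eq_mul]

/-- the sums of Polyakov loops are orthogonal to the vacuum -/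
theorem FC_perp {O : Type} [Fintype O] {xo : O → (Fin D → ZMod (2 * m))} (hx : ∀ o, xo o τ = 0)
    (hz : ∀ g, z * g = g * z) {ζ : ℂ} (hζ : L.rho z = ζ • (1 : Mat N)) (hζ1 : ζ ≠ 1)
    {w : (Ed D (2 * m) → G) → ℝ} (hw : Continuous w) (hwi : ∀ U, w (ph τ z U) = w U) :
    ∫ U, (FC L τ xo U).re * w U ∂(ME μ (Ed D (2 * m))) = 0 ∧
      ∫ U, (FC L τ xo U).im * w U ∂(ME μ (Ed D (2 * m))) = 0 := by
  have hc : Continuous (FC (m := m) L τ xo) :=
    continuous_finsetSum _ fun o _ => tc_cont.comp (Py_cont _ _)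
  have cr : Continuous fun U => (FC L τ xo U).re * w U := (Complex.continuous_re.comp hc).mul hw
  have ci : Continuous fun U => (FC L τ xo U).im * w U := (Complex.continuous_im.comp hc).mul hw
  have ir := integrable_cont μ cr
  have ii := integrable_cont μ ci
  have h1 := ph_int μ (τ := τ) (z := z) cr
  have h2 := ph_int μ (τ := τ) (z := z) ci
  simp only [FC_ph hx hζ, hwi] at h1 h2
  obtain ⟨R, hR⟩ : ∃ R, R = ∫ U, (FC L τ xo U).re * w U ∂(ME μ (Ed D (2 * m))) := ⟨_, rfl⟩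
  obtain ⟨I, hI⟩ : ∃ I, I = ∫ U, (FC L τ xo U).im * w U ∂(ME μ (Ed D (2 * m))) := ⟨_, rfl⟩
  have e1 : ∫ U, (ζ * FC L τ xo U).re * w U ∂(ME μ (Ed D (2 * m))) = ζ.re * R - ζ.im * I := by
    rw [hR, hI, ← integral_const_mul, ← integral_const_mul,
      ← integral_sub (ir.const_mul _) (ii.const_mul _)]
    refine integral_congr_ae (Filter.Eventually.of_forall fun U => ?_)
    simp only [Complex.mul_re]
    ring
  have e2 : ∫ U, (ζ * FC L τ xo U).im * w U ∂(ME μ (Ed D (2 * m))) = ζ.re * I + ζ.im * R := by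
    rw [hR, hI, ← integral_const_mul, ← integral_const_mul,
      ← integral_add (ii.const_mul _) (ir.const_mul _)]
    refine integral_congr_ae (Filter.Eventually.of_forall fun U => ?_)
    simp only [Complex.mul_im]
    ring
  rw [e1, ← hR] at h1
  rw [e2, ← hI] at h2
  rw [← hR, ← hI]
  have hpos : 0 < (1 - ζ.re) ^ 2 + ζ.im ^ 2 := by
    by_contra hc
    have a1 : (1 - ζ.re) ^ 2 = 0 := by nlinarith [sq_nonneg (1 - ζ.re), sq_nonneg ζ.im]
    have a2 : ζ.im ^ 2 = 0 := by nlinarith [sq_nonneg (1 - ζ.re), sq_nonneg ζ.im]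
    refine hζ1 (Complex.ext ?_ ?_)
    · have := pow_eq_zero_iff two_ne_zero |>.1 a1
      rw [Complex.one_re]; linarith
    · have := pow_eq_zero_iff two_ne_zero |>.1 a2
      rw [Complex.one_im]; exact this
  constructor
  · have : ((1 - ζ.re) ^ 2 + ζ.im ^ 2) * R = 0 := by
      linear_combination (-(1 - ζ.re)) * h1 + ζ.im * h2
    exact (mul_eq_zero.1 this).resolve_left hpos.ne'
  · have : ((1 - ζ.re) ^ 2 + ζ.im ^ 2) * I = 0 := by
      linear_combination (-(1 - ζ.re)) * h2 - ζ.im * h1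
    exact (mul_eq_zero.1 this).resolve_left hpos.ne'

/-! ### gauge invariance -/

lemma Py_gt (γ : (Fin D → ZMod (2 * m)) → G) (U : Ed D (2 * m) → G)
    (x : Fin D → ZMod (2 * m)) : Py (gt γ U) τ x = γ x * Py U τ x * (γ x)⁻¹ := by
  unfold Py
  rw [ln_gt]
  have h : x + (2 * m) • (eT τ : Fin D → ZMod (2 * m)) = x := by
    have : (2 * m) • (eT τ : Fin D → ZMod (2 * m)) = 0 := by
      funext k
      simp only [Pi.smul_apply, nsmul_eq_mul, Pi.zero_apply]
      rw [ZMod.natCast_self, zero_mul]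
    rw [this, add_zero]
  rw [h]

lemma FA_gt {O : Type} [Fintype O] (xo : O → (Fin D → ZMod (2 * m))) (c : ℂ)
    (γ : (Fin D → ZMod (2 * m)) → G) (U : Ed D (2 * m) → G) :
    FA L τ xo (c • 1) (gt γ U) = FA L τ xo (c • 1) U := by
  unfold FA
  refine Finset.sum_congr rfl fun o _ => ?_
  have h : ∀ g P : G, trace (L.rho (g * P * g⁻¹)) = trace (L.rho P) := fun g P => by
    rw [map_mul, trace_mul_comm, ← map_mul]
    congr 2
    group
  rw [Py_gt, smul_mul_assoc, smul_mul_assoc, one_mul, one_mul, trace_smul, trace_smul, h]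

/-! ### the result -/

/-- **The gap in a finite volume.** -/
theorem gap_fin {β : ℝ} (hβ : 0 < β) (hm : 2 ≤ m) (hN : 1 ≤ N) (τ : Fin D)
    (hz : ∀ g, z * g = g * z) {ζ : ℂ} (hζ : L.rho z = ζ • (1 : Mat N)) (hζ1 : ζ ≠ 1) {r : ℕ}
    (hr : 1 ≤ r) (hr2 : r ≤ 2 * m) (hc : 23040 * N * D ^ 4 * (m * r) ≤ β) :
    ∃ lam : ℝ, 0 < lam ∧ ∃ Om : (Ed D (2 * m) → G) → ℝ, Continuous Om ∧ (∀ U, 0 < Om U) ∧
      (∀ U, TK (ME μ (Ed D (2 * m))) (KK L β) Om U = lam * Om U) ∧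
      (∀ f : (Ed D (2 * m) → G) → ℝ, Continuous f →
        ∫ U, f U * TK (ME μ (Ed D (2 * m))) (KK L β) f U ∂(ME μ (Ed D (2 * m))) ≤
          lam * ∫ U, f U ^ 2 ∂(ME μ (Ed D (2 * m)))) ∧
      ∃ f : (Ed D (2 * m) → G) → ℝ, Continuous f ∧ (∀ γ U, f (gt γ U) = f U) ∧
        0 < ∫ U, f U ^ 2 ∂(ME μ (Ed D (2 * m))) ∧
        ∫ U, f U * Om U ∂(ME μ (Ed D (2 * m))) = 0 ∧
        (1 - 24 * N * m / (β * r ^ (D - 1))) * lam * ∫ U, f U ^ 2 ∂(ME μ (Ed D (2 * m))) ≤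
          ∫ U, f U * TK (ME μ (Ed D (2 * m))) (KK L β) f U ∂(ME μ (Ed D (2 * m))) := by
  obtain ⟨lam, hlam, Om, hO, hp, hT, hsym, h⟩ := vac μ (D := D) (m := m) (L := L) β
  have htop : ∀ f : (Ed D (2 * m) → G) → ℝ, Continuous f →
      ∫ U, f U * TK (ME μ (Ed D (2 * m))) (KK L β) f U ∂(ME μ (Ed D (2 * m))) ≤
        lam * ∫ U, f U ^ 2 ∂(ME μ (Ed D (2 * m))) := fun f hf =>
    top_le (ME μ (Ed D (2 * m))) (KK_cont β) (KK_symm β) (fun x y => (KK_pos β x y).le) hO hp hT hf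
  refine ⟨lam, hlam, Om, hO, hp, hT, htop, ?_⟩
  have hD : 1 ≤ D := Nat.one_le_iff_ne_zero.2 fun h0 => by subst h0; exact τ.elim0
  have hN' : (1 : ℝ) ≤ N := by exact_mod_cast hN
  have hm' : (2 : ℝ) ≤ m := by exact_mod_cast hm
  have hr' : (1 : ℝ) ≤ r := by exact_mod_cast hr
  have hD' : (1 : ℝ) ≤ D := by exact_mod_cast hD
  have hδ : 2 * N * (1 / β) * (2 * m : ℕ) ≤ 1 := by
    have e : 2 * N * (1 / β) * (2 * m : ℕ) = (4 * N * m) / β := by
      push_cast
      field_simp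
      ring
    rw [e, div_le_one hβ]
    refine le_trans ?_ hc
    have h1 : (1 : ℝ) ≤ D ^ 4 := one_le_pow₀ hD'
    have h2 : (m : ℝ) * 1 ≤ m * r := mul_le_mul_of_nonneg_left hr' (by linarith)
    have h3 : (N : ℝ) * 1 ≤ N * D ^ 4 := mul_le_mul_of_nonneg_left h1 (by linarith)
    have h4 : (N * 1 : ℝ) * (m * 1) ≤ (N * D ^ 4) * (m * r) :=
      mul_le_mul h3 h2 (by linarith) (by positivity)
    have h5 : (0 : ℝ) ≤ (N * D ^ 4) * (m * r) := by positivity
    nlinarith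
  obtain ⟨I, hI⟩ : ∃ I, I = ∫ U, Om U ^ 2 ∂(ME μ (Ed D (2 * m))) := ⟨_, rfl⟩
  have hI0 : 0 < I := by rw [hI]; exact Zw_pos μ h
  obtain ⟨xo, hxo⟩ : ∃ xo : OO' τ r → (Fin D → ZMod (2 * m)), xo = fun o => pt m (ao o) :=
    ⟨_, rfl⟩
  have hx : ∀ o, xo o τ = 0 := fun o => by
    rw [hxo]
    show ((ao o τ : ℕ) : ZMod (2 * m)) = 0
    rw [ao_τ, Nat.cast_zero]
  have hinj : Function.Injective xo := by rw [hxo]; exact ao_inj hr hr2
  have hcard : (Fintype.card (OO' τ r) : ℝ) = (r : ℝ) ^ (D - 1) := by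
    rw [card_OO]; push_cast; rfl
  obtain ⟨q, hq⟩ : ∃ q : ℝ, q = (r : ℝ) ^ (D - 1) := ⟨_, rfl⟩
  have hq0 : 0 < q := by rw [hq]; positivity
  have hden := denom μ (L := L) (τ := τ) hβ hm hN hlam hO hp hT h hr hr2 hc
  rw [← hxo, ← hI, ← hq] at hden
  have hnum : ∀ A : Mat N, Aᴴ * A = 1 →
      lam * ∫ U, (FA L τ xo A U * Om U) ^ 2 ∂(ME μ (Ed D (2 * m))) -
      ∫ U, (FA L τ xo A U * Om U) * TK (ME μ (Ed D (2 * m))) (KK L β)
        (fun V => FA L τ xo A V * Om V) U ∂(ME μ (Ed D (2 * m))) ≤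
      (1 / 2) * ((q * (3 * (N * (2 * m : ℕ) * (1 / β)))) * (lam * I)) := by
    intro A hA
    have := numer μ (L := L) hx hinj hβ hδ hA hO hp hT
    rwa [hcard, ← hq, ← hI] at this
  obtain ⟨f, hf⟩ : ∃ f : ℂ → (Ed D (2 * m) → G) → ℝ,
      f = fun c U => FA L τ xo (c • 1) U * Om U := ⟨_, rfl⟩
  have hfc : ∀ c, Continuous (f c) := fun c => by rw [hf]; exact (FA_cont _ _).mul hO
  have hfg : ∀ c γ U, f c (gt γ U) = f c U := fun c γ U => by
    rw [hf]
    simp only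
    rw [FA_gt, hsym (gt γ) (fun F hF => integral_gtc μ γ hF) (KK_gt β γ) U]
  have hOph : ∀ U, Om (ph τ z U) = Om U := hsym (ph τ z) (fun F hF => ph_int μ hF) (KK_ph hz β)
  have hperp := FC_perp μ (L := L) hx hz hζ hζ1 (w := fun U => Om U ^ 2) (hO.pow 2)
    (fun U => by rw [hOph U])
  have hp1 : ∫ U, f 1 U * Om U ∂(ME μ (Ed D (2 * m))) = 0 := by
    rw [← hperp.1, hf]
    refine integral_congr_ae (Filter.Eventually.of_forall fun U => ?_)
    simp only
    rw [one_smul, FA_one]; ring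
  have hp2 : ∫ U, f (-Complex.I) U * Om U ∂(ME μ (Ed D (2 * m))) = 0 := by
    rw [← hperp.2, hf]
    refine integral_congr_ae (Filter.Eventually.of_forall fun U => ?_)
    simp only
    rw [FA_I]; ring
  have n1 := hnum (1 : Mat N) (by rw [conjTranspose_one, one_mul])
  have n2 := hnum (-Complex.I • (1 : Mat N)) unit_I
  have f1 : f 1 = fun U => FA L τ xo 1 U * Om U := by rw [hf]; simp only [one_smul]
  have f2 : f (-Complex.I) = fun U => FA L τ xo (-Complex.I • 1) U * Om U := by rw [hf]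
  obtain ⟨a1, ha1⟩ : ∃ a1, a1 = ∫ U, f 1 U ^ 2 ∂(ME μ (Ed D (2 * m))) := ⟨_, rfl⟩
  obtain ⟨a2, ha2⟩ : ∃ a2, a2 = ∫ U, f (-Complex.I) U ^ 2 ∂(ME μ (Ed D (2 * m))) := ⟨_, rfl⟩
  obtain ⟨t1, ht1⟩ : ∃ t1, t1 = ∫ U, f 1 U * TK (ME μ (Ed D (2 * m))) (KK L β) (f 1) U
    ∂(ME μ (Ed D (2 * m))) := ⟨_, rfl⟩
  obtain ⟨t2, ht2⟩ : ∃ t2, t2 = ∫ U, f (-Complex.I) U * TK (ME μ (Ed D (2 * m))) (KK L β)
    (f (-Complex.I)) U ∂(ME μ (Ed D (2 * m))) := ⟨_, rfl⟩
  have n1' : lam * a1 - t1 ≤ (1 / 2) * ((q * (3 * (N * (2 * m : ℕ) * (1 / β)))) * (lam * I)) := by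
    rw [ha1, ht1, f1]; exact n1
  have n2' : lam * a2 - t2 ≤ (1 / 2) * ((q * (3 * (N * (2 * m : ℕ) * (1 / β)))) * (lam * I)) := by
    rw [ha2, ht2, f2]; exact n2
  have d' : q ^ 2 / 4 * I ≤ a1 + a2 := by rw [ha1, ha2, f1, f2]; exact hden
  have p1 : t1 ≤ lam * a1 := by rw [ha1, ht1]; exact htop _ (hfc _)
  have p2 : t2 ≤ lam * a2 := by rw [ha2, ht2]; exact htop _ (hfc _)
  have b1 : 0 ≤ a1 := by rw [ha1]; exact integral_nonneg fun U => sq_nonneg _
  have b2 : 0 ≤ a2 := by rw [ha2]; exact integral_nonneg fun U => sq_nonneg _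
  obtain ⟨ε, hε⟩ : ∃ ε : ℝ, ε = 24 * N * m / (β * q) := ⟨_, rfl⟩
  have hε0 : 0 ≤ ε := by rw [hε]; positivity
  have hsum : (lam * a1 - t1) + (lam * a2 - t2) ≤ ε * lam * (a1 + a2) := by
    have h1 : (lam * a1 - t1) + (lam * a2 - t2) ≤
        (q * (3 * (N * (2 * m : ℕ) * (1 / β)))) * (lam * I) := by linarith
    have h2 : (q * (3 * (N * (2 * m : ℕ) * (1 / β)))) * (lam * I) =
        ε * lam * (q ^ 2 / 4 * I) := by
      rw [hε]
      push_cast
      field_simp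
      ring
    rw [h2] at h1
    exact h1.trans (mul_le_mul_of_nonneg_left d' (by positivity))
  have hapos : 0 < a1 + a2 := lt_of_lt_of_le (by positivity) d'
  rw [← hq, ← hε]
  have hcase : (0 < a1 ∧ (1 - ε) * lam * a1 ≤ t1) ∨ (0 < a2 ∧ (1 - ε) * lam * a2 ≤ t2) := by
    by_cases c1 : 0 < a1
    · by_cases c2 : 0 < a2
      · by_cases c3 : (1 - ε) * lam * a1 ≤ t1
        · exact Or.inl ⟨c1, c3⟩
        · refine Or.inr ⟨c2, ?_⟩
          push Not at c3
          nlinarith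
      · have h0 : a2 = 0 := le_antisymm (not_lt.1 c2) b2
        refine Or.inl ⟨c1, ?_⟩
        rw [h0] at hsum p2
        nlinarith
    · have h0 : a1 = 0 := le_antisymm (not_lt.1 c1) b1
      refine Or.inr ⟨by linarith, ?_⟩
      rw [h0] at hsum p1
      nlinarith
  rcases hcase with ⟨c1, c2⟩ | ⟨c1, c2⟩
  · exact ⟨f 1, hfc 1, hfg 1, by rw [← ha1]; exact c1, hp1, by rw [← ha1, ← ht1]; exact c2⟩
  · exact ⟨f (-Complex.I), hfc _, hfg _, by rw [← ha2]; exact c1, hp2,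
      by rw [← ha2, ← ht2]; exact c2⟩

end

end Pool.Agent.R990.TG
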